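import Pool.Agent.H65.FL.PDefs
import Pool.Agent.H86.PL.Par

set_option autoImplicit false

/-!
# Module Kno: the Knothe map of a disc

PROOF. `P (x, y) = ∫ t in 0..y, ρ (x, t)` is smooth on the plane (`Pool.Agent.H86.PL.contDiff_prim`), `∂P/∂y = ρ`. `σ x = √(r² - x²)` is smooth on `(-r, r)` and continuous on `ℝ` with `Real.sqrt`.
`m x = P (x, σ x) - P (x, -σ x)` is continuous on `[-r, r]`, smooth and positive on `(-r, r)` (`P (x, ·)` is strictly increasing on `[-σ x, σ x]`: its derivative is `ρ > 0` there). `X x = ∫ t in (-r)..x, m t` is continuous on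
`[-r, r]`, smooth on `(-r, r)` with derivative `m` (a function with a smooth derivative is smooth: `contDiffOn_infty_iff_deriv_of_isOpen` or `contDiffOn_succ_iff_deriv_of_isOpen`), strictly increasing, `X (-r) = 0`; let `A = X r > 0`.
`Y (x, y) = (P (x, y) - P (x, -σ x)) / m x`. `K (x, y) = (X x, Y (x, y))`. For fixed `x ∈ (-r, r)` the map `y ↦ Y (x, y)` is a strictly increasing continuous map of `[-σ x, σ x]` onto `[0, 1]`; `(x, y) ∈ Dk r` iff `|x| < r` and
`|y| < σ x`. So `K` is injective on `Dk r` with the image `Ioo 0 A ×ˢ Ioo 0 1` (intermediate value theorem). The derivative is triangular: `(dx, dy) ↦ (m x * dx, c * dx + (ρ / m x) * dy)` with some number `c`, so its determinant is `ρ (x, y)`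
(`HasFDerivAt`, and the determinant of a triangular map of `ℝ × ℝ`: `LinearMap.det_toLin` with `Basis.finTwoProd`, or write a private lemma for `det` of an endomorphism of `ℝ × ℝ` in terms of its values on `(1, 0)`, `(0, 1)`).
-/

namespace Pool.Agent.H65.FL

open Set Metric MeasureTheory
open scoped ENNReal ContDiff

/-- the determinant of an endomorphism of the plane -/
theorem det_plane (L : ℝ × ℝ →L[ℝ] ℝ × ℝ) :
    L.det = (L (1, 0)).1 * (L (0, 1)).2 - (L (0, 1)).1 * (L (1, 0)).2 := by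
  rw [ContinuousLinearMap.det, ← LinearMap.det_toMatrix (Module.Basis.finTwoProd ℝ), Matrix.det_fin_two]
  simp [LinearMap.toMatrix_apply]

private lemma Kno_P_deriv {ρ : ℝ × ℝ → ℝ} (hρ : Continuous ρ) (x y : ℝ) :
    HasDerivAt (fun y => ∫ τ in (0 : ℝ)..y, ρ (x, τ)) (ρ (x, y)) y := by
  have hc : Continuous fun τ : ℝ => ρ (x, τ) := hρ.comp (by fun_prop)
  exact intervalIntegral.integral_hasDerivAt_right (hc.intervalIntegrable _ _)
    (hc.stronglyMeasurableAtFilter _ _) hc.continuousAt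

private lemma Kno_Dk {r : ℝ} (hr : 0 < r) (p : ℝ × ℝ) :
    p ∈ Dk r ↔ p.1 ∈ Ioo (-r) r ∧ p.2 ∈ Ioo (-√(r ^ 2 - p.1 ^ 2)) (√(r ^ 2 - p.1 ^ 2)) := by
  constructor
  · intro h
    have h0 : p.1 ^ 2 + p.2 ^ 2 < r ^ 2 := h
    have h1 : p.1 ^ 2 < r ^ 2 := by nlinarith [sq_nonneg p.2]
    refine ⟨abs_lt.1 (abs_lt_of_sq_lt_sq h1 hr.le), ?_⟩
    refine abs_lt.1 ?_
    rw [← Real.sqrt_sq_eq_abs]
    exact Real.sqrt_lt_sqrt (sq_nonneg _) (by linarith)
  · rintro ⟨h1, h2⟩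
    have h3 := abs_lt.2 h2
    rw [← Real.sqrt_sq_eq_abs] at h3
    have h4 := (Real.sqrt_lt_sqrt_iff (sq_nonneg _)).1 h3
    show p.1 ^ 2 + p.2 ^ 2 < r ^ 2
    linarith

theorem knothe {r : ℝ} (hr : 0 < r) {ρ : ℝ × ℝ → ℝ} (hρ : ContDiff ℝ ∞ ρ)
    (hp : ∀ p : ℝ × ℝ, p.1 ^ 2 + p.2 ^ 2 ≤ r ^ 2 → 0 < ρ p) :
    ∃ (A : ℝ) (K : ℝ × ℝ → ℝ × ℝ), 0 < A ∧ ContDiffOn ℝ ∞ K (Dk r) ∧ InjOn K (Dk r) ∧
      K '' Dk r = Ioo 0 A ×ˢ Ioo 0 1 ∧ ∀ p ∈ Dk r, (fderiv ℝ K p).det = ρ p := by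
  obtain ⟨P, hPdef⟩ : ∃ P : ℝ × ℝ → ℝ, P = fun p => ∫ τ in (0 : ℝ)..p.2, ρ (p.1, τ) := ⟨_, rfl⟩
  have hP : ContDiff ℝ ∞ P := hPdef ▸ Pool.Agent.H86.PL.contDiff_prim hρ
  have hPd : ∀ x y, HasDerivAt (fun y => P (x, y)) (ρ (x, y)) y := fun x y => by
    rw [hPdef]
    exact Kno_P_deriv hρ.continuous x y
  obtain ⟨s, hs⟩ : ∃ s : ℝ → ℝ, s = fun x => √(r ^ 2 - x ^ 2) := ⟨_, rfl⟩
  have hDk : ∀ p : ℝ × ℝ, p ∈ Dk r ↔ p.1 ∈ Ioo (-r) r ∧ p.2 ∈ Ioo (-s p.1) (s p.1) := fun p => by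
    rw [hs]
    exact Kno_Dk hr p
  have hsc : Continuous s := by
    rw [hs]
    fun_prop
  have hpos : ∀ x ∈ Ioo (-r) r, 0 < r ^ 2 - x ^ 2 := fun x hx => by
    have := hx.1
    have := hx.2
    nlinarith
  have hs0 : ∀ x ∈ Ioo (-r) r, 0 < s x := fun x hx => by
    rw [hs]
    exact Real.sqrt_pos.2 (hpos x hx)
  have hssm : ContDiffOn ℝ ∞ s (Ioo (-r) r) := by
    rw [hs]
    refine ContDiffOn.sqrt (by fun_prop) fun x hx => (hpos x hx).ne'
  have hssq : ∀ x ∈ Ioo (-r) r, s x ^ 2 = r ^ 2 - x ^ 2 := fun x hx => by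
    rw [hs]
    exact Real.sq_sqrt (hpos x hx).le
  -- strict monotonicity in the vertical direction
  have hmono : ∀ x ∈ Ioo (-r) r, StrictMonoOn (fun y => P (x, y)) (Icc (-s x) (s x)) := by
    intro x hx
    refine strictMonoOn_of_deriv_pos (convex_Icc _ _)
      (hP.continuous.comp (by fun_prop : Continuous fun y : ℝ => (x, y))).continuousOn fun y hy => ?_
    rw [(hPd x y).deriv]
    refine hp _ ?_
    rw [interior_Icc] at hy
    have h1 := hssq x hx
    have h2 : y ^ 2 ≤ s x ^ 2 := by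
      have := hy.1
      have := hy.2
      nlinarith
    show x ^ 2 + y ^ 2 ≤ r ^ 2
    linarith
  obtain ⟨mm, hmm⟩ : ∃ mm : ℝ → ℝ, mm = fun x => P (x, s x) - P (x, -s x) := ⟨_, rfl⟩
  have hmmc : Continuous mm := by
    rw [hmm]
    exact (hP.continuous.comp (continuous_id.prodMk hsc)).sub (hP.continuous.comp (continuous_id.prodMk hsc.neg))
  have hmm0 : ∀ x ∈ Ioo (-r) r, 0 < mm x := fun x hx => by
    rw [hmm]
    have h0 := hs0 x hx
    have := hmono x hx (left_mem_Icc.2 (by linarith)) (right_mem_Icc.2 (by linarith)) (by linarith)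
    simp only at this ⊢
    linarith
  have hPs : ContDiffOn ℝ ∞ (fun x => P (x, s x)) (Ioo (-r) r) :=
    hP.comp_contDiffOn (contDiffOn_id.prodMk hssm)
  have hPs' : ContDiffOn ℝ ∞ (fun x => P (x, -s x)) (Ioo (-r) r) :=
    hP.comp_contDiffOn (contDiffOn_id.prodMk hssm.neg)
  have hmms : ContDiffOn ℝ ∞ mm (Ioo (-r) r) := by
    rw [hmm]
    exact hPs.sub hPs'
  obtain ⟨X, hX⟩ : ∃ X : ℝ → ℝ, X = fun x => ∫ t in (-r)..x, mm t := ⟨_, rfl⟩
  have hXd : ∀ x, HasDerivAt X (mm x) x := fun x => by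
    rw [hX]
    exact intervalIntegral.integral_hasDerivAt_right (hmmc.intervalIntegrable _ _)
      (hmmc.stronglyMeasurableAtFilter _ _) hmmc.continuousAt
  have hXc : Continuous X := continuous_iff_continuousAt.2 fun x => (hXd x).continuousAt
  have hXm : StrictMonoOn X (Icc (-r) r) := by
    refine strictMonoOn_of_deriv_pos (convex_Icc _ _) hXc.continuousOn fun x hx => ?_
    rw [(hXd x).deriv]
    rw [interior_Icc] at hx
    exact hmm0 x hx
  have hX0 : X (-r) = 0 := by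
    rw [hX]
    exact intervalIntegral.integral_same
  have hA : 0 < X r := by
    rw [← hX0]
    exact hXm (left_mem_Icc.2 (by linarith)) (right_mem_Icc.2 (by linarith)) (by linarith)
  have hXs : ContDiffOn ℝ ∞ X (Ioo (-r) r) := by
    rw [contDiffOn_infty_iff_deriv_of_isOpen isOpen_Ioo]
    refine ⟨fun x _ => (hXd x).differentiableAt.differentiableWithinAt, ?_⟩
    have h1 : deriv X = mm := by
      funext x
      exact (hXd x).deriv
    rw [h1]
    exact hmms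
  obtain ⟨Y, hY⟩ : ∃ Y : ℝ × ℝ → ℝ, Y = fun p => (P p - P (p.1, -s p.1)) / mm p.1 := ⟨_, rfl⟩
  have hfst : MapsTo (Prod.fst : ℝ × ℝ → ℝ) (Dk r) (Ioo (-r) r) := fun p hp => ((hDk p).1 hp).1
  have hYs : ContDiffOn ℝ ∞ Y (Dk r) := by
    rw [hY]
    refine ContDiffOn.div (hP.contDiffOn.sub (hPs'.comp contDiffOn_fst hfst)) (hmms.comp contDiffOn_fst hfst) ?_
    intro p hp
    exact (hmm0 _ (hfst hp)).ne'
  have hK : ContDiffOn ℝ ∞ (fun p : ℝ × ℝ => (X p.1, Y p)) (Dk r) :=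
    (hXs.comp contDiffOn_fst hfst).prodMk hYs
  have hopen : IsOpen (Dk r) := by
    have h1 : Continuous fun p : ℝ × ℝ => p.1 ^ 2 + p.2 ^ 2 := by fun_prop
    exact isOpen_lt h1 continuous_const
  refine ⟨X r, fun p => (X p.1, Y p), hA, hK, ?_, ?_, ?_⟩
  · -- injectivity
    rintro ⟨x, y⟩ h1 ⟨x', y'⟩ h2 heq
    obtain ⟨a1, a2⟩ := (hDk _).1 h1
    obtain ⟨b1, b2⟩ := (hDk _).1 h2
    simp only [Prod.mk.injEq] at heq
    obtain ⟨e1, e2⟩ := heq
    have hxx : x = x' := hXm.injOn ⟨a1.1.le, a1.2.le⟩ ⟨b1.1.le, b1.2.le⟩ e1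
    subst hxx
    have hm := hmm0 x a1
    rw [hY] at e2
    simp only at e2
    rw [div_left_inj' hm.ne'] at e2
    have e3 : P (x, y) = P (x, y') := by linarith
    have hyy : y = y' := (hmono x a1).injOn ⟨a2.1.le, a2.2.le⟩ ⟨b2.1.le, b2.2.le⟩ e3
    rw [hyy]
  · -- the image
    ext ⟨a, b⟩
    constructor
    · rintro ⟨⟨x, y⟩, h1, h2⟩
      obtain ⟨a1, a2⟩ := (hDk _).1 h1
      simp only [Prod.mk.injEq] at h2
      obtain ⟨rfl, rfl⟩ := h2
      have hm := hmm0 x a1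
      have h0 := hs0 x a1
      have a1' : x ∈ Icc (-r) r := ⟨a1.1.le, a1.2.le⟩
      refine ⟨⟨?_, ?_⟩, ?_, ?_⟩
      · show 0 < X x
        rw [← hX0]
        exact hXm (left_mem_Icc.2 (by linarith)) a1' a1.1
      · exact hXm a1' (right_mem_Icc.2 (by linarith)) a1.2
      · show 0 < Y (x, y)
        have h3 : P (x, -s x) < P (x, y) :=
          hmono x a1 (left_mem_Icc.2 (by linarith)) ⟨a2.1.le, a2.2.le⟩ a2.1
        rw [hY]
        exact div_pos (by simpa using h3) hm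
      · show Y (x, y) < 1
        have h3 : P (x, y) < P (x, s x) :=
          hmono x a1 ⟨a2.1.le, a2.2.le⟩ (right_mem_Icc.2 (by linarith)) a2.2
        rw [hY]
        simp only
        rw [div_lt_one hm, hmm]
        simp only
        linarith
    · rintro ⟨h1, h2⟩
      have h1' : a ∈ Ioo (X (-r)) (X r) := by
        rw [hX0]
        exact h1
      obtain ⟨x, hx, hxa⟩ := intermediate_value_Ioo (show -r ≤ r by linarith) hXc.continuousOn h1'
      have hm := hmm0 x hx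
      have h0 := hs0 x hx
      have hb0 : 0 < b := h2.1
      have hb1 : b < 1 := h2.2
      have hmx : mm x = P (x, s x) - P (x, -s x) := by rw [hmm]
      have h3 : P (x, -s x) + b * mm x ∈ Ioo (P (x, -s x)) (P (x, s x)) := by
        constructor
        · nlinarith
        · nlinarith
      obtain ⟨y, hy, hyb⟩ := intermediate_value_Ioo (f := fun y => P (x, y)) (show -s x ≤ s x by linarith)
        (hP.continuous.comp (by fun_prop : Continuous fun y : ℝ => (x, y))).continuousOn h3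
      refine ⟨(x, y), (hDk _).2 ⟨hx, hy⟩, ?_⟩
      simp only [Prod.mk.injEq]
      refine ⟨hxa, ?_⟩
      have hyb' : P (x, y) = P (x, -s x) + b * mm x := hyb
      rw [hY]
      simp only
      rw [hyb', add_sub_cancel_left, mul_div_cancel_right₀ _ hm.ne']
  · -- the determinant
    rintro ⟨x, y⟩ hxy
    obtain ⟨a1, a2⟩ := (hDk _).1 hxy
    have hm := hmm0 x a1
    have hd : DifferentiableAt ℝ (fun p : ℝ × ℝ => (X p.1, Y p)) (x, y) :=
      (hK.differentiableOn (by simp)).differentiableAt (hopen.mem_nhds hxy)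
    have hL := hd.hasFDerivAt
    obtain ⟨L, hLdef⟩ : ∃ L, L = fderiv ℝ (fun p : ℝ × ℝ => (X p.1, Y p)) (x, y) := ⟨_, rfl⟩
    rw [← hLdef] at hL ⊢
    have c1 : HasDerivAt (fun t : ℝ => (x, t)) ((0 : ℝ), (1 : ℝ)) y :=
      (hasDerivAt_const y x).prodMk (hasDerivAt_id y)
    have c2 : HasDerivAt (fun t : ℝ => (t, y)) ((1 : ℝ), (0 : ℝ)) x :=
      (hasDerivAt_id x).prodMk (hasDerivAt_const x y)
    have d1 : HasDerivAt (fun t : ℝ => (X x, Y (x, t))) (L (0, 1)) y :=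
      HasFDerivAt.comp_hasDerivAt (f := fun t : ℝ => (x, t)) y hL c1
    have d2 : HasDerivAt (fun t : ℝ => (X t, Y (t, y))) (L (1, 0)) x :=
      HasFDerivAt.comp_hasDerivAt (f := fun t : ℝ => (t, y)) x hL c2
    have g1 : HasDerivAt (fun t : ℝ => (X x, Y (x, t))) ((0 : ℝ), ρ (x, y) / mm x) y := by
      refine (hasDerivAt_const y (X x)).prodMk ?_
      rw [hY]
      exact ((hPd x y).sub_const (P (x, -s x))).div_const (mm x)
    have k1 : L (0, 1) = (0, ρ (x, y) / mm x) := d1.unique g1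
    have k2 : (L (1, 0)).1 = mm x := by
      have g2 : HasDerivAt (fun t : ℝ => X t) ((L (1, 0)).1) x :=
        (hasFDerivAt_fst (𝕜 := ℝ) (p := (X x, Y (x, y)))).comp_hasDerivAt (f := fun t : ℝ => (X t, Y (t, y))) x d2
      exact g2.unique (hXd x)
    rw [det_plane, k1, k2]
    simp only [zero_mul, sub_zero]
    rw [mul_div_cancel₀ _ hm.ne']

end Pool.Agent.H65.FL
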