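import Pool.Agent.H65.FL.Inv
import Pool.Agent.H65.FL.Kno

set_option autoImplicit false

/-!
# Module Plb: the area of a disc; a rectangle is a disc

`vol_Dk`: transfer from `Complex.volume_ball` with the measure preserving equivalence `Complex.volume_preserving_equiv_real_prod` (`Dk r` corresponds to `ball (0 : ℂ) r`), or as the region between two graphs.
`knothe_vol`: change of variables `MeasureTheory.lintegral_abs_det_fderiv_eq_addHaar_image` for `K` on `Dk r`; the image has the volume `ofReal A`.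
`disc_rect`: `knothe` with the constant function `1` on the disc `Dk ρ`: `A = π ρ²` by `knothe_vol` and `vol_Dk`; `K` is an `Emb`; the inverse `L` of `inv_smooth` is an `Emb` of `K '' Dk ρ`.
`rect_disc`: `emb_lin` followed by the inverse map of `disc_rect` (`emb_comp`).
-/

namespace Pool.Agent.H65.FL

open Set Metric MeasureTheory
open scoped ENNReal ContDiff

theorem isOpen_Dk (r : ℝ) : IsOpen (Dk r) :=
  isOpen_lt (by fun_prop) continuous_const

theorem vol_Dk {r : ℝ} (hr : 0 < r) : volume (Dk r) = ENNReal.ofReal (Real.pi * r ^ 2) := by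
  have h2 : Complex.measurableEquivRealProd ⁻¹' (Dk r) = ball (0 : ℂ) r := by
    ext z
    rw [mem_preimage, mem_ball_zero_iff, ← sq_lt_sq₀ (norm_nonneg _) hr.le,
      ← Complex.normSq_eq_norm_sq, Complex.normSq_apply]
    change z.re ^ 2 + z.im ^ 2 < r ^ 2 ↔ _
    rw [sq z.re, sq z.im]
  have h3 := Complex.volume_preserving_equiv_real_prod.measure_preimage
    (isOpen_Dk r).measurableSet.nullMeasurableSet
  rw [← h3, h2, Complex.volume_ball, mul_comm Real.pi, ENNReal.ofReal_mul (by positivity),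
    ENNReal.ofReal_pow hr.le]
  congr 1
  exact (ENNReal.ofReal_coe_nnreal (p := NNReal.pi)).symm

private lemma plb_rect (a b : ℝ) :
    volume (Ioo 0 a ×ˢ Ioo 0 b : Set (ℝ × ℝ)) = ENNReal.ofReal a * ENNReal.ofReal b := by
  rw [Measure.volume_eq_prod, Measure.prod_prod, Real.volume_Ioo, Real.volume_Ioo, sub_zero,
    sub_zero]

theorem knothe_vol {r A : ℝ} {ρ : ℝ × ℝ → ℝ} {K : ℝ × ℝ → ℝ × ℝ} (hA : 0 < A)
    (hK : ContDiffOn ℝ ∞ K (Dk r)) (hi : InjOn K (Dk r)) (him : K '' Dk r = Ioo 0 A ×ˢ Ioo 0 1)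
    (hd : ∀ p ∈ Dk r, (fderiv ℝ K p).det = ρ p) (hp : ∀ p ∈ Dk r, 0 < ρ p) :
    ∫⁻ p in Dk r, ENNReal.ofReal (ρ p) = ENNReal.ofReal A := by
  have h1 := lintegral_abs_det_fderiv_eq_addHaar_image (volume : Measure (ℝ × ℝ))
    (isOpen_Dk r).measurableSet (f := K) (f' := fderiv ℝ K) (fun p hp' =>
      (((hK.contDiffAt ((isOpen_Dk r).mem_nhds hp')).differentiableAt
        (by simp)).hasFDerivAt).hasFDerivWithinAt) hi
  rw [him, plb_rect, ENNReal.ofReal_one, mul_one] at h1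
  rw [← h1]
  refine setLIntegral_congr_fun (isOpen_Dk r).measurableSet fun p hp' => ?_
  simp only [hd p hp', abs_of_pos (hp p hp')]

theorem disc_rect {ρ : ℝ} (hρ : 0 < ρ) : ∃ e e' : ℝ × ℝ → ℝ × ℝ,
    Emb e (Dk ρ) (Ioo 0 (Real.pi * ρ ^ 2) ×ˢ Ioo 0 1) ∧
    Emb e' (Ioo 0 (Real.pi * ρ ^ 2) ×ˢ Ioo 0 1) (Dk ρ) := by
  obtain ⟨A, K, hA, hK, hi, him, hd⟩ := knothe hρ (ρ := fun _ => 1) contDiff_const
    (fun _ _ => one_pos)
  have hAe : A = Real.pi * ρ ^ 2 := by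
    have h1 := knothe_vol hA hK hi him hd (fun _ _ => one_pos)
    rw [ENNReal.ofReal_one, setLIntegral_const, one_mul, vol_Dk hρ] at h1
    have h2 : 0 ≤ Real.pi * ρ ^ 2 := by positivity
    exact ((ENNReal.ofReal_eq_ofReal_iff h2 hA.le).1 h1).symm
  subst hAe
  obtain ⟨L, hLo, hLs, hLK, hLd⟩ := inv_smooth (isOpen_Dk ρ) hK hi
    (fun p hp => by rw [hd p hp]; exact one_ne_zero)
  refine ⟨K, L, ⟨hK, hi, fun p hp => by rw [← him]; exact mem_image_of_mem K hp, hd⟩, ?_⟩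
  rw [← him]
  refine ⟨hLs, ?_, ?_, ?_⟩
  · rintro _ ⟨p, hp, rfl⟩ _ ⟨p', hp', rfl⟩ h
    rw [hLK p hp, hLK p' hp'] at h
    rw [h]
  · rintro _ ⟨p, hp, rfl⟩
    rw [hLK p hp]
    exact hp
  · rintro _ ⟨p, hp, rfl⟩
    rw [hLd p hp, hd p hp, inv_one]

theorem rect_disc {a b ρ : ℝ} (ha : 0 < a) (hb : 0 < b) (hρ : 0 < ρ)
    (h : Real.pi * ρ ^ 2 = a * b) : ∃ e, Emb e (Ioo 0 a ×ˢ Ioo 0 b) (Dk ρ) := by
  obtain ⟨e, e', -, he'⟩ := disc_rect hρ
  rw [h] at he'
  exact ⟨_, emb_comp (isOpen_Ioo.prod isOpen_Ioo) (isOpen_Ioo.prod isOpen_Ioo) (emb_lin ha hb)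
    he'⟩

end Pool.Agent.H65.FL
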