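import Pool.Agent.H65.FL.Blk
import Pool.Agent.H65.FL.Plb

set_option autoImplicit false

/-!
# Module Cap: capacities of products

`cap_low`: the ball of radius `ρ`, `B = (fun x => ρ • x) '' ball1 m = {y | ∑ ((y j).1² + (y j).2²) < ρ²}`, has `c.val B = ofReal (ρ²) * ofReal π` (`conf`, `val_ball`); `y ∈ B` implies `y j ∈ Dk ρ` for all `j`; `blk` with `a = x` maps `B` into `V` (`c.mono`).
`cap_up`: let `ρ = √((b - a) (t - s) / π)`, `rect_disc` gives `e : (0, b - a) × (0, t - s) → Dk ρ`. The map: translate the coordinate pair `k` by `(-a, -s)`, exchange the coordinate pairs `k` and `0` (a linear symplectic map), apply `e` to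
the coordinate pair `0` (`blk`): a symplectic embedding of `W` into `{y | y 0 ∈ Dk ρ} = (fun x => ρ • x) '' cyl1 m` with the capacity `ρ² π`.
`cap_sh`: the linear map `A z = update (update z k ((z k).1 - (v.1 (z j).1 + v.2 (z j).2), (z k).2)) j (z j + (z k).2 • (-v.2, v.1))` is a symplectic isomorphism (only the blocks `k`, `j` change; expand), so `c.val (A '' W) = c.val W`
(`linear_symp`, `chart_cap`), and `cap_up` for `A '' W`.
`cap_rot`: `z ↦ update z k (-(z k).2, (z k).1)` is a linear symplectic isomorphism.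
-/

namespace Pool.Agent.H65.FL

open Set Metric MeasureTheory
open scoped ENNReal ContDiff
open Pool.Agent.H72.Symp (Sp omega ball1 cyl1 IsSympEmbedding Capacity CapacityChoice
  LocallyPreserves stab)
open Pool.Agent.H36.CSymp (linear_symp chart_cap)

variable {m : ℕ}

variable [NeZero m]

omit [NeZero m] in
private lemma isOpen_ball (ρ : ℝ) :
    IsOpen {y : Sp m | ∑ j, ((y j).1 ^ 2 + (y j).2 ^ 2) < ρ ^ 2} :=
  isOpen_lt (by fun_prop) continuous_const

omit [NeZero m] in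
private lemma ball_eq {ρ : ℝ} (hρ : 0 < ρ) :
    (fun x : Sp m => ρ • x) '' ball1 m = {y | ∑ j, ((y j).1 ^ 2 + (y j).2 ^ 2) < ρ ^ 2} := by
  ext y
  constructor
  · rintro ⟨x, hx, rfl⟩
    have hx' : ∑ j, ((x j).1 ^ 2 + (x j).2 ^ 2) < 1 := hx
    have h1 : ∑ j, (((ρ • x) j).1 ^ 2 + ((ρ • x) j).2 ^ 2)
        = ρ ^ 2 * ∑ j, ((x j).1 ^ 2 + (x j).2 ^ 2) := by
      rw [Finset.mul_sum]
      exact Finset.sum_congr rfl fun j _ => by
        simp only [Pi.smul_apply, Prod.smul_fst, Prod.smul_snd, smul_eq_mul]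
        ring
    show ∑ j, (((ρ • x) j).1 ^ 2 + ((ρ • x) j).2 ^ 2) < ρ ^ 2
    rw [h1]
    have : 0 < ρ ^ 2 := by positivity
    nlinarith
  · intro hy
    have hy' : ∑ j, ((y j).1 ^ 2 + (y j).2 ^ 2) < ρ ^ 2 := hy
    refine ⟨ρ⁻¹ • y, ?_, ?_⟩
    · have h1 : ∑ j, (((ρ⁻¹ • y) j).1 ^ 2 + ((ρ⁻¹ • y) j).2 ^ 2)
          = (ρ ^ 2)⁻¹ * ∑ j, ((y j).1 ^ 2 + (y j).2 ^ 2) := by
        rw [Finset.mul_sum]
        exact Finset.sum_congr rfl fun j _ => by
          simp only [Pi.smul_apply, Prod.smul_fst, Prod.smul_snd, smul_eq_mul]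
          field_simp
      show ∑ j, (((ρ⁻¹ • y) j).1 ^ 2 + ((ρ⁻¹ • y) j).2 ^ 2) < 1
      rw [h1, inv_mul_lt_iff₀ (by positivity), mul_one]
      exact hy'
    · show ρ • ρ⁻¹ • y = y
      rw [smul_smul, mul_inv_cancel₀ hρ.ne', one_smul]

private lemma cyl_eq {ρ : ℝ} (hρ : 0 < ρ) :
    (fun x : Sp m => ρ • x) '' cyl1 m = {y | y 0 ∈ Dk ρ} := by
  ext y
  constructor
  · rintro ⟨x, hx, rfl⟩
    have hx' : (x 0).1 ^ 2 + (x 0).2 ^ 2 < 1 := hx
    show ((ρ • x) 0).1 ^ 2 + ((ρ • x) 0).2 ^ 2 < ρ ^ 2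
    simp only [Pi.smul_apply, Prod.smul_fst, Prod.smul_snd, smul_eq_mul]
    have : 0 < ρ ^ 2 := by positivity
    nlinarith
  · intro hy
    have hy' : (y 0).1 ^ 2 + (y 0).2 ^ 2 < ρ ^ 2 := hy
    refine ⟨ρ⁻¹ • y, ?_, ?_⟩
    · have h1 : ((ρ⁻¹ • y) 0).1 ^ 2 + ((ρ⁻¹ • y) 0).2 ^ 2
          = (ρ ^ 2)⁻¹ * ((y 0).1 ^ 2 + (y 0).2 ^ 2) := by
        simp only [Pi.smul_apply, Prod.smul_fst, Prod.smul_snd, smul_eq_mul]
        field_simp
      show ((ρ⁻¹ • y) 0).1 ^ 2 + ((ρ⁻¹ • y) 0).2 ^ 2 < 1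
      rw [h1, inv_mul_lt_iff₀ (by positivity), mul_one]
      exact hy'
    · show ρ • ρ⁻¹ • y = y
      rw [smul_smul, mul_inv_cancel₀ hρ.ne', one_smul]

omit [NeZero m] in
private lemma isOpen_ball1 : IsOpen (ball1 m) :=
  isOpen_lt (by fun_prop) continuous_const

private lemma isOpen_cyl1 : IsOpen (cyl1 m) :=
  isOpen_lt (by fun_prop) continuous_const

private lemma ball_val (c : Capacity m) {ρ : ℝ} (hρ : 0 < ρ) :
    c.val {y : Sp m | ∑ j, ((y j).1 ^ 2 + (y j).2 ^ 2) < ρ ^ 2}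
      = ENNReal.ofReal (Real.pi * ρ ^ 2) := by
  rw [← ball_eq hρ, c.conf ρ _ hρ isOpen_ball1, c.val_ball,
    ← ENNReal.ofReal_mul (by positivity), mul_comm]

private lemma cyl_val (c : Capacity m) {ρ : ℝ} (hρ : 0 < ρ) :
    c.val {y : Sp m | y 0 ∈ Dk ρ} = ENNReal.ofReal (Real.pi * ρ ^ 2) := by
  rw [← cyl_eq hρ, c.conf ρ _ hρ isOpen_cyl1, c.val_cyl,
    ← ENNReal.ofReal_mul (by positivity), mul_comm]

/-- linear symplectic maps are open and preserve the capacity -/
private lemma lin_cap (c : Capacity m) (L : Sp m →ₗ[ℝ] Sp m)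
    (hL : ∀ u v, omega (L u) (L v) = omega u v) {W : Set (Sp m)} (hW : IsOpen W) :
    IsOpen (L '' W) ∧ c.val (L '' W) = c.val W := by
  have hinj : Function.Injective L :=
    Pool.Agent.H36.CSymp.symp_inj (L := LinearMap.toContinuousLinearMap L) hL
  set A : Sp m ≃L[ℝ] Sp m := (LinearEquiv.ofInjectiveEndo L hinj).toContinuousLinearEquiv with hA
  have hAL : ∀ u, A u = L u := fun u => rfl
  have h1 : L '' W = A '' W := rfl
  rw [h1]
  refine ⟨A.toHomeomorph.isOpenMap W hW, ?_⟩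
  exact chart_cap c isOpen_univ (linear_symp A fun u v => hL u v) (subset_univ W) hW

private lemma disc_val (c : Capacity m) (k : Fin m) {ρ : ℝ} (hρ : 0 < ρ) :
    c.val {y : Sp m | y k ∈ Dk ρ} = ENNReal.ofReal (Real.pi * ρ ^ 2) := by
  have hop : IsOpen {y : Sp m | y k ∈ Dk ρ} := (isOpen_Dk ρ).preimage (continuous_apply k)
  set L : Sp m ≃ₗ[ℝ] Sp m := LinearEquiv.funCongrLeft ℝ (ℝ × ℝ) (Equiv.swap 0 k) with hLdef
  have hLa : ∀ u i, L u i = u (Equiv.swap 0 k i) := fun u i => rfl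
  have h1 := (lin_cap c (L : Sp m →ₗ[ℝ] Sp m) (fun u v => ?_) hop).2
  · rw [← h1, ← cyl_val c hρ]
    congr 1
    ext y
    constructor
    · rintro ⟨x, hx, rfl⟩
      show L x 0 ∈ Dk ρ
      rw [hLa, Equiv.swap_apply_left]
      exact hx
    · intro hy
      refine ⟨L.symm y, ?_, L.apply_symm_apply y⟩
      show L.symm y k ∈ Dk ρ
      have h2 : L (L.symm y) 0 = L.symm y k := by
        rw [hLa, Equiv.swap_apply_left]
      rw [← h2, L.apply_symm_apply]
      exact hy
  · show ∑ j, ((L u j).1 * (L v j).2 - (L u j).2 * (L v j).1) = ∑ j, _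
    simp only [hLa]
    exact Equiv.sum_comp (Equiv.swap 0 k) fun j => (u j).1 * (v j).2 - (u j).2 * (v j).1

theorem cap_low (c : Capacity m) (k : Fin m) {V : Set (Sp m)} (hV : IsOpen V) (x : Sp m) {ρ : ℝ}
    (hρ : 0 < ρ) {e : ℝ × ℝ → ℝ × ℝ} {U : Set (ℝ × ℝ)} (he : Emb e (Dk ρ) U)
    (h : ∀ y : Sp m, y k ∈ U → (∀ j, j ≠ k → y j - x j ∈ Dk ρ) → y ∈ V) :
    ENNReal.ofReal (Real.pi * ρ ^ 2) ≤ c.val V := by
  rw [← ball_val c hρ]
  have hB : ∀ y ∈ {y : Sp m | ∑ j, ((y j).1 ^ 2 + (y j).2 ^ 2) < ρ ^ 2}, ∀ j, y j ∈ Dk ρ := by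
    intro y hy j
    have hy' : ∑ j, ((y j).1 ^ 2 + (y j).2 ^ 2) < ρ ^ 2 := hy
    have h1 : (y j).1 ^ 2 + (y j).2 ^ 2 ≤ ∑ j, ((y j).1 ^ 2 + (y j).2 ^ 2) :=
      Finset.single_le_sum (f := fun j => (y j).1 ^ 2 + (y j).2 ^ 2)
        (fun i _ => by positivity) (Finset.mem_univ j)
    exact lt_of_le_of_lt h1 hy'
  refine c.mono _ _ (isOpen_ball ρ) hV ⟨_, blk (isOpen_Dk ρ) he k x (isOpen_ball ρ)
    (fun y hy => hB y hy k) fun y hy => ?_⟩
  refine h _ ?_ fun j hj => ?_
  · rw [Function.update_self]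
    exact he.maps (hB y hy k)
  · rw [Function.update_of_ne hj, Pi.add_apply, add_sub_cancel_left]
    exact hB y hy j

theorem cap_up (c : Capacity m) (k : Fin m) {W : Set (Sp m)} (hW : IsOpen W) {a b s t : ℝ}
    (hab : a < b) (hst : s < t) (h : ∀ z ∈ W, z k ∈ Ioo a b ×ˢ Ioo s t) :
    c.val W ≤ ENNReal.ofReal ((b - a) * (t - s)) := by
  have hpos : 0 < (b - a) * (t - s) / Real.pi :=
    div_pos (mul_pos (by linarith) (by linarith)) Real.pi_pos
  set ρ : ℝ := √((b - a) * (t - s) / Real.pi) with hρdef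
  have hρ : 0 < ρ := Real.sqrt_pos.2 hpos
  have hρ2 : Real.pi * ρ ^ 2 = (b - a) * (t - s) := by
    rw [hρdef, Real.sq_sqrt hpos.le]
    field_simp
  obtain ⟨e, he⟩ := rect_disc (sub_pos.2 hab) (sub_pos.2 hst) hρ hρ2
  have hmem : ∀ p ∈ Ioo a b ×ˢ Ioo s t, p - (a, s) ∈ Ioo 0 (b - a) ×ˢ Ioo 0 (t - s) := by
    rintro p ⟨h1, h2⟩
    refine ⟨⟨?_, ?_⟩, ⟨?_, ?_⟩⟩
    · show 0 < p.1 - a
      linarith [h1.1]
    · show p.1 - a < b - a
      linarith [h1.2]
    · show 0 < p.2 - s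
      linarith [h2.1]
    · show p.2 - s < t - s
      linarith [h2.2]
  have he' : Emb (fun p => e (p - (a, s))) (Ioo a b ×ˢ Ioo s t) (Dk ρ) := by
    refine ⟨?_, ?_, ?_, ?_⟩
    · exact he.smooth.comp (by fun_prop) fun p hp => hmem p hp
    · intro p hp q hq hpq
      exact sub_left_injective (he.inj (hmem p hp) (hmem q hq) hpq)
    · intro p hp
      exact he.maps (hmem p hp)
    · intro p hp
      rw [fderiv_comp_sub]
      exact he.det _ (hmem p hp)
  rw [← hρ2, ← disc_val c k hρ]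
  refine c.mono _ _ hW ((isOpen_Dk ρ).preimage (continuous_apply k))
    ⟨_, blk (isOpen_Ioo.prod isOpen_Ioo) he' k 0 hW h fun y hy => ?_⟩
  show Function.update ((0 : Sp m) + y) k (e (y k - (a, s))) k ∈ Dk ρ
  rw [Function.update_self]
  exact he'.maps (h y hy)

theorem cap_sh (c : Capacity m) {k j : Fin m} (hkj : k ≠ j) (v : ℝ × ℝ) {W : Set (Sp m)}
    (hW : IsOpen W) {a b s t : ℝ} (hab : a < b) (hst : s < t)
    (h : ∀ z ∈ W, (z k).1 - (v.1 * (z j).1 + v.2 * (z j).2) ∈ Ioo a b ∧ (z k).2 ∈ Ioo s t) :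
    c.val W ≤ ENNReal.ofReal ((b - a) * (t - s)) := by
  set f : Sp m → Sp m := fun z i =>
    if i = k then ((z k).1 - (v.1 * (z j).1 + v.2 * (z j).2), (z k).2)
    else if i = j then ((z j).1 - v.2 * (z k).2, (z j).2 + v.1 * (z k).2) else z i with hf
  set L : Sp m →ₗ[ℝ] Sp m :=
    { toFun := f
      map_add' := fun x y => by
        funext i
        simp only [hf, Pi.add_apply, Prod.fst_add, Prod.snd_add]
        split_ifs
        · exact Prod.ext (by simp only [Prod.fst_add]; ring) (by simp only [Prod.snd_add])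
        · exact Prod.ext (by simp only [Prod.fst_add]; ring) (by simp only [Prod.snd_add]; ring)
        · rfl
      map_smul' := fun r x => by
        funext i
        simp only [hf, Pi.smul_apply, Prod.smul_fst, Prod.smul_snd, smul_eq_mul, RingHom.id_apply]
        split_ifs
        · exact Prod.ext (by simp only [Prod.smul_fst, smul_eq_mul]; ring)
            (by simp only [Prod.smul_snd, smul_eq_mul])
        · exact Prod.ext (by simp only [Prod.smul_fst, smul_eq_mul]; ring)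
            (by simp only [Prod.smul_snd, smul_eq_mul]; ring)
        · rfl } with hL
  have hLf : ∀ z, L z = f z := fun z => rfl
  have homega : ∀ x y, omega (L x) (L y) = omega x y := by
    intro x y
    set D : ℝ := -(v.1 * (x j).1 + v.2 * (x j).2) * (y k).2
      + (x k).2 * (v.1 * (y j).1 + v.2 * (y j).2) with hD
    have hterm : ∀ i, (L x i).1 * (L y i).2 - (L x i).2 * (L y i).1
        = ((x i).1 * (y i).2 - (x i).2 * (y i).1) + (if i = k then D else 0)
          + (if i = j then -D else 0) := by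
      intro i
      rw [hLf, hLf]
      simp only [hf]
      rcases eq_or_ne i k with rfl | hik
      · rw [if_pos rfl, if_pos rfl, if_pos rfl, if_neg hkj, hD]
        ring
      · rcases eq_or_ne i j with rfl | hij
        · rw [if_neg hik, if_neg hik, if_neg hik, if_pos rfl, if_pos rfl, if_pos rfl, hD]
          ring
        · rw [if_neg hik, if_neg hik, if_neg hik, if_neg hij, if_neg hij, if_neg hij]
          ring
    show ∑ i, ((L x i).1 * (L y i).2 - (L x i).2 * (L y i).1) = ∑ i, _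
    rw [Finset.sum_congr rfl fun i _ => hterm i, Finset.sum_add_distrib, Finset.sum_add_distrib]
    simp
  have h1 := lin_cap c L homega hW
  rw [← h1.2]
  refine cap_up c k h1.1 hab hst ?_
  rintro _ ⟨z, hz, rfl⟩
  have h2 : L z k = ((z k).1 - (v.1 * (z j).1 + v.2 * (z j).2), (z k).2) := by
    rw [hLf]
    simp only [hf, if_pos]
  rw [h2]
  exact h z hz

theorem cap_rot (c : Capacity m) (k : Fin m) {W : Set (Sp m)} (hW : IsOpen W) :
    IsOpen ((fun z => Function.update z k (-(z k).2, (z k).1)) '' W) ∧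
      c.val ((fun z => Function.update z k (-(z k).2, (z k).1)) '' W) = c.val W := by
  set f : Sp m → Sp m := fun z => Function.update z k (-(z k).2, (z k).1) with hf
  set L : Sp m →ₗ[ℝ] Sp m :=
    { toFun := f
      map_add' := fun x y => by
        funext i
        rcases eq_or_ne i k with rfl | hik
        · simp only [hf, Pi.add_apply, Function.update_self, Prod.fst_add, Prod.snd_add]
          exact Prod.ext (by simp only [Prod.fst_add]; ring) (by simp only [Prod.snd_add])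
        · simp only [hf, Pi.add_apply, Function.update_of_ne hik]
      map_smul' := fun r x => by
        funext i
        rcases eq_or_ne i k with rfl | hik
        · simp only [hf, Pi.smul_apply, Function.update_self, Prod.smul_fst, Prod.smul_snd,
            smul_eq_mul, RingHom.id_apply]
          exact Prod.ext (by simp only [Prod.smul_fst, smul_eq_mul]; ring)
            (by simp only [Prod.smul_snd, smul_eq_mul])
        · simp only [hf, Pi.smul_apply, Function.update_of_ne hik, RingHom.id_apply] } with hL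
  have hLf : ∀ z, L z = f z := fun z => rfl
  refine lin_cap c L (fun x y => ?_) hW
  show ∑ i, ((L x i).1 * (L y i).2 - (L x i).2 * (L y i).1) = ∑ i, _
  refine Finset.sum_congr rfl fun i _ => ?_
  rw [hLf, hLf]
  rcases eq_or_ne i k with rfl | hik
  · simp only [hf, Function.update_self]
    ring
  · simp only [hf, Function.update_of_ne hik]

end Pool.Agent.H65.FL
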