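import Pool.Agent.H65.FL.PDefs

set_option autoImplicit false

/-!
# Module Msr: open embeddings that do not decrease the area

PROOF. `μ E = volume (B ∩ f ⁻¹' E)` is a finite measure on the plane (the image of `volume.restrict B` under `f`, or under the measurable function `B.indicator f`/`Set.piecewise`; `f` is `AEMeasurable` for the restricted measure:
`ContinuousOn.aemeasurable`). For small closed squares `closedBall p s ⊆ f '' B`: `μ (closedBall p s) ≤ volume (closedBall p s)` (compare with `ball p s'`, `s' ↓ s`, `ball p s' ⊆ f '' B` for `s'` near `s` by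
compactness; the volume of `ball p s'` is `ofReal ((2 s')²)`; `le_of_forall_gt`/limits). Let `G ⊆ f '' B` be open. `Besicovitch.exists_disjoint_closedBall_covering_ae μ` (fine covering of `G` by closed balls of radius
`< s₀` contained in `G`) gives countably many disjoint closed balls in `G` which cover `μ`-almost all of `G`: `μ G ≤ ∑ μ (closedBall) ≤ ∑ volume (closedBall) ≤ volume G` (`measure_biUnion`). For `E ⊆ B` measurable, `f '' E` is
measurable (`MeasurableSet.image_of_continuousOn_injOn`); for every open `G ⊇ f '' E` (`Set.exists_isOpen_le_add` or `Set.measure_eq_iInf_isOpen`): `volume E ≤ μ (f '' E) ≤ μ (G ∩ f '' B) ≤ volume G`.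
-/

namespace Pool.Agent.H65.FL

open Set Metric MeasureTheory
open scoped ENNReal ContDiff

lemma msr_vol (p : ℝ × ℝ) (s : ℝ) : volume (ball p s) = ENNReal.ofReal (2 * s) * ENNReal.ofReal (2 * s) := by
  rw [← Prod.mk.eta (p := p), ← ball_prod_same, Measure.volume_eq_prod, Measure.prod_prod, Real.volume_ball,
    Real.volume_ball]

lemma msr_cvol (p : ℝ × ℝ) (s : ℝ) :
    volume (closedBall p s) = ENNReal.ofReal (2 * s) * ENNReal.ofReal (2 * s) := by
  rw [← Prod.mk.eta (p := p), ← closedBall_prod_same, Measure.volume_eq_prod, Measure.prod_prod,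
    Real.volume_closedBall, Real.volume_closedBall]

theorem msr {f : ℝ × ℝ → ℝ × ℝ} {B : Set (ℝ × ℝ)} (hf : OE f B) (hfin : volume B ≠ ⊤) {s₀ : ℝ}
    (hs₀ : 0 < s₀) (h : ∀ (p : ℝ × ℝ) (s : ℝ), 0 < s → s < s₀ → ball p s ⊆ f '' B →
      volume (B ∩ f ⁻¹' ball p s) ≤ volume (ball p s)) :
    ∀ E ⊆ B, MeasurableSet E → volume E ≤ volume (f '' E) := by
  have hBm : MeasurableSet B := hf.isOpen.measurableSet
  have hΩ : IsOpen (f '' B) := hf.opn B subset_rfl hf.isOpen
  have hfm : AEMeasurable f (volume.restrict B) := hf.cont.aemeasurable hBm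
  haveI : IsFiniteMeasure (volume.restrict B) := isFiniteMeasure_restrict.2 hfin
  set μ : Measure (ℝ × ℝ) := (volume.restrict B).map f with hμ
  haveI : IsFiniteMeasure μ := Measure.isFiniteMeasure_map _ _
  have hμE : ∀ E : Set (ℝ × ℝ), MeasurableSet E → μ E = volume (B ∩ f ⁻¹' E) := by
    intro E hE
    rw [hμ, Measure.map_apply_of_aemeasurable hfm hE, Measure.restrict_apply' hBm, inter_comm]
  -- closed squares
  have hcl : ∀ (p : ℝ × ℝ) (s : ℝ), 0 < s → s < s₀ → closedBall p s ⊆ f '' B →
      μ (closedBall p s) ≤ volume (closedBall p s) := by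
    intro p s hs hs1 hsub
    obtain ⟨δ, hδ, hth⟩ := (isCompact_closedBall p s).exists_thickening_subset_open hΩ hsub
    rw [thickening_closedBall hδ hs.le] at hth
    have hlim : Filter.Tendsto (fun s' : ℝ => ENNReal.ofReal (2 * s') * ENNReal.ofReal (2 * s'))
        (nhdsWithin s (Ioi s)) (nhds (ENNReal.ofReal (2 * s) * ENNReal.ofReal (2 * s))) := by
      have h1 : Filter.Tendsto (fun s' : ℝ => ENNReal.ofReal (2 * s')) (nhdsWithin s (Ioi s))
          (nhds (ENNReal.ofReal (2 * s))) := by
        apply (ENNReal.continuous_ofReal.comp (continuous_const.mul continuous_id)).continuousAt.tendsto.mono_left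
        exact nhdsWithin_le_nhds
      exact ENNReal.Tendsto.mul h1 (Or.inr ENNReal.ofReal_ne_top) h1 (Or.inr ENNReal.ofReal_ne_top)
    rw [msr_cvol]
    refine ge_of_tendsto hlim ?_
    have hm : s < min (δ + s) s₀ := lt_min (by linarith) hs1
    filter_upwards [Ioo_mem_nhdsGT hm] with s' hs'
    have h2 : ball p s' ⊆ f '' B := (ball_subset_ball (hs'.2.le.trans (min_le_left _ _))).trans hth
    have h3 := h p s' (hs.trans hs'.1) (hs'.2.trans_le (min_le_right _ _)) h2
    calc μ (closedBall p s) ≤ μ (ball p s') := measure_mono (closedBall_subset_ball hs'.1)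
      _ = volume (B ∩ f ⁻¹' ball p s') := hμE _ measurableSet_ball
      _ ≤ volume (ball p s') := h3
      _ = _ := msr_vol p s'
  -- open sets
  have hop : ∀ G : Set (ℝ × ℝ), IsOpen G → G ⊆ f '' B → μ G ≤ volume G := by
    intro G hG hGs
    obtain ⟨t, r, htc, htG, hr, hcov, hdis⟩ := Besicovitch.exists_disjoint_closedBall_covering_ae μ
      (fun x => {r | closedBall x r ⊆ G}) G (by
        intro x hx δ hδ
        obtain ⟨ε, hε, hb⟩ := nhds_basis_closedBall.mem_iff.1 (hG.mem_nhds hx)
        refine ⟨min ε (δ / 2), ?_, lt_min hε (by linarith), (min_le_right _ _).trans_lt (by linarith)⟩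
        exact (closedBall_subset_closedBall (min_le_left _ _)).trans hb) (fun _ => s₀) (fun _ _ => hs₀)
    have hU : (⋃ x ∈ t, closedBall x (r x)) ⊆ G := iUnion₂_subset fun x hx => (hr x hx).1
    calc μ G ≤ μ ((G \ ⋃ x ∈ t, closedBall x (r x)) ∪ ⋃ x ∈ t, closedBall x (r x)) := by
            apply measure_mono
            rw [diff_union_self]
            exact subset_union_left
      _ ≤ μ (G \ ⋃ x ∈ t, closedBall x (r x)) + μ (⋃ x ∈ t, closedBall x (r x)) := measure_union_le _ _
      _ = μ (⋃ x ∈ t, closedBall x (r x)) := by rw [hcov, zero_add]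
      _ = ∑' x : t, μ (closedBall (x : ℝ × ℝ) (r x)) :=
            measure_biUnion htc hdis fun x _ => measurableSet_closedBall
      _ ≤ ∑' x : t, volume (closedBall (x : ℝ × ℝ) (r x)) := by
            refine ENNReal.tsum_le_tsum fun x => ?_
            have hx := hr x x.2
            exact hcl x (r x) hx.2.1 hx.2.2 (subset_trans hx.1 hGs)
      _ = volume (⋃ x ∈ t, closedBall x (r x)) :=
            (measure_biUnion htc hdis fun x _ => measurableSet_closedBall).symm
      _ ≤ volume G := measure_mono hU
  intro E hEB _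
  rw [Set.measure_eq_iInf_isOpen (f '' E) volume]
  refine le_iInf₂ fun U hU => le_iInf fun hUo => ?_
  have hG : IsOpen (U ∩ f '' B) := hUo.inter hΩ
  calc volume E ≤ volume (B ∩ f ⁻¹' (U ∩ f '' B)) :=
        measure_mono fun x hx => ⟨hEB hx, hU (mem_image_of_mem f hx), mem_image_of_mem f (hEB hx)⟩
    _ = μ (U ∩ f '' B) := (hμE _ hG.measurableSet).symm
    _ ≤ volume (U ∩ f '' B) := hop _ hG inter_subset_right
    _ ≤ volume U := measure_mono inter_subset_left

end Pool.Agent.H65.FL
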