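import Pool.Agent.H65.FL.RMb

set_option autoImplicit false

/-!
# Module RMc: the Riemann mapping theorem

For `w ∈ ball 0 1` let `mob w z = (z - w) / (1 - conj w * z)`.
`mob_good`: `mob w` is a bijection of the unit disc with inverse `mob (-w)` and derivative `(1 - ‖w‖²) / (1 - conj w * z)²`, so it is `Good (ball 0 1)`; `deriv (mob w) w = 1 / (1 - ‖w‖²)`.
(For the values in the disc: `1 - ‖mob w z‖² = (1 - ‖w‖²) (1 - ‖z‖²) / ‖1 - conj w z‖²`; it may be convenient to use `Complex.normSq` or the squares of the norms.)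
`rmt`. PROOF. `U` is nonempty, open, connected (`IsSimplyConnected`), and there is a `Good U f` (`Complex.exists_mapsTo_unitBall_injOn_deriv_ne_zero`; differentiability from the nonvanishing derivative:
`differentiableAt_of_deriv_ne_zero`). Fix `a ∈ U` and let `f` be `extremal`. (1) `f a = 0`: otherwise `g = mob (f a) ∘ f` is good and `‖deriv g a‖ = ‖deriv f a‖ / (1 - ‖f a‖²) > ‖deriv f a‖`. (2) `f '' U = ball 0 1`:
let `w` in the ball be outside the image. `F = mob w ∘ f` is good and has no zero in `U`; `U` is simply connected, so there is a continuous `s` on `U` with `s ^ 2 = F` (`exists_continuousOn_pow_eq`, see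
Mathlib/Analysis/Complex/BranchLogRoot.lean and the proofs in Mathlib/Analysis/Complex/RiemannMapping.lean), holomorphic with `deriv s z = deriv F z / (2 s z) ≠ 0` (`HasStrictDerivAt.of_local_left_inverse` or: locally
`s` is a branch of the root), injective, values in the ball. `g = mob (s a) ∘ s` is good, `g a = 0`. Let `G = mob (-w) ∘ (· ^ 2) ∘ mob (-s a)` on the unit disc: `f = G ∘ g` on `U`, `G` maps the disc to the disc,
`G 0 = f a = 0`, so `‖deriv G 0‖ ≤ 1` (Schwarz: `Complex.norm_deriv_le_one_of_mapsTo_ball`), with equality only if `G` is linear (`Complex.affine_of_mapsTo_ball_of_norm_dslope_eq_div` at the centre, `dslope_same`), but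
`G` is not injective (`mob (-s a)` is a bijection of the disc and `(· ^ 2)` takes the same value at `1/2` and `-1/2`). So `‖deriv f a‖ = ‖deriv G 0‖ ‖deriv g a‖ < ‖deriv g a‖`, contradiction (`deriv g a ≠ 0`). (3) Let
`h` be the inverse of `f` (`Function.invFunOn f U`); it is continuous and differentiable on the ball with `deriv h (f z) = (deriv f z)⁻¹` (`f` is open; `HasStrictDerivAt.of_local_left_inverse` or
`OpenPartialHomeomorph`).
-/

namespace Pool.Agent.H65.FL

open Set Metric Filter Topology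
open scoped ComplexConjugate Pointwise

/-- The first step of the proof in `Mathlib/Analysis/Complex/RiemannMapping.lean` (Yury Kudryashov),
copied from there, where it is private. -/
private theorem rm_step1 {U : Set ℂ} (hUo : IsOpen U)
    (hUc : IsSimplyConnected U) (hU : U ≠ univ) :
    ∃ f : ℂ → ℂ, Function.Injective f ∧ ¬Dense (f '' U) ∧ ∀ z ∈ U, deriv f z ≠ 0 := by
  wlog hU₀ : 0 ∉ U
  · rw [ne_univ_iff_exists_notMem] at hU
    rcases hU with ⟨a, ha⟩
    specialize this (hUo.vadd (-a)) (by simpa) (by simp [hU])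
      (by simpa [mem_vadd_set_iff_neg_vadd_mem])
    rcases this with ⟨f, hf_inj, hf_dense, hdf⟩
    refine ⟨f ∘ (-a + ·), hf_inj.comp (add_right_injective (-a)), ?_, fun z hz ↦ ?_⟩
    · simpa only [← image_vadd, Set.image_image] using! hf_dense
    · simpa [Function.comp_def, deriv_comp_const_add] using hdf (-a + z) (mapsTo_image _ _ hz)
  rcases Complex.exists_continuousOn_pow_eq hUc hUo continuousOn_id (by rwa [image_id])
    two_ne_zero with ⟨f, hfc, hf_inv⟩
  replace hf_inv : Function.LeftInverse (· ^ 2) f := hf_inv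
  have hf₀ : ∀ z ∈ U, f z ≠ 0 := by
    intro z hz hfz
    simpa [hfz, (ne_of_mem_of_not_mem hz hU₀).symm] using hf_inv z
  have hdf : ∀ z ∈ U, HasStrictDerivAt f (2 * f z)⁻¹ z := by
    intro z hz
    apply HasStrictDerivAt.of_local_left_inverse
    · exact hfc.continuousAt <| hUo.mem_nhds hz
    · simpa using hasStrictDerivAt_pow 2 (f z)
    · simpa using hf₀ z hz
    · exact .of_forall hf_inv
  refine ⟨f, hf_inv.injective, ?_, fun z hz ↦ ?_⟩
  · simp only [Dense, not_forall, mem_closure_iff_frequently, not_frequently]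
    rcases hUc.nonempty with ⟨x, hx⟩
    use -f x
    have : f '' U ∈ 𝓝 (f x) := by
      rw [← (hdf x hx).map_nhds_eq (by simpa using hf₀ x hx)]
      exact Filter.image_mem_map <| hUo.mem_nhds hx
    rw [nhds_neg, eventually_neg]
    filter_upwards [this]
    rintro _ ⟨a, ha, rfl⟩ ⟨b, hb, hab⟩
    obtain rfl : a = b := by
      rw [← hf_inv b, hab]
      simp [hf_inv a]
    refine hf₀ a ha ?_
    linear_combination hab / 2
  · simpa [(hdf z hz).hasDerivAt.deriv] using hf₀ z hz

/-- The second step of the proof in `Mathlib/Analysis/Complex/RiemannMapping.lean` (Yury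
Kudryashov), copied from there, where it is private. -/
private theorem rm_step2 {U : Set ℂ} (hUo : IsOpen U)
    (hUc : IsSimplyConnected U) (hU : U ≠ univ) :
    ∃ f : ℂ → ℂ, MapsTo f U (ball 0 1) ∧ InjOn f U ∧ ∀ z ∈ U, deriv f z ≠ 0 := by
  rcases rm_step1 hUo hUc hU with ⟨f, hf_inj, hfd, hdf⟩
  obtain ⟨x, ε, hε₀, hε⟩ : ∃ (x : ℂ) (ε : ℝ), 0 < ε ∧ ∀ a ∈ U, ε < dist (f a) x := by
    simpa [Dense, mem_closure_iff_nhds_basis Metric.nhds_basis_closedBall] using hfd
  have hfx : ∀ z ∈ U, f z ≠ x := fun z hz ↦ by simpa using hε₀.trans (hε z hz)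
  use fun z ↦ ε / (f z - x)
  refine ⟨?mapsTo, ?injOn, ?deriv⟩
  case mapsTo =>
    intro z hz
    rw [mem_ball_zero_iff, norm_div, Complex.norm_real, Real.norm_of_nonneg hε₀.le, div_lt_one₀]
    · simpa [dist_eq_norm] using hε z hz
    · simpa [sub_eq_zero] using hfx z hz
  case injOn =>
    intro z hz w hw heq
    simpa [div_eq_mul_inv, hε₀.ne', hf_inj.eq_iff] using heq
  case deriv =>
    intro z hz
    have hdz : DifferentiableAt ℂ f z := differentiableAt_of_deriv_ne_zero (hdf z hz)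
    rw [(hasDerivAt_const _ _).fun_div (hdz.hasDerivAt.sub_const _) _ |>.deriv] <;>
      simp [*, ne_of_gt, sub_eq_zero]

/-- the automorphism of the unit disc which maps `w` to `0` -/
private noncomputable def mob (w z : ℂ) : ℂ := (z - w) / (1 - conj w * z)

private theorem mob_den {w z : ℂ} (hw : ‖w‖ < 1) (hz : ‖z‖ < 1) : 1 - conj w * z ≠ 0 := by
  intro h
  have h1 : conj w * z = 1 := by linear_combination -h
  have h2 : ‖w‖ * ‖z‖ = 1 := by
    have := congrArg norm h1
    simpa using this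
  nlinarith [norm_nonneg w, norm_nonneg z]

private theorem mob_lt {w z : ℂ} (hw : ‖w‖ < 1) (hz : ‖z‖ < 1) : ‖mob w z‖ < 1 := by
  have hd := mob_den hw hz
  have hk : Complex.normSq (1 - conj w * z) - Complex.normSq (z - w)
      = (1 - Complex.normSq w) * (1 - Complex.normSq z) := by
    simp only [Complex.normSq_apply, Complex.sub_re, Complex.sub_im, Complex.mul_re,
      Complex.mul_im, Complex.one_re, Complex.one_im, Complex.conj_re, Complex.conj_im]
    ring
  have hw2 : Complex.normSq w < 1 := by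
    rw [Complex.normSq_eq_norm_sq]; nlinarith [norm_nonneg w]
  have hz2 : Complex.normSq z < 1 := by
    rw [Complex.normSq_eq_norm_sq]; nlinarith [norm_nonneg z]
  rw [mob, norm_div, div_lt_one (norm_pos_iff.mpr hd)]
  have h3 : Complex.normSq (z - w) < Complex.normSq (1 - conj w * z) := by
    nlinarith [mul_pos (sub_pos.2 hw2) (sub_pos.2 hz2)]
  rw [Complex.normSq_eq_norm_sq, Complex.normSq_eq_norm_sq] at h3
  exact lt_of_pow_lt_pow_left₀ 2 (norm_nonneg _) h3

private theorem mob_inv {w z : ℂ} (hw : ‖w‖ < 1) (hz : ‖z‖ < 1) : mob (-w) (mob w z) = z := by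
  have hd := mob_den hw hz
  have hd2 : 1 - conj (-w) * mob w z ≠ 0 := mob_den (by simpa using hw) (mob_lt hw hz)
  have e : mob w z * (1 - conj w * z) = z - w := by rw [mob]; exact div_mul_cancel₀ _ hd
  have e2 : mob (-w) (mob w z) * (1 - conj (-w) * mob w z) = mob w z - -w :=
    div_mul_cancel₀ _ hd2
  apply mul_right_cancel₀ hd2
  rw [e2]
  apply mul_right_cancel₀ hd
  simp only [map_neg]
  linear_combination (1 - z * conj w) * e

private theorem mob_hasDerivAt {w z : ℂ} (hw : ‖w‖ < 1) (hz : ‖z‖ < 1) :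
    HasDerivAt (mob w) ((1 - conj w * w) / (1 - conj w * z) ^ 2) z := by
  have hd := mob_den hw hz
  have h1 : HasDerivAt (fun z : ℂ => z - w) 1 z := (hasDerivAt_id z).sub_const w
  have h2 : HasDerivAt (fun z : ℂ => 1 - conj w * z) (-(conj w)) z := by
    simpa using ((hasDerivAt_id z).const_mul (conj w)).const_sub 1
  have h3 := h1.fun_div h2 hd
  have h4 : (1 * (1 - conj w * z) - (z - w) * -(conj w)) / (1 - conj w * z) ^ 2
      = (1 - conj w * w) / (1 - conj w * z) ^ 2 := by
    congr 1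
    ring
  rw [h4] at h3
  exact h3

private theorem mob_comp {U : Set ℂ} (hU : IsOpen U) {f : ℂ → ℂ} (hf : Good U f) {w : ℂ}
    (hw : ‖w‖ < 1) : Good U (fun z => mob w (f z)) ∧ ∀ z ∈ U,
      HasDerivAt (fun z => mob w (f z))
        ((1 - conj w * w) / (1 - conj w * f z) ^ 2 * deriv f z) z := by
  have hd : ∀ z ∈ U, HasDerivAt (fun z => mob w (f z))
      ((1 - conj w * w) / (1 - conj w * f z) ^ 2 * deriv f z) z := by
    intro z hz
    have h1 := mob_hasDerivAt hw (mem_ball_zero_iff.1 (hf.maps hz))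
    have h2 : HasDerivAt f (deriv f z) z :=
      ((hf.diff z hz).differentiableAt (hU.mem_nhds hz)).hasDerivAt
    exact h1.comp z h2
  refine ⟨⟨fun z hz => (hd z hz).differentiableAt.differentiableWithinAt, ?_, ?_, ?_⟩, hd⟩
  · intro x hx y hy hxy
    apply hf.inj hx hy
    have hx1 := mem_ball_zero_iff.1 (hf.maps hx)
    have hy1 := mem_ball_zero_iff.1 (hf.maps hy)
    have h3 : mob (-w) (mob w (f x)) = mob (-w) (mob w (f y)) := congrArg (mob (-w)) hxy
    rwa [mob_inv hw hx1, mob_inv hw hy1] at h3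
  · intro z hz
    exact mem_ball_zero_iff.2 (mob_lt hw (mem_ball_zero_iff.1 (hf.maps hz)))
  · intro z hz
    rw [(hd z hz).deriv]
    exact mul_ne_zero (div_ne_zero (mob_den hw hw)
      (pow_ne_zero 2 (mob_den hw (mem_ball_zero_iff.1 (hf.maps hz))))) (hf.deriv_ne z hz)

private theorem strict {U : Set ℂ} (hU : IsOpen U) {f : ℂ → ℂ} (hf : Good U f) {z : ℂ} (hz : z ∈ U) :
    HasStrictDerivAt f (deriv f z) z := by
  have ha : AnalyticAt ℂ f z := hf.diff.analyticAt (hU.mem_nhds hz)
  exact ha.hasStrictDerivAt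

/-- a branch of the root of a good function without zeros is good -/
private theorem root_good {U : Set ℂ} (hU : IsOpen U) {F s : ℂ → ℂ} (hF : Good U F)
    (h0 : ∀ z ∈ U, F z ≠ 0) (hc : ContinuousOn s U) (hs : ∀ z, s z ^ 2 = F z) : Good U s := by
  have hs0 : ∀ z ∈ U, s z ≠ 0 := by
    intro z hz h
    apply h0 z hz
    rw [← hs z, h]
    simp
  have hd : ∀ z ∈ U, HasDerivAt s ((2 * s z)⁻¹ * deriv F z) z := by
    intro z hz
    have hq : HasStrictDerivAt (fun y : ℂ => y ^ 2) (2 * s z) (s z) := by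
      simpa using hasStrictDerivAt_pow 2 (s z)
    have hne : (2 * s z) ≠ 0 := mul_ne_zero two_ne_zero (hs0 z hz)
    have h1 := hq.eventually_left_inverse hne
    have h2 := (hq.to_localInverse hne).hasDerivAt
    have h3 : HasDerivAt F (deriv F z) z :=
      ((hF.diff z hz).differentiableAt (hU.mem_nhds hz)).hasDerivAt
    rw [hs z] at h2
    have h5 := h2.comp z h3
    refine h5.congr_of_eventuallyEq ?_
    have h6 : ContinuousAt s z := hc.continuousAt (hU.mem_nhds hz)
    filter_upwards [h6.eventually h1] with y hy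
    rw [hs y] at hy
    exact hy.symm
  refine ⟨fun z hz => (hd z hz).differentiableAt.differentiableWithinAt, ?_, ?_, ?_⟩
  · intro x hx y hy hxy
    apply hF.inj hx hy
    rw [← hs x, ← hs y, hxy]
  · intro z hz
    rw [mem_ball_zero_iff]
    have h1 := mem_ball_zero_iff.1 (hF.maps hz)
    rw [← hs z, norm_pow] at h1
    by_contra h2
    push Not at h2
    nlinarith
  · intro z hz
    rw [(hd z hz).deriv]
    exact mul_ne_zero (inv_ne_zero (mul_ne_zero two_ne_zero (hs0 z hz))) (hF.deriv_ne z hz)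

private theorem mob_self (w : ℂ) : mob w w = 0 := by simp [mob]

/-- the map of the disc which undoes the construction of `surj_aux` is a strict contraction at `0` -/
private theorem contraction {w b : ℂ} (hw : ‖w‖ < 1) (hb : ‖b‖ < 1) {G : ℂ → ℂ}
    (hG : ∀ z, G z = mob (-w) (mob (-b) z ^ 2)) (hG0 : G 0 = 0) :
    DifferentiableOn ℂ G (ball 0 1) ∧ ‖deriv G 0‖ < 1 := by
  have hw' : ‖-w‖ < 1 := by simpa using hw
  have hb' : ‖-b‖ < 1 := by simpa using hb
  have hsq : ∀ z : ℂ, ‖z‖ < 1 → ‖mob (-b) z ^ 2‖ < 1 := by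
    intro z hz
    have h1 := mob_lt hb' hz
    rw [norm_pow]
    nlinarith [norm_nonneg (mob (-b) z)]
  have hd : DifferentiableOn ℂ G (ball 0 1) := by
    intro z hz
    have hz1 := mem_ball_zero_iff.1 hz
    have h1 : DifferentiableAt ℂ (mob (-b)) z := (mob_hasDerivAt hb' hz1).differentiableAt
    have h2 : DifferentiableAt ℂ (mob (-w)) (mob (-b) z ^ 2) :=
      (mob_hasDerivAt hw' (hsq z hz1)).differentiableAt
    have h3 : DifferentiableAt ℂ (fun z => mob (-b) z ^ 2) z := h1.pow 2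
    have h4 : DifferentiableAt ℂ (mob (-w) ∘ fun z => mob (-b) z ^ 2) z :=
      DifferentiableAt.comp z h2 h3
    have h5 : G = fun z => mob (-w) (mob (-b) z ^ 2) := funext hG
    rw [h5]
    exact h4.differentiableWithinAt
  have hm : MapsTo G (ball 0 1) (closedBall (G 0) 1) := by
    intro z hz
    rw [hG0, mem_closedBall_zero_iff, hG z]
    exact (mob_lt hw' (hsq z (mem_ball_zero_iff.1 hz))).le
  refine ⟨hd, lt_of_le_of_ne (Complex.norm_deriv_le_one_of_mapsTo_ball hd hm one_pos) ?_⟩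
  intro h1
  have h2 := Complex.affine_of_mapsTo_ball_of_norm_dslope_eq_div hd hm
    (mem_ball_self one_pos) (by rw [dslope_same]; simpa using h1)
  have hne : deriv G 0 ≠ 0 := by
    intro h3
    rw [h3] at h1
    simp at h1
  have hhalf : ‖(1 / 2 : ℂ)‖ < 1 := by norm_num
  have hhalf' : ‖(-(1 / 2) : ℂ)‖ < 1 := by norm_num
  have e1 : mob (-b) (mob b (1 / 2)) = 1 / 2 := mob_inv hb hhalf
  have e2 : mob (-b) (mob b (-(1 / 2))) = -(1 / 2) := mob_inv hb hhalf'
  have e3 : G (mob b (1 / 2)) = G (mob b (-(1 / 2))) := by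
    rw [hG, hG, e1, e2]
    norm_num
  rw [h2 (mem_ball_zero_iff.2 (mob_lt hb hhalf)), h2 (mem_ball_zero_iff.2 (mob_lt hb hhalf'))]
    at e3
  simp only [hG0, dslope_same, sub_zero, zero_add, smul_eq_mul] at e3
  have e4 : mob b (1 / 2) = mob b (-(1 / 2)) := mul_right_cancel₀ hne e3
  rw [e4] at e1
  rw [e1] at e2
  norm_num at e2

private theorem surj_aux {U : Set ℂ} (hU : IsOpen U) (hs : IsSimplyConnected U) {a : ℂ} (ha : a ∈ U)
    {f : ℂ → ℂ} (hf : Good U f) (hmax : ∀ g, Good U g → ‖deriv g a‖ ≤ ‖deriv f a‖)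
    (hfa : f a = 0) : f '' U = ball 0 1 := by
  apply Subset.antisymm (image_subset_iff.2 hf.maps)
  intro w hw
  by_contra hnot
  have hw1 := mem_ball_zero_iff.1 hw
  obtain ⟨hF, -⟩ := mob_comp hU hf hw1
  have h0 : ∀ z ∈ U, mob w (f z) ≠ 0 := by
    intro z hz h
    rw [mob, div_eq_zero_iff] at h
    rcases h with h | h
    · exact hnot ⟨z, hz, sub_eq_zero.1 h⟩
    · exact mob_den hw1 (mem_ball_zero_iff.1 (hf.maps hz)) h
  obtain ⟨s, hsc, hs2⟩ := Complex.exists_continuousOn_pow_eq hs hU hF.diff.continuousOn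
    (by rintro ⟨z, hz, h⟩; exact h0 z hz h) two_ne_zero
  have hS : Good U s := root_good hU hF h0 hsc hs2
  have hb := mem_ball_zero_iff.1 (hS.maps ha)
  obtain ⟨hg, hgd⟩ := mob_comp hU hS hb
  set g : ℂ → ℂ := fun z => mob (s a) (s z) with hgdef
  set G : ℂ → ℂ := fun z => mob (-w) (mob (-(s a)) z ^ 2) with hGdef
  have hGg : ∀ z ∈ U, G (g z) = f z := by
    intro z hz
    show mob (-w) (mob (-(s a)) (mob (s a) (s z)) ^ 2) = f z
    rw [mob_inv hb (mem_ball_zero_iff.1 (hS.maps hz)), hs2 z,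
      mob_inv hw1 (mem_ball_zero_iff.1 (hf.maps hz))]
  have hga : g a = 0 := mob_self _
  have hG0 : G 0 = 0 := by
    have h := hGg a ha
    rw [hga, hfa] at h
    exact h
  obtain ⟨hGd, hGlt⟩ := contraction hw1 hb (G := G) (fun z => rfl) hG0
  have h1 : HasDerivAt G (deriv G 0) (g a) := by
    rw [hga]
    exact ((hGd 0 (mem_ball_self one_pos)).differentiableAt
      (isOpen_ball.mem_nhds (mem_ball_self one_pos))).hasDerivAt
  have h2 : HasDerivAt g (deriv g a) a :=
    ((hg.diff a ha).differentiableAt (hU.mem_nhds ha)).hasDerivAt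
  have h3 := h1.comp a h2
  have h4 : HasDerivAt f (deriv G 0 * deriv g a) a := by
    refine h3.congr_of_eventuallyEq ?_
    filter_upwards [hU.mem_nhds ha] with z hz
    exact (hGg z hz).symm
  have h5 := hmax g hg
  rw [h4.deriv, norm_mul] at h5
  have h6 : 0 < ‖deriv g a‖ := norm_pos_iff.2 (hg.deriv_ne a ha)
  nlinarith

theorem rmt {U : Set ℂ} (hU : IsOpen U) (hs : IsSimplyConnected U) (hne : U ≠ univ) :
    ∃ h : ℂ → ℂ, DifferentiableOn ℂ h (ball 0 1) ∧ InjOn h (ball 0 1) ∧ h '' ball 0 1 = U ∧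
      ∀ z ∈ ball (0 : ℂ) 1, deriv h z ≠ 0 := by
  have hc : IsPreconnected U := hs.isPathConnected.isConnected.isPreconnected
  obtain ⟨a, ha⟩ := hs.nonempty
  obtain ⟨f0, h01, h02, h03⟩ := rm_step2 hU hs hne
  have hg0 : Good U f0 := ⟨fun z hz =>
    (differentiableAt_of_deriv_ne_zero (h03 z hz)).differentiableWithinAt, h02, h01, h03⟩
  obtain ⟨f, hf, hmax⟩ := extremal hU hc ha ⟨f0, hg0⟩
  have hfa : f a = 0 := by
    by_contra hne0
    have hw : ‖f a‖ < 1 := mem_ball_zero_iff.1 (hf.maps ha)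
    obtain ⟨hg, hd⟩ := mob_comp hU hf hw
    have h1 := hmax _ hg
    rw [(hd a ha).deriv, norm_mul] at h1
    have h2 : 0 < ‖deriv f a‖ := norm_pos_iff.2 (hf.deriv_ne a ha)
    have h3 : 1 - conj (f a) * f a = ((1 - ‖f a‖ ^ 2 : ℝ) : ℂ) := by
      rw [Complex.conj_mul']
      push_cast
      ring
    have h4 : 0 < ‖f a‖ := norm_pos_iff.2 hne0
    have h5 : 0 < 1 - ‖f a‖ ^ 2 := by nlinarith
    have h6 : ‖(1 - conj (f a) * f a) / (1 - conj (f a) * f a) ^ 2‖ = 1 / (1 - ‖f a‖ ^ 2) := by
      rw [h3, norm_div, norm_pow, Complex.norm_real, Real.norm_of_nonneg h5.le]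
      field_simp
    rw [h6] at h1
    have h7 : 1 < 1 / (1 - ‖f a‖ ^ 2) := by
      rw [lt_div_iff₀ h5]
      nlinarith
    nlinarith
  have hsurj : f '' U = ball 0 1 := surj_aux hU hs ha hf hmax hfa
  have hleft : ∀ z ∈ U, Function.invFunOn f U (f z) = z := fun z hz =>
    hf.inj.leftInvOn_invFunOn hz
  have hmem : ∀ w ∈ ball (0 : ℂ) 1, ∃ z ∈ U, f z = w := by
    intro w hw
    rw [← hsurj] at hw
    exact hw
  have hd : ∀ w ∈ ball (0 : ℂ) 1, ∃ c : ℂ, c ≠ 0 ∧ HasDerivAt (Function.invFunOn f U) c w := by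
    intro w hw
    obtain ⟨z, hz, rfl⟩ := hmem w hw
    refine ⟨(deriv f z)⁻¹, inv_ne_zero (hf.deriv_ne z hz), ?_⟩
    refine ((strict hU hf hz).to_local_left_inverse (hf.deriv_ne z hz) ?_).hasDerivAt
    filter_upwards [hU.mem_nhds hz] with y hy
    exact hleft y hy
  refine ⟨Function.invFunOn f U, ?_, ?_, ?_, ?_⟩
  · intro w hw
    obtain ⟨c, -, hc1⟩ := hd w hw
    exact hc1.differentiableAt.differentiableWithinAt
  · intro x hx y hy hxy
    obtain ⟨z, hz, rfl⟩ := hmem x hx
    obtain ⟨t, ht, rfl⟩ := hmem y hy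
    rw [hleft z hz, hleft t ht] at hxy
    rw [hxy]
  · ext z
    constructor
    · rintro ⟨w, hw, rfl⟩
      obtain ⟨t, ht, rfl⟩ := hmem w hw
      rw [hleft t ht]
      exact ht
    · intro hz
      exact ⟨f z, hf.maps hz, hleft z hz⟩
  · intro w hw
    obtain ⟨c, hc0, hc1⟩ := hd w hw
    rw [hc1.deriv]
    exact hc0

end Pool.Agent.H65.FL
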