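import Pool.Agent.H65.FL.PDefs

/-!
# Module SC: simply connected sets

`sc_convex`: a nonempty convex set is contractible (`Convex.contractibleSpace`), so simply connected (`SimplyConnectedSpace.ofContractible` or the instance). `sc_homeo`: the restrictions of `f`, `g` give a homeomorphism
`s ≃ₜ t` of the subtypes, so a homotopy equivalence (`Homeomorph.toHomotopyEquiv`, `ContinuousMap.HomotopyEquiv.simplyConnectedSpace`). `sc_pre`: `U = B ∩ f ⁻¹' R` is mapped by `f` bijectively to `R` (`R ⊆ f '' B`), the inverse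
`Function.invFunOn f B` is continuous on `f '' B` because `f` is open on `B`; `R` is convex.
-/

set_option autoImplicit false

namespace Pool.Agent.H65.FL

open Set Metric MeasureTheory

theorem sc_convex {E : Type*} [AddCommGroup E] [Module ℝ E] [TopologicalSpace E]
    [ContinuousAdd E] [ContinuousSMul ℝ E] {s : Set E} (hs : Convex ℝ s) (hne : s.Nonempty) :
    IsSimplyConnected s := by
  have : ContractibleSpace s := hs.contractibleSpace hne
  exact SimplyConnectedSpace.ofContractible s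

theorem sc_homeo {X Y : Type*} [TopologicalSpace X] [TopologicalSpace Y] {s : Set X} {t : Set Y}
    {f : X → Y} {g : Y → X} (hf : ContinuousOn f s) (hg : ContinuousOn g t) (hst : MapsTo f s t)
    (hts : MapsTo g t s) (h1 : ∀ x ∈ s, g (f x) = x) (h2 : ∀ y ∈ t, f (g y) = y)
    (ht : IsSimplyConnected t) : IsSimplyConnected s := by
  have e : s ≃ₜ t :=
    { toFun := hst.restrict f s t
      invFun := hts.restrict g t s
      left_inv := fun x => Subtype.ext (h1 x x.2)
      right_inv := fun y => Subtype.ext (h2 y y.2)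
      continuous_toFun := hf.mapsToRestrict hst
      continuous_invFun := hg.mapsToRestrict hts }
  exact (e.toHomotopyEquiv.simplyConnectedSpace_iff).2 ht.simplyConnectedSpace

/-- the inverse of an open embedding is continuous -/
theorem OE.inv {f : ℝ × ℝ → ℝ × ℝ} {B : Set (ℝ × ℝ)} (hf : OE f B) :
    ∃ g : ℝ × ℝ → ℝ × ℝ, ContinuousOn g (f '' B) ∧ (∀ x ∈ B, g (f x) = x) ∧
      ∀ y ∈ f '' B, g y ∈ B ∧ f (g y) = y := by
  have h1 : ∀ x ∈ B, Function.invFunOn f B (f x) = x := fun x hx => hf.inj.leftInvOn_invFunOn hx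
  have h2 : ∀ y ∈ f '' B, Function.invFunOn f B y ∈ B ∧ f (Function.invFunOn f B y) = y := fun y hy =>
    ⟨Function.invFunOn_mem hy, Function.invFunOn_eq hy⟩
  refine ⟨Function.invFunOn f B, ?_, h1, h2⟩
  rw [_root_.continuousOn_iff']
  intro t ht
  refine ⟨f '' (B ∩ t), hf.opn _ inter_subset_left (hf.isOpen.inter ht), ?_⟩
  ext y
  constructor
  · rintro ⟨hy1, hy2⟩
    have hy1' : Function.invFunOn f B y ∈ t := hy1
    exact ⟨⟨_, ⟨(h2 y hy2).1, hy1'⟩, (h2 y hy2).2⟩, hy2⟩
  · rintro ⟨⟨x, ⟨hxB, hxt⟩, rfl⟩, hy2⟩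
    refine ⟨?_, hy2⟩
    change Function.invFunOn f B (f x) ∈ t
    rw [h1 x hxB]
    exact hxt

theorem sc_pre {f : ℝ × ℝ → ℝ × ℝ} {B : Set (ℝ × ℝ)} (hf : OE f B) {a b s t : ℝ} (hab : a < b)
    (hst : s < t) (hR : Ioo a b ×ˢ Ioo s t ⊆ f '' B) :
    IsSimplyConnected (B ∩ f ⁻¹' (Ioo a b ×ˢ Ioo s t)) := by
  obtain ⟨g, hg, h1, h2⟩ := hf.inv
  refine sc_homeo (f := f) (g := g) (t := Ioo a b ×ˢ Ioo s t) (hf.cont.mono inter_subset_left) (hg.mono hR)
    (fun x hx => hx.2) (fun y hy => ⟨(h2 y (hR hy)).1, ?_⟩) (fun x hx => h1 x hx.1) (fun y hy => (h2 y (hR hy)).2) ?_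
  · change f (g y) ∈ Ioo a b ×ˢ Ioo s t
    rw [(h2 y (hR hy)).2]
    exact hy
  · refine sc_convex ((convex_Ioo a b).prod (convex_Ioo s t)) ?_
    exact (nonempty_Ioo.2 hab).prod (nonempty_Ioo.2 hst)

end Pool.Agent.H65.FL
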