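import Pool.Agent.H65.FL.Plb
import Pool.Agent.H65.FL.RMc
import Pool.Agent.H65.FL.SC

set_option autoImplicit false

/-!
# Module Pla: discs in simply connected domains

`fill`. PROOF. Let `j : ℂ ≃L[ℝ] ℝ × ℝ` be `Complex.equivRealProdCLM`, `U' = j ⁻¹' U`, open, simply connected (`sc_homeo`), not all of `ℂ`; `rmt` gives `h`. `H p = j (h (j.symm p))` is smooth on `Dk 1` (a holomorphic function on an
open set is smooth: `DifferentiableOn.contDiffOn`, `ContDiffOn.restrict_scalars`), injective, `H '' Dk 1 = U`, `det (fderiv H p) = ‖deriv h (j.symm p)‖²` (the real determinant of multiplication by `w` is `|w|²`; use `det_plane`). The sets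
`H '' Dk s`, `s < 1`, increase to `U`, so there is `s < 1` with `volume (H '' Dk s) > ofReal (π ρ²)` (`tendsto_measure_iUnion_atTop` or `measure_iUnion_eq_iSup`). Let `χ` be a smooth function on the plane, `1` on
`{p.1² + p.2² ≤ s²}`, with support in `Dk 1` (`exists_contDiff_tsupport_subset`, `exists_smooth_...` or `ContDiffBump` on `ℂ` composed with `j.symm`: inner radius `(1 + 2 s) / 3`..); `ρ₁ = χ * ‖deriv h (j.symm ·)‖²` is smooth on the whole plane and
positive on the closed disc of radius `s`. `knothe` for `s`, `ρ₁`: `A` and `K`; by `knothe_vol` and the change of variables for `H` on `Dk s`: `ofReal A = volume (H '' Dk s) > ofReal (π ρ²)`, so `π ρ² < A`. The composition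
`Dk ρ → (0, π ρ²) × (0, 1) ⊆ (0, A) × (0, 1) → Dk s → U` of `disc_rect`, the inverse `L` of `K` (`inv_smooth`) and `H` is smooth, injective, with determinant `1 * ρ₁⁻¹ * ρ₁ = 1` (`det_comp`).
`fill'`: `fill` for `B ∩ f ⁻¹' R` with `sc_pre`.
-/

namespace Pool.Agent.H65.FL

open Set Metric MeasureTheory
open scoped ENNReal ContDiff

private noncomputable abbrev pla_j : ℂ ≃L[ℝ] ℝ × ℝ := Complex.equivRealProdCLM

private lemma pla_symm_re (p : ℝ × ℝ) : (pla_j.symm p).re = p.1 := by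
  have h := Complex.equivRealProdCLM.apply_symm_apply p
  have h2 : (Complex.equivRealProdCLM (Complex.equivRealProdCLM.symm p)).1 =
    (Complex.equivRealProdCLM.symm p).re := rfl
  rw [h] at h2
  exact h2.symm

private lemma pla_symm_im (p : ℝ × ℝ) : (pla_j.symm p).im = p.2 := by
  have h := Complex.equivRealProdCLM.apply_symm_apply p
  have h2 : (Complex.equivRealProdCLM (Complex.equivRealProdCLM.symm p)).2 =
    (Complex.equivRealProdCLM.symm p).im := rfl
  rw [h] at h2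
  exact h2.symm

private lemma pla_norm (p : ℝ × ℝ) : ‖pla_j.symm p‖ ^ 2 = p.1 ^ 2 + p.2 ^ 2 := by
  rw [← Complex.normSq_eq_norm_sq, Complex.normSq_apply, pla_symm_re, pla_symm_im]
  ring

private lemma pla_mem {r : ℝ} (hr : 0 < r) (p : ℝ × ℝ) :
    p ∈ Dk r ↔ pla_j.symm p ∈ ball (0 : ℂ) r := by
  rw [mem_ball_zero_iff, ← sq_lt_sq₀ (norm_nonneg _) hr.le, pla_norm]
  exact Iff.rfl

private lemma pla_memc {r : ℝ} (hr : 0 < r) {p : ℝ × ℝ} (hp : p.1 ^ 2 + p.2 ^ 2 ≤ r ^ 2) :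
    pla_j.symm p ∈ closedBall (0 : ℂ) r := by
  rw [mem_closedBall_zero_iff, ← sq_le_sq₀ (norm_nonneg _) hr.le, pla_norm]
  exact hp

private lemma pla_Dk_mono {r s : ℝ} (hr : 0 ≤ r) (hrs : r ≤ s) : Dk r ⊆ Dk s := by
  intro p hp
  have h1 : p.1 ^ 2 + p.2 ^ 2 < r ^ 2 := hp
  have h2 : r ^ 2 ≤ s ^ 2 := pow_le_pow_left₀ hr hrs 2
  exact lt_of_lt_of_le h1 h2

private lemma pla_union : (⋃ n : ℕ, Dk (1 - 1 / ((n : ℝ) + 2))) = Dk 1 := by
  apply Subset.antisymm
  · refine iUnion_subset fun n => pla_Dk_mono ?_ ?_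
    · have : 1 / ((n : ℝ) + 2) ≤ 1 := by
        rw [div_le_one (by positivity)]
        have := Nat.cast_nonneg (α := ℝ) n
        linarith
      linarith
    · have : 0 ≤ 1 / ((n : ℝ) + 2) := by positivity
      linarith
  · intro p hp
    have hp' : ‖pla_j.symm p‖ < 1 := by
      have := (pla_mem one_pos p).1 hp
      rwa [mem_ball_zero_iff] at this
    obtain ⟨n, hn⟩ := exists_nat_one_div_lt (sub_pos.2 hp')
    refine mem_iUnion.2 ⟨n, ?_⟩
    have h0 : (0 : ℝ) ≤ n := Nat.cast_nonneg n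
    have h1 : 1 / ((n : ℝ) + 2) ≤ 1 / ((n : ℝ) + 1) :=
      one_div_le_one_div_of_le (by positivity) (by linarith)
    have h2 : 1 / ((n : ℝ) + 2) < 1 := by
      rw [div_lt_one (by positivity)]
      linarith
    rw [pla_mem (by linarith), mem_ball_zero_iff]
    linarith

private lemma pla_mono : Monotone fun n : ℕ => Dk (1 - 1 / ((n : ℝ) + 2)) := by
  intro n m hnm
  have h0 : (0 : ℝ) ≤ n := Nat.cast_nonneg n
  have h1 : (n : ℝ) ≤ m := Nat.cast_le.2 hnm
  have h2 : 1 / ((n : ℝ) + 2) < 1 := by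
    rw [div_lt_one (by positivity)]
    linarith
  have h3 : 1 / ((m : ℝ) + 2) ≤ 1 / ((n : ℝ) + 2) :=
    one_div_le_one_div_of_le (by positivity) (by linarith)
  exact pla_Dk_mono (by linarith) (by linarith)

/-- the real derivative of a holomorphic map of the plane -/
private lemma pla_deriv {h : ℂ → ℂ} {p : ℝ × ℝ} (hd : DifferentiableAt ℂ h (pla_j.symm p)) :
    HasFDerivAt (fun q : ℝ × ℝ => pla_j (h (pla_j.symm q)))
      ((pla_j : ℂ →L[ℝ] ℝ × ℝ).comp
        (((ContinuousLinearMap.toSpanSingleton ℂ (deriv h (pla_j.symm p))).restrictScalars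
          ℝ).comp (pla_j.symm : ℝ × ℝ →L[ℝ] ℂ))) p := by
  have h1 : HasFDerivAt h ((ContinuousLinearMap.toSpanSingleton ℂ
      (deriv h (pla_j.symm p))).restrictScalars ℝ) (pla_j.symm p) :=
    hd.hasDerivAt.hasFDerivAt.restrictScalars ℝ
  have h2 : HasFDerivAt (fun q : ℝ × ℝ => pla_j.symm q) (pla_j.symm : ℝ × ℝ →L[ℝ] ℂ) p :=
    (pla_j.symm : ℝ × ℝ →L[ℝ] ℂ).hasFDerivAt
  have h3 : HasFDerivAt (fun z : ℂ => pla_j z) (pla_j : ℂ →L[ℝ] ℝ × ℝ) (h (pla_j.symm p)) :=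
    (pla_j : ℂ →L[ℝ] ℝ × ℝ).hasFDerivAt
  exact h3.comp p (h1.comp p h2)

private lemma pla_det {h : ℂ → ℂ} {p : ℝ × ℝ} (hd : DifferentiableAt ℂ h (pla_j.symm p)) :
    (fderiv ℝ (fun q : ℝ × ℝ => pla_j (h (pla_j.symm q))) p).det =
      ‖deriv h (pla_j.symm p)‖ ^ 2 := by
  rw [(pla_deriv hd).fderiv, det_plane]
  set w := deriv h (pla_j.symm p) with hw
  have e1 : pla_j.symm ((1, 0) : ℝ × ℝ) = 1 := by
    apply Complex.ext
    · rw [pla_symm_re]; simp
    · rw [pla_symm_im]; simp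
  have e2 : pla_j.symm ((0, 1) : ℝ × ℝ) = Complex.I := by
    apply Complex.ext
    · rw [pla_symm_re]; simp
    · rw [pla_symm_im]; simp
  simp only [ContinuousLinearMap.comp_apply, ContinuousLinearEquiv.coe_coe, e1, e2,
    ContinuousLinearMap.coe_restrictScalars', ContinuousLinearMap.toSpanSingleton_apply]
  rw [← Complex.normSq_eq_norm_sq, Complex.normSq_apply]
  simp [Complex.equivRealProdCLM_apply, Complex.mul_re, Complex.mul_im]

/-- the smooth density -/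
private lemma pla_smooth {h : ℂ → ℂ} (hh : DifferentiableOn ℂ h (ball 0 1)) {s : ℝ}
    (hs0 : 0 < s) (hs1 : s < 1) : ∃ χ : ℂ → ℝ, (∀ z ∈ closedBall (0 : ℂ) s, χ z = 1) ∧
      ContDiff ℝ ∞ fun p : ℝ × ℝ => χ (pla_j.symm p) * ‖deriv h (pla_j.symm p)‖ ^ 2 := by
  let χ : ContDiffBump (0 : ℂ) := ⟨s, (1 + s) / 2, hs0, by linarith⟩
  refine ⟨χ, fun z hz => χ.one_of_mem_closedBall hz, ?_⟩
  have hg : ContDiff ℝ ∞ fun z : ℂ => χ z * ‖deriv h z‖ ^ 2 := by
    rw [contDiff_iff_contDiffAt]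
    intro z
    by_cases hz : z ∈ ball (0 : ℂ) 1
    · have h1 : ContDiffOn ℂ ∞ h (ball 0 1) := hh.contDiffOn isOpen_ball
      have h2 : ContDiffOn ℂ ∞ (deriv h) (ball 0 1) :=
        (hh.deriv isOpen_ball).contDiffOn isOpen_ball
      have h3 : ContDiffAt ℝ ∞ (deriv h) z :=
        (h2.contDiffAt (isOpen_ball.mem_nhds hz)).restrict_scalars ℝ
      exact χ.contDiff.contDiffAt.mul (h3.norm_sq ℝ)
    · have hz' : z ∉ closedBall (0 : ℂ) ((1 + s) / 2) := by
        intro h4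
        apply hz
        rw [mem_closedBall_zero_iff] at h4
        rw [mem_ball_zero_iff]
        linarith
      have h5 : ∀ᶠ y in nhds z, χ y * ‖deriv h y‖ ^ 2 = 0 := by
        filter_upwards [(isClosed_closedBall (x := (0 : ℂ))
          (ε := (1 + s) / 2)).isOpen_compl.mem_nhds hz'] with y hy
        have h6 : χ y = 0 := by
          apply χ.zero_of_le_dist
          have h7 : y ∉ closedBall (0 : ℂ) ((1 + s) / 2) := hy
          rw [mem_closedBall] at h7
          exact (not_le.1 h7).le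
        rw [h6, zero_mul]
      exact (contDiffAt_const (c := (0 : ℝ))).congr_of_eventuallyEq h5
  exact hg.comp pla_j.symm.contDiff

theorem fill {U : Set (ℝ × ℝ)} (hU : IsOpen U) (hs : IsSimplyConnected U) (hne : U ≠ univ)
    {ρ : ℝ} (hρ : 0 < ρ) (h : ENNReal.ofReal (Real.pi * ρ ^ 2) < volume U) :
    ∃ e, Emb e (Dk ρ) U := by
  have hU' : IsOpen (pla_j ⁻¹' U) := hU.preimage pla_j.continuous
  have hs' : IsSimplyConnected (pla_j ⁻¹' U) := by
    refine sc_homeo (f := fun z => pla_j z) (g := fun p => pla_j.symm p)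
      pla_j.continuous.continuousOn pla_j.symm.continuous.continuousOn (fun z hz => hz)
      (fun p hp => ?_) (fun z _ => pla_j.symm_apply_apply z)
      (fun p _ => pla_j.apply_symm_apply p) hs
    change pla_j (pla_j.symm p) ∈ U
    rwa [pla_j.apply_symm_apply]
  have hne' : pla_j ⁻¹' U ≠ univ := by
    intro h0
    apply hne
    rw [eq_univ_iff_forall] at h0 ⊢
    intro p
    have h1 := h0 (pla_j.symm p)
    rwa [mem_preimage, pla_j.apply_symm_apply] at h1
  obtain ⟨g, hgd, hgi, hgim, hg0⟩ := rmt hU' hs' hne'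
  set H : ℝ × ℝ → ℝ × ℝ := fun p => pla_j (g (pla_j.symm p)) with hH
  have hgat : ∀ p ∈ Dk 1, DifferentiableAt ℂ g (pla_j.symm p) := fun p hp =>
    hgd.differentiableAt (isOpen_ball.mem_nhds ((pla_mem one_pos p).1 hp))
  have hHd : ∀ p ∈ Dk 1, (fderiv ℝ H p).det = ‖deriv g (pla_j.symm p)‖ ^ 2 := fun p hp =>
    pla_det (hgat p hp)
  have hHs : ContDiffOn ℝ ∞ H (Dk 1) := by
    have h1 : ContDiffOn ℝ ∞ g (ball 0 1) :=
      (hgd.contDiffOn isOpen_ball : ContDiffOn ℂ ∞ g (ball 0 1)).restrict_scalars ℝ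
    have h2 : ContDiffOn ℝ ∞ (fun p : ℝ × ℝ => g (pla_j.symm p)) (Dk 1) :=
      h1.comp pla_j.symm.contDiff.contDiffOn fun p hp => (pla_mem one_pos p).1 hp
    exact pla_j.contDiff.comp_contDiffOn h2
  have hHi : InjOn H (Dk 1) := by
    intro p hp q hq hpq
    have h1 := pla_j.injective hpq
    exact pla_j.symm.injective
      (hgi ((pla_mem one_pos p).1 hp) ((pla_mem one_pos q).1 hq) h1)
  have hHim : H '' Dk 1 = U := by
    apply Subset.antisymm
    · rintro _ ⟨p, hp, rfl⟩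
      have h1 : g (pla_j.symm p) ∈ pla_j ⁻¹' U := by
        rw [← hgim]
        exact mem_image_of_mem _ ((pla_mem one_pos p).1 hp)
      exact h1
    · intro q hq
      have h1 : pla_j.symm q ∈ g '' ball 0 1 := by
        rw [hgim, mem_preimage, pla_j.apply_symm_apply]
        exact hq
      obtain ⟨z, hz, hz2⟩ := h1
      refine ⟨pla_j z, ?_, ?_⟩
      · rw [pla_mem one_pos, pla_j.symm_apply_apply]
        exact hz
      · change pla_j (g (pla_j.symm (pla_j z))) = q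
        rw [pla_j.symm_apply_apply, hz2, pla_j.apply_symm_apply]
  obtain ⟨s, hs0, hs1, hvol⟩ : ∃ s : ℝ, 0 < s ∧ s < 1 ∧
      ENNReal.ofReal (Real.pi * ρ ^ 2) < volume (H '' Dk s) := by
    have h1 : volume U = ⨆ n : ℕ, volume (H '' Dk (1 - 1 / ((n : ℝ) + 2))) := by
      rw [← hHim, ← pla_union, image_iUnion]
      exact Monotone.measure_iUnion fun n m hnm => image_mono (pla_mono hnm)
    rw [h1, lt_iSup_iff] at h
    obtain ⟨n, hn⟩ := h
    have h0 : (0 : ℝ) ≤ n := Nat.cast_nonneg n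
    refine ⟨1 - 1 / ((n : ℝ) + 2), ?_, ?_, hn⟩
    · have : 1 / ((n : ℝ) + 2) < 1 := by
        rw [div_lt_one (by positivity)]
        linarith
      linarith
    · have : 0 < 1 / ((n : ℝ) + 2) := by positivity
      linarith
  obtain ⟨χ, hχ1, hsm⟩ := pla_smooth hgd hs0 hs1
  have hsub : Dk s ⊆ Dk 1 := pla_Dk_mono hs0.le hs1.le
  set ρ₁ : ℝ × ℝ → ℝ := fun p => χ (pla_j.symm p) * ‖deriv g (pla_j.symm p)‖ ^ 2 with hρ₁
  have hpos : ∀ p : ℝ × ℝ, p.1 ^ 2 + p.2 ^ 2 ≤ s ^ 2 → 0 < ρ₁ p := by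
    intro p hp
    have h1 := pla_memc hs0 hp
    have h2 : pla_j.symm p ∈ ball (0 : ℂ) 1 := by
      rw [mem_closedBall_zero_iff] at h1
      rw [mem_ball_zero_iff]
      linarith
    have h3 : 0 < ‖deriv g (pla_j.symm p)‖ := norm_pos_iff.2 (hg0 _ h2)
    rw [hρ₁]
    simp only [hχ1 _ h1, one_mul]
    positivity
  have heq : ∀ p ∈ Dk s, (fderiv ℝ H p).det = ρ₁ p := by
    intro p hp
    have h1 : pla_j.symm p ∈ closedBall (0 : ℂ) s := pla_memc hs0 (le_of_lt hp)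
    rw [hHd p (hsub hp), hρ₁]
    simp only [hχ1 _ h1, one_mul]
  obtain ⟨A, K, hA, hKs, hKi, hKim, hKd⟩ := knothe hs0 hsm hpos
  have hpos' : ∀ p ∈ Dk s, 0 < ρ₁ p := fun p hp => hpos p (le_of_lt hp)
  have hv := knothe_vol hA hKs hKi hKim hKd hpos'
  have hcv : ∫⁻ p in Dk s, ENNReal.ofReal (ρ₁ p) = volume (H '' Dk s) := by
    rw [← lintegral_abs_det_fderiv_eq_addHaar_image volume (isOpen_Dk s).measurableSet
      (f := H) (f' := fun p => fderiv ℝ H p) (fun p hp => ?_) (hHi.mono hsub)]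
    · refine setLIntegral_congr_fun (isOpen_Dk s).measurableSet fun p hp => ?_
      simp only [heq p hp, abs_of_pos (hpos' p hp)]
    · have h1 : ContDiffAt ℝ ∞ H p := hHs.contDiffAt ((isOpen_Dk 1).mem_nhds (hsub hp))
      exact (h1.differentiableAt (by simp)).hasFDerivAt.hasFDerivWithinAt
  rw [hcv] at hv
  rw [hv, ENNReal.ofReal_lt_ofReal_iff hA] at hvol
  obtain ⟨e₁, _, he₁, _⟩ := disc_rect hρ
  obtain ⟨L, _, hLs, hLK, hLd⟩ := inv_smooth (isOpen_Dk s) hKs hKi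
    fun p hp => by rw [hKd p hp]; exact (hpos' p hp).ne'
  have hopen : IsOpen (Ioo 0 A ×ˢ Ioo (0 : ℝ) 1) := isOpen_Ioo.prod isOpen_Ioo
  have hLm : MapsTo L (Ioo 0 A ×ˢ Ioo 0 1) (Dk s) := by
    intro q hq
    rw [← hKim] at hq
    obtain ⟨p, hp, rfl⟩ := hq
    rw [hLK p hp]
    exact hp
  rw [hKim] at hLs
  have he₂ : Emb (fun q => H (L q)) (Ioo 0 A ×ˢ Ioo 0 1) U := by
    refine ⟨?_, ?_, ?_, ?_⟩
    · exact hHs.comp hLs fun q hq => hsub (hLm hq)
    · intro q hq q' hq' hqq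
      have h1 := hHi (hsub (hLm hq)) (hsub (hLm hq')) hqq
      rw [← hKim] at hq hq'
      obtain ⟨p, hp, rfl⟩ := hq
      obtain ⟨p', hp', rfl⟩ := hq'
      rw [hLK p hp, hLK p' hp'] at h1
      rw [h1]
    · intro q hq
      rw [← hHim]
      exact mem_image_of_mem _ (hsub (hLm hq))
    · intro q hq
      have h1 : DifferentiableAt ℝ L q :=
        (hLs.contDiffAt (hopen.mem_nhds hq)).differentiableAt (by simp)
      have h2 : DifferentiableAt ℝ H (L q) :=
        (hHs.contDiffAt ((isOpen_Dk 1).mem_nhds (hsub (hLm hq)))).differentiableAt (by simp)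
      rw [det_comp h1 h2]
      rw [← hKim] at hq
      obtain ⟨p, hp, rfl⟩ := hq
      rw [hLd p hp, hLK p hp, heq p hp, hKd p hp]
      exact mul_inv_cancel₀ (hpos' p hp).ne'
  have he₁' : Emb e₁ (Dk ρ) (Ioo 0 A ×ˢ Ioo 0 1) :=
    ⟨he₁.smooth, he₁.inj, fun p hp => by
      have h1 := he₁.maps hp
      exact ⟨⟨h1.1.1, h1.1.2.trans hvol⟩, h1.2⟩, he₁.det⟩
  exact ⟨_, emb_comp (isOpen_Dk ρ) hopen he₁' he₂⟩

theorem fill' {f : ℝ × ℝ → ℝ × ℝ} {B : Set (ℝ × ℝ)} (hf : OE f B) (hB : B ≠ univ) {a b s t : ℝ}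
    (hab : a < b) (hst : s < t) (hR : Ioo a b ×ˢ Ioo s t ⊆ f '' B) {ρ : ℝ} (hρ : 0 < ρ)
    (h : ENNReal.ofReal (Real.pi * ρ ^ 2) < volume (B ∩ f ⁻¹' (Ioo a b ×ˢ Ioo s t))) :
    ∃ e, Emb e (Dk ρ) (B ∩ f ⁻¹' (Ioo a b ×ˢ Ioo s t)) := by
  refine fill (hf.cont.isOpen_inter_preimage hf.isOpen (isOpen_Ioo.prod isOpen_Ioo))
    (sc_pre hf hab hst hR) (fun h0 => hB ?_) hρ h
  rw [eq_univ_iff_forall] at h0 ⊢
  exact fun p => (h0 p).1

end Pool.Agent.H65.FL
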