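import Pool.Agent.H65.FL.Bas
import Pool.Agent.H65.FL.Cap
import Pool.Agent.H65.FL.Pla
import Pool.Agent.H65.FL.Msr

set_option autoImplicit false

/-!
# Module Are: the components preserve the area

`vol_le`. PROOF. `msr` for `f = fk ψ x k`, `B = ball (x k) r` (`fk_oe`), `s₀ = r / 2`. Let `ball p s ⊆ f '' B`, `s < r / 2`, and suppose that `U = B ∩ f ⁻¹' ball p s` has area `> (2 s)²` (`ball p s = Ioo ×ˢ Ioo`: `Prod` balls,
`Real.ball_eq_Ioo`, `ball_prod_same`). As `(2 s)² < r² < π r²` there is `α` with `(2 s)² < α`, `α < π r²`, `ofReal α < volume U`; `ρ = √(α / π) < r`. `fill'` gives `e : Dk ρ → U`. `V = {y ∈ ball x r | y k ∈ U}` is open, and `cap_low`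
(centre `x`; `y j - x j ∈ Dk ρ` implies `y j ∈ ball (x j) r` in the sup norm) gives `α ≤ c.val V`. `ψ '' V` is open and contained in `{z | z k ∈ ball p s}` (`fk_eq`), so `c.val (ψ '' V) ≤ (2 s)²` by `cap_up`. But
`c.val (ψ '' V) = c.val V`: contradiction.
`area_eq`. PROOF. Choose `r'' ≤ r` with `ψ '' ball x r'' ⊆ ball (ψ x) r'`. Let `E ⊆ ball (x k) r''` be measurable, `E' = fk ψ x k '' E`, measurable (`MeasurableSet.image_of_continuousOn_injOn`). `E' ⊆ ball (ψ x k) r'`, because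
`fk ψ x k w = ψ (update x k w) k`. `vol_le` for `ψ.symm` at `ψ x`: `volume E' ≤ volume (fk ψ.symm (ψ x) k '' E')`, and `fk ψ.symm (ψ x) k (fk ψ x k w) = w`: this is `fk_eq` for `ψ.symm` and the point
`ψ (update x k w) ∈ ball (ψ x) r'`. So `volume E' ≤ volume E`; the other inequality is `vol_le` for `ψ`.
-/

namespace Pool.Agent.H65.FL

open Set Metric MeasureTheory
open scoped ENNReal ContDiff
open Pool.Agent.H72.Symp (Sp omega ball1 cyl1 IsSympEmbedding Capacity CapacityChoice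
  LocallyPreserves stab)

variable {m : ℕ} [NeZero m] {c : Capacity m} {ψ : OpenPartialHomeomorph (Sp m) (Sp m)}

private theorem are_ball (p : ℝ × ℝ) (s : ℝ) :
    ball p s = Ioo (p.1 - s) (p.1 + s) ×ˢ Ioo (p.2 - s) (p.2 + s) := by
  rw [← Real.ball_eq_Ioo, ← Real.ball_eq_Ioo, ball_prod_same]

private theorem are_vol (p : ℝ × ℝ) {s : ℝ} (hs : 0 < s) :
    volume (ball p s) = ENNReal.ofReal ((2 * s) ^ 2) := by
  rw [are_ball, Measure.volume_eq_prod, Measure.prod_prod, Real.volume_Ioo, Real.volume_Ioo,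
    ← ENNReal.ofReal_mul (by linarith)]
  congr 1
  ring

private theorem are_ne (p : ℝ × ℝ) (s : ℝ) : ball p s ≠ univ := by
  intro h
  have h1 : ((p.1 + s, p.2) : ℝ × ℝ) ∈ ball p s := h ▸ mem_univ _
  rw [are_ball] at h1
  have h2 := h1.1.2
  simp at h2

private theorem are_dk {v : ℝ × ℝ} {ρ r : ℝ} (hρ : 0 < ρ) (hr : ρ < r) (hv : v ∈ Dk ρ) :
    ‖v‖ < r := by
  have h1 : v.1 ^ 2 + v.2 ^ 2 < ρ ^ 2 := hv
  have h2 : |v.1| < ρ := abs_lt_of_sq_lt_sq (by nlinarith [sq_nonneg v.2]) hρ.le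
  have h3 : |v.2| < ρ := abs_lt_of_sq_lt_sq (by nlinarith [sq_nonneg v.1]) hρ.le
  rw [Prod.norm_def, Real.norm_eq_abs, Real.norm_eq_abs]
  exact (max_lt h2 h3).trans hr

theorem vol_le (h : CM c ψ) {x : Sp m} {r : ℝ} (hr : 0 < r) {k : Fin m} (hs : Spl ψ x r k.1) :
    ∀ E ⊆ ball (x k) r, MeasurableSet E → volume E ≤ volume (fk ψ x k '' E) := by
  have hoe : OE (fk ψ x k) (ball (x k) r) := fk_oe h hr hs
  refine msr hoe measure_ball_lt_top.ne (half_pos hr) ?_
  intro p s hs0 hsr hsub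
  by_contra hlt
  rw [not_le] at hlt
  have hpi : (2 * s) ^ 2 < Real.pi * r ^ 2 := by
    have h1 : (2 * s) ^ 2 < r ^ 2 := by
      apply pow_lt_pow_left₀ (by linarith) (by linarith) (by norm_num)
    nlinarith [Real.pi_gt_three, sq_nonneg r]
  have hpos : 0 < Real.pi * r ^ 2 := by positivity
  have hb : volume (ball p s) < ENNReal.ofReal (Real.pi * r ^ 2) := by
    rw [are_vol p hs0]
    exact (ENNReal.ofReal_lt_ofReal_iff hpos).2 hpi
  obtain ⟨α, hα1, hα2⟩ := ENNReal.lt_iff_exists_nnreal_btwn.1 (lt_min hlt hb)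
  have hα3 := hα2.trans_le (min_le_left _ _)
  have hα4 := hα2.trans_le (min_le_right _ _)
  have hα0 : (0 : ℝ) < α := by
    have : (0 : ℝ≥0∞) < α := zero_le.trans_lt hα1
    exact_mod_cast this
  have hαr : (α : ℝ) < Real.pi * r ^ 2 := by
    rw [← ENNReal.ofReal_coe_nnreal] at hα4
    exact (ENNReal.ofReal_lt_ofReal_iff hpos).1 hα4
  obtain ⟨ρ, hρ, hρα⟩ : ∃ ρ : ℝ, 0 < ρ ∧ Real.pi * ρ ^ 2 = α := by
    refine ⟨Real.sqrt (α / Real.pi), Real.sqrt_pos.2 (div_pos hα0 Real.pi_pos), ?_⟩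
    rw [Real.sq_sqrt (div_pos hα0 Real.pi_pos).le]
    field_simp
  have hρr : ρ < r := by
    have h1 : Real.pi * ρ ^ 2 < Real.pi * r ^ 2 := hρα ▸ hαr
    have h2 : ρ ^ 2 < r ^ 2 := lt_of_mul_lt_mul_left h1 Real.pi_pos.le
    exact lt_of_pow_lt_pow_left₀ 2 hr.le h2
  have hvol : ENNReal.ofReal (Real.pi * ρ ^ 2) <
      volume (ball (x k) r ∩ fk ψ x k ⁻¹' ball p s) := by
    rw [hρα, ENNReal.ofReal_coe_nnreal]
    exact hα3
  obtain ⟨e, he⟩ : ∃ e, Emb e (Dk ρ) (ball (x k) r ∩ fk ψ x k ⁻¹' ball p s) := by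
    rw [are_ball p s] at hsub hvol ⊢
    exact fill' hoe (are_ne _ _) (by linarith) (by linarith) hsub hρ hvol
  have hUo : IsOpen (ball (x k) r ∩ fk ψ x k ⁻¹' ball p s) :=
    hoe.cont.isOpen_inter_preimage hoe.isOpen isOpen_ball
  set U := ball (x k) r ∩ fk ψ x k ⁻¹' ball p s with hU
  have hVo : IsOpen (ball x r ∩ (fun y : Sp m => y k) ⁻¹' U) :=
    isOpen_ball.inter (hUo.preimage (continuous_apply k))
  set V := ball x r ∩ (fun y : Sp m => y k) ⁻¹' U with hV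
  have hVs : V ⊆ ψ.source := inter_subset_left.trans hs.src
  have hlow : ENNReal.ofReal (Real.pi * ρ ^ 2) ≤ c.val V := by
    refine cap_low c k hVo x hρ he ?_
    intro y hyk hyj
    refine ⟨?_, hyk⟩
    rw [mem_ball, dist_pi_lt_iff hr]
    intro j
    by_cases hj : j = k
    · subst hj
      exact hyk.1
    · rw [dist_eq_norm]
      exact are_dk hρ hρr (hyj j hj)
  have hWo : IsOpen (ψ '' V) := ψ.isOpen_image_of_subset_source hVo hVs
  have hup : c.val (ψ '' V) ≤ ENNReal.ofReal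
      (((p.1 + s) - (p.1 - s)) * ((p.2 + s) - (p.2 - s))) := by
    refine cap_up c k hWo (by linarith) (by linarith) ?_
    rintro z ⟨y, hy, rfl⟩
    rw [← are_ball, fk_eq h hr hs hy.1]
    exact hy.2.2
  rw [h.cap V hVs hVo] at hup
  have hfin := hlow.trans hup
  rw [hρα, ENNReal.ofReal_coe_nnreal] at hfin
  have h5 : ((p.1 + s) - (p.1 - s)) * ((p.2 + s) - (p.2 - s)) = (2 * s) ^ 2 := by ring
  rw [h5, ← are_vol p hs0] at hfin
  exact absurd hα1 (not_lt.2 hfin)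

theorem area_eq (h : CM c ψ) {x : Sp m} (hx : x ∈ ψ.source) {r r' : ℝ} (hr : 0 < r)
    (hr' : 0 < r') {k : Fin m} (hs : Spl ψ x r k.1) (hs' : Spl ψ.symm (ψ x) r' k.1) :
    ∃ r'' > 0, r'' ≤ r ∧ ∀ E ⊆ ball (x k) r'', MeasurableSet E →
      volume (fk ψ x k '' E) = volume E := by
  have hc : ∀ᶠ y in nhds x, ψ y ∈ ball (ψ x) r' :=
    (ψ.continuousAt hx) (ball_mem_nhds (ψ x) hr')
  obtain ⟨δ, hδ, hδs⟩ := Metric.eventually_nhds_iff_ball.1 hc
  refine ⟨min δ r, lt_min hδ hr, min_le_right _ _, ?_⟩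
  intro E hE hEm
  have hEr : E ⊆ ball (x k) r := hE.trans (ball_subset_ball (min_le_right _ _))
  have hoe : OE (fk ψ x k) (ball (x k) r) := fk_oe h hr hs
  have hE'm : MeasurableSet (fk ψ x k '' E) :=
    hEm.image_of_continuousOn_injOn (hoe.cont.mono hEr) (hoe.inj.mono hEr)
  have hup : ∀ w ∈ E, Function.update x k w ∈ ball x (min δ r) := fun w hw =>
    upd_mem (mem_ball_self (lt_min hδ hr)) (hE hw)
  have hsub : fk ψ x k '' E ⊆ ball (ψ x k) r' := by
    rintro _ ⟨w, hw, rfl⟩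
    have h1 : ψ (Function.update x k w) ∈ ball (ψ x) r' :=
      hδs _ (ball_subset_ball (min_le_left _ _) (hup w hw))
    rw [mem_ball, dist_pi_lt_iff hr'] at h1
    exact h1 k
  have hinv : fk ψ.symm (ψ x) k '' (fk ψ x k '' E) = E := by
    rw [image_image]
    have h2 : ∀ w ∈ E, fk ψ.symm (ψ x) k (fk ψ x k w) = w := by
      intro w hw
      have h1 : ψ (Function.update x k w) ∈ ball (ψ x) r' :=
        hδs _ (ball_subset_ball (min_le_left _ _) (hup w hw))
      have h3 := fk_eq h.symm hr' hs' h1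
      have h4 : Function.update x k w ∈ ψ.source :=
        hs.src (ball_subset_ball (min_le_right _ _) (hup w hw))
      rw [ψ.left_inv h4, Function.update_self] at h3
      exact h3.symm
    exact (image_congr h2).trans (image_id' E)
  apply le_antisymm
  · have h6 := vol_le h.symm hr' hs' _ hsub hE'm
    rw [hinv] at h6
    exact h6
  · exact vol_le h hr hs E hEr hEm

end Pool.Agent.H65.FL
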