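import Pool.Agent.H65.FL.Defs

set_option autoImplicit false

/-!
# Module Bas: the components

`fk_eq`. PROOF. Let `y ∈ ball x r` and `y' = fun i => if i < k then x i else y i`; `y'` and `update x k (y k)` are in `ball x r` (sup norm). `tail`: `ψ y k = ψ y' k`. `y'` and `update x k (y k)` agree in the coordinate pairs `< k + 1`, so by
`flag (k + 1)` the images agree there: `ψ y' k = ψ (update x k (y k)) k`.
`fk_inj`: if `fk w = fk w'` let `y = update x k w`, `y' = update x k w'`: they agree for `j < k`, so (`flag k`) the images agree for `j < k`, and for `j = k` by assumption; `flag (k + 1)` gives `w = w'`.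
`fk_oe`: continuity: `w ↦ update x k w` is continuous and maps `ball (x k) r` into `ball x r`. Open: for `W ⊆ ball (x k) r` open, `fk '' W` is the image under the (open) projection `z ↦ z k` of the open set `ψ '' {y ∈ ball x r | y k ∈ W}`
(`fk_eq`; `isOpenMap_eval`, `ψ.isOpen_image_of_subset_source`).
`CM.symm`: from `cap` for `ψ.symm '' W` and `ψ '' (ψ.symm '' W) = W`; `flag`.
-/

namespace Pool.Agent.H65.FL

open Set Metric MeasureTheory
open scoped ENNReal ContDiff
open Pool.Agent.H72.Symp (Sp omega ball1 cyl1 IsSympEmbedding Capacity CapacityChoice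
  LocallyPreserves stab)

variable {m : ℕ} [NeZero m] {c : Capacity m} {ψ : OpenPartialHomeomorph (Sp m) (Sp m)}

omit [NeZero m] in
theorem upd_mem {x y : Sp m} {r : ℝ} (hy : y ∈ ball x r) {j : Fin m} {w : ℝ × ℝ}
    (hw : w ∈ ball (x j) r) : Function.update y j w ∈ ball x r := by
  have hr : 0 < r := pos_of_mem_ball hw
  rw [mem_ball, dist_pi_lt_iff hr] at hy ⊢
  intro i
  by_cases hi : i = j
  · rw [hi, Function.update_self]
    exact hw
  · rw [Function.update_of_ne hi]
    exact hy i

omit [NeZero m] in
theorem Spl.mono {x : Sp m} {r r' : ℝ} {k : ℕ} (h : Spl ψ x r k) (hr : r' ≤ r) :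
    Spl ψ x r' k := by
  exact
    { src := (ball_subset_ball hr).trans h.src
      own := fun j hj y hy z hz hyz =>
        h.own j hj y (ball_subset_ball hr hy) z (ball_subset_ball hr hz) hyz
      tail := fun y hy z hz hyz j hj =>
        h.tail y (ball_subset_ball hr hy) z (ball_subset_ball hr hz) hyz j hj
      area := fun j hj E hE hm => h.area j hj E (hE.trans (ball_subset_ball hr)) hm }

omit [NeZero m] in
theorem spl_zero {x : Sp m} (hx : x ∈ ψ.source) : ∃ r > 0, Spl ψ x r 0 := by
  obtain ⟨r, hr, hb⟩ := Metric.isOpen_iff.1 ψ.open_source x hx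
  exact ⟨r, hr,
    { src := hb
      own := fun j hj => absurd hj (Nat.not_lt_zero _)
      tail := fun y _ z _ hyz j _ => by
        rw [show y = z from funext fun i => hyz i (Nat.zero_le _)]
      area := fun j hj => absurd hj (Nat.not_lt_zero _) }⟩

theorem CM.symm (h : CM c ψ) : CM c ψ.symm := by
  refine ⟨?_, ?_⟩
  · intro W hW hWo
    have hWt : W ⊆ ψ.target := hW
    have h1 : ψ.symm '' W ⊆ ψ.source := by
      rintro _ ⟨w, hw, rfl⟩
      exact ψ.map_target (hWt hw)
    have h2 : IsOpen (ψ.symm '' W) := ψ.symm.isOpen_image_of_subset_source hWo hW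
    have h3 : ψ '' (ψ.symm '' W) = W := by
      ext z
      constructor
      · rintro ⟨_, ⟨w, hw, rfl⟩, rfl⟩
        rw [ψ.right_inv (hWt hw)]
        exact hw
      · intro hz
        exact ⟨ψ.symm z, ⟨z, hz, rfl⟩, ψ.right_inv (hWt hz)⟩
    have h4 := h.cap _ h1 h2
    rw [h3] at h4
    exact h4.symm
  · intro k y hy z hz
    have hy' : y ∈ ψ.target := hy
    have hz' : z ∈ ψ.target := hz
    have h1 := h.flag k (ψ.symm y) (ψ.map_target hy') (ψ.symm z) (ψ.map_target hz')
    rw [ψ.right_inv hy', ψ.right_inv hz'] at h1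
    exact h1.symm

theorem fk_eq (h : CM c ψ) {x : Sp m} {r : ℝ} (hr : 0 < r) {k : Fin m} (hs : Spl ψ x r k.1)
    {y : Sp m} (hy : y ∈ ball x r) : ψ y k = fk ψ x k (y k) := by
  have hyc : ∀ i, dist (y i) (x i) < r := (dist_pi_lt_iff hr).1 hy
  have hy' : (fun i => if i < k then x i else y i) ∈ ball x r := by
    rw [mem_ball, dist_pi_lt_iff hr]
    intro i
    by_cases hi : i < k
    · rw [if_pos hi, dist_self]
      exact hr
    · rw [if_neg hi]
      exact hyc i
  have hu : Function.update x k (y k) ∈ ball x r := upd_mem (mem_ball_self hr) (hyc k)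
  have h1 := hs.tail y hy _ hy' (fun j hj => by
    rw [if_neg (not_lt.2 (Fin.le_def.2 hj))]) k le_rfl
  have h2 := (h.flag (k.1 + 1) _ (hs.src hy') _ (hs.src hu)).1 (fun j hj => by
    by_cases hjk : j = k
    · rw [hjk, Function.update_self]
      exact if_neg (lt_irrefl k)
    · have hlt : j < k := by
        rcases lt_or_eq_of_le (Nat.lt_succ_iff.1 hj) with h3 | h3
        · exact h3
        · exact absurd (Fin.ext h3) hjk
      rw [Function.update_of_ne hjk]
      exact if_pos hlt)
  rw [h1, h2 k (Nat.lt_succ_self _)]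
  rfl

theorem fk_oe (h : CM c ψ) {x : Sp m} {r : ℝ} (hr : 0 < r) {k : Fin m} (hs : Spl ψ x r k.1) :
    OE (fk ψ x k) (ball (x k) r) := by
  have hup : ∀ w ∈ ball (x k) r, Function.update x k w ∈ ball x r := fun w hw =>
    upd_mem (mem_ball_self hr) hw
  have hcu : Continuous fun w : ℝ × ℝ => Function.update x k w :=
    continuous_const.update k continuous_id
  refine ⟨isOpen_ball, ?_, ?_, ?_⟩
  · have h1 : ContinuousOn (fun w : ℝ × ℝ => ψ (Function.update x k w)) (ball (x k) r) :=
      ψ.continuousOn.comp hcu.continuousOn fun w hw => hs.src (hup w hw)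
    exact (continuous_apply k).comp_continuousOn h1
  · intro w hw w' hw' hww
    have h1 : ∀ j : Fin m, j.1 < k.1 → Function.update x k w j = Function.update x k w' j := by
      intro j hj
      have hne : j ≠ k := fun h2 => absurd hj (by rw [h2]; exact lt_irrefl _)
      rw [Function.update_of_ne hne, Function.update_of_ne hne]
    have h2 := (h.flag k.1 _ (hs.src (hup w hw)) _ (hs.src (hup w' hw'))).1 h1
    have h3 : Ag (k.1 + 1) (ψ (Function.update x k w)) (ψ (Function.update x k w')) := by
      intro j hj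
      rcases lt_or_eq_of_le (Nat.lt_succ_iff.1 hj) with h4 | h4
      · exact h2 j h4
      · have h5 : j = k := Fin.ext h4
        rw [h5]
        exact hww
    have h4 := (h.flag (k.1 + 1) _ (hs.src (hup w hw)) _ (hs.src (hup w' hw'))).2 h3 k
      (Nat.lt_succ_self _)
    rw [Function.update_self, Function.update_self] at h4
    exact h4
  · intro W hW hWo
    have h1 : fk ψ x k '' W = (fun z : Sp m => z k) '' (ψ '' (ball x r ∩ {y | y k ∈ W})) := by
      ext z
      constructor
      · rintro ⟨w, hw, rfl⟩
        refine ⟨ψ (Function.update x k w), ⟨Function.update x k w, ⟨hup w (hW hw), ?_⟩, rfl⟩, rfl⟩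
        show Function.update x k w k ∈ W
        rw [Function.update_self]
        exact hw
      · rintro ⟨_, ⟨y, ⟨hy, hyW⟩, rfl⟩, rfl⟩
        exact ⟨y k, hyW, (fk_eq h hr hs hy).symm⟩
    rw [h1]
    refine isOpenMap_eval k _ (ψ.isOpen_image_of_subset_source ?_ ?_)
    · exact isOpen_ball.inter (hWo.preimage (continuous_apply k))
    · exact inter_subset_left.trans hs.src

end Pool.Agent.H65.FL
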