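import Pool.Agent.H65.FL.Defs
import Pool.Agent.H65.FL.Kno

set_option autoImplicit false

/-!
# Module Blk: symplectic maps which change one coordinate pair

`blk`: `F y = update (a + y) k (e (y k))` (coordinates `i ≠ k` are translated by `a i`). It is smooth and injective on `{y | y k ∈ D}`; its derivative at `y` maps `u` to `update u k (fderiv e (y k) (u k))` and the form is preserved as
`(L u).1 (L v).2 - (L u).2 (L v).1 = L.det * (u.1 v.2 - u.2 v.1)` for an endomorphism `L` of the plane (`det_plane`).
-/

namespace Pool.Agent.H65.FL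

open Set Metric MeasureTheory
open scoped ENNReal ContDiff
open Pool.Agent.H72.Symp (Sp omega ball1 cyl1 IsSympEmbedding Capacity CapacityChoice
  LocallyPreserves stab)

variable {m : ℕ}

private theorem blk_plane {M : ℝ × ℝ →L[ℝ] ℝ × ℝ} (hM : M.det = 1) (u v : ℝ × ℝ) :
    (M u).1 * (M v).2 - (M u).2 * (M v).1 = u.1 * v.2 - u.2 * v.1 := by
  have key : ∀ w : ℝ × ℝ, M w = w.1 • M (1, 0) + w.2 • M (0, 1) := by
    intro w
    rw [← map_smul, ← map_smul, ← map_add]
    congr 1
    ext <;> simp
  have hd := det_plane M
  rw [hM] at hd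
  rw [key u, key v]
  simp only [Prod.fst_add, Prod.snd_add, Prod.smul_fst, Prod.smul_snd, smul_eq_mul]
  linear_combination (-(u.1 * v.2 - u.2 * v.1)) * hd

theorem blk {e : ℝ × ℝ → ℝ × ℝ} {D U : Set (ℝ × ℝ)} (hD : IsOpen D) (he : Emb e D U) (k : Fin m)
    (a : Sp m) {W V : Set (Sp m)} (hW : IsOpen W) (hWD : ∀ y ∈ W, y k ∈ D)
    (hV : ∀ y ∈ W, Function.update (a + y) k (e (y k)) ∈ V) :
    IsSympEmbedding (fun y => Function.update (a + y) k (e (y k))) W V := by
  refine ⟨?_, ?_, hV, ?_⟩
  · rw [contDiffOn_pi]
    intro i
    by_cases hi : i = k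
    · subst hi
      have h1 : ContDiffOn ℝ ∞ (fun y : Sp m => e (y i)) W :=
        he.smooth.comp (contDiff_apply ℝ (ℝ × ℝ) i).contDiffOn hWD
      refine h1.congr fun y _ => ?_
      simp
    · have h1 : ContDiff ℝ ∞ (fun y : Sp m => a i + y i) :=
        contDiff_const.add (contDiff_apply ℝ (ℝ × ℝ) i)
      refine h1.contDiffOn.congr fun y _ => ?_
      simp [Function.update_of_ne hi]
  · intro y hy z hz h
    have h' : ∀ i, Function.update (a + y) k (e (y k)) i =
        Function.update (a + z) k (e (z k)) i := fun i => congrFun h i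
    funext i
    by_cases hi : i = k
    · subst hi
      have h1 := h' i
      rw [Function.update_self, Function.update_self] at h1
      exact he.inj (hWD y hy) (hWD z hz) h1
    · have h1 := h' i
      rw [Function.update_of_ne hi, Function.update_of_ne hi] at h1
      exact add_left_cancel h1
  · intro x hx u v
    have hed : HasFDerivAt e (fderiv ℝ e (x k)) (x k) := by
      have h1 : DifferentiableOn ℝ e D := he.smooth.differentiableOn (by simp)
      exact ((h1 (x k) (hWD x hx)).differentiableAt (hD.mem_nhds (hWD x hx))).hasFDerivAt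
    have hF : HasFDerivAt (fun y : Sp m => Function.update (a + y) k (e (y k)))
        (ContinuousLinearMap.pi fun i => if i = k then
          (fderiv ℝ e (x k)).comp (ContinuousLinearMap.proj k) else
          ContinuousLinearMap.proj i) x := by
      rw [hasFDerivAt_pi]
      intro i
      by_cases hi : i = k
      · subst hi
        rw [if_pos rfl]
        have h2 : HasFDerivAt (fun y : Sp m => y i)
            (ContinuousLinearMap.proj (R := ℝ) (φ := fun _ : Fin m => ℝ × ℝ) i) x :=
          (ContinuousLinearMap.proj (R := ℝ) (φ := fun _ : Fin m => ℝ × ℝ) i).hasFDerivAt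
        have h3 := HasFDerivAt.comp x hed h2
        refine h3.congr_of_eventuallyEq (Filter.Eventually.of_forall fun y => ?_)
        simp
      · rw [if_neg hi]
        have h2 : HasFDerivAt (fun y : Sp m => y i)
            (ContinuousLinearMap.proj (R := ℝ) (φ := fun _ : Fin m => ℝ × ℝ) i) x :=
          (ContinuousLinearMap.proj (R := ℝ) (φ := fun _ : Fin m => ℝ × ℝ) i).hasFDerivAt
        refine (h2.const_add (a i)).congr_of_eventuallyEq (Filter.Eventually.of_forall fun y => ?_)
        simp [Function.update_of_ne hi]
    rw [hF.fderiv]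
    unfold omega
    refine Finset.sum_congr rfl fun i _ => ?_
    by_cases hi : i = k
    · subst hi
      simp only [ContinuousLinearMap.pi_apply, if_true, ContinuousLinearMap.comp_apply,
        ContinuousLinearMap.proj_apply]
      exact blk_plane (he.det (x i) (hWD x hx)) (u i) (v i)
    · simp only [ContinuousLinearMap.pi_apply, if_neg hi, ContinuousLinearMap.proj_apply]

end Pool.Agent.H65.FL
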