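import Pool.Agent.H65.FL.PDefs
import Pool.Agent.H36.CSymp.Stab

set_option autoImplicit false

/-!
# Flags of symplectic foliations; capacity preserving local homeomorphisms that respect them
-/

namespace Pool.Agent.H65.FL

open Set Metric MeasureTheory
open scoped ENNReal ContDiff
open Pool.Agent.H72.Symp (Sp omega ball1 cyl1 IsSympEmbedding Capacity CapacityChoice
  LocallyPreserves stab)

/-- The first `k` coordinate pairs of `u` and `v` agree: `u` and `v` are on the same leaf of the
foliation of `R^{2m}` by the symplectic planes on which `(x_j, y_j)` is constant for `j < k`. -/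
def Ag {m : ℕ} (k : ℕ) (u v : Sp m) : Prop := ∀ j : Fin m, j.1 < k → u j = v j

/-- Near `x`, the homeomorphism `φ` maps a flag of symplectic foliations of Darboux type to a flag of
such foliations: there are smooth symplectic charts `σ` of a neighbourhood `U` of `x` and `τ` of
`φ(U)` such that for every `k` and all `y`, `z` in `U` the first `k` coordinate pairs of `σ(y)` and
`σ(z)` agree if and only if the first `k` coordinate pairs of `τ(φ(y))` and `τ(φ(z))` agree. -/
def FlagAt {m : ℕ} (φ : Sp m ≃ₜ Sp m) (x : Sp m) : Prop :=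
  ∃ U, IsOpen U ∧ x ∈ U ∧ ∃ σ τ : Sp m → Sp m,
    IsSympEmbedding σ U Set.univ ∧ IsSympEmbedding τ (φ '' U) Set.univ ∧
      ∀ k, ∀ y ∈ U, ∀ z ∈ U, (Ag k (σ y) (σ z) ↔ Ag k (τ (φ y)) (τ (φ z)))

/-- local homeomorphisms which preserve the capacity and the flags -/
structure CM {m : ℕ} [NeZero m] (c : Capacity m) (ψ : OpenPartialHomeomorph (Sp m) (Sp m)) :
    Prop where
  cap : ∀ W ⊆ ψ.source, IsOpen W → c.val (ψ '' W) = c.val W
  flag : ∀ k, ∀ y ∈ ψ.source, ∀ z ∈ ψ.source, (Ag k y z ↔ Ag k (ψ y) (ψ z))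

/-- the component `j` of `ψ` as a function of the coordinate pair `j` -/
def fk {m : ℕ} (ψ : Sp m → Sp m) (x : Sp m) (j : Fin m) (w : ℝ × ℝ) : ℝ × ℝ :=
  ψ (Function.update x j w) j

/-- on the cube `ball x r` the map `ψ` is split up to `k`: for `j < k` the component `j` depends only
on the coordinate pair `j` and is area preserving; the other components do not depend on the first
`k` coordinate pairs -/
structure Spl {m : ℕ} (ψ : OpenPartialHomeomorph (Sp m) (Sp m)) (x : Sp m) (r : ℝ) (k : ℕ) :
    Prop where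
  src : ball x r ⊆ ψ.source
  own : ∀ j : Fin m, j.1 < k → ∀ y ∈ ball x r, ∀ z ∈ ball x r, y j = z j → ψ y j = ψ z j
  tail : ∀ y ∈ ball x r, ∀ z ∈ ball x r, (∀ j : Fin m, k ≤ j.1 → y j = z j) →
    ∀ j : Fin m, k ≤ j.1 → ψ y j = ψ z j
  area : ∀ j : Fin m, j.1 < k → ∀ E ⊆ ball (x j) r, MeasurableSet E →
    volume (fk ψ x j '' E) = volume E

end Pool.Agent.H65.FL
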