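import Pool.Agent.H65.FL.Defs

set_option autoImplicit false

/-!
# Module Vol: products of area preserving maps

`vol_of_spl`. PROOF. On `ball x r`: `ψ y = fun j => f j (y j)`, `f j = fk ψ x j` (`own`: `y` and `update x j (y j)` have the same coordinate pair `j`). `ball x r = Set.pi univ fun j => ball (x j) r`. The measure
`μ' A = volume (ψ '' (A ∩ ball x r))` (`Measure.map ψ.symm` of a restriction, or `Measure.comap`; or only the values on measurable sets via `MeasureTheory.Measure.map` of `volume.restrict (ψ '' ball x r)` under `ψ.symm`) satisfies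
`μ' (pi univ s) = ∏ volume (f j '' (s j ∩ ball (x j) r)) = ∏ (volume.restrict (ball (x j) r)) (s j)`, because `ψ '' (pi univ s ∩ ball x r) = pi univ fun j => f j '' (s j ∩ ball (x j) r)`, so `μ' = Measure.pi _` (`Measure.pi_eq`)
`= volume.restrict (ball x r)` (`Measure.restrict_pi_pi`).
-/

namespace Pool.Agent.H65.FL

open Set Metric MeasureTheory
open scoped ENNReal ContDiff
open Pool.Agent.H72.Symp (Sp omega ball1 cyl1 IsSympEmbedding Capacity CapacityChoice
  LocallyPreserves stab)

variable {m : ℕ} {ψ : OpenPartialHomeomorph (Sp m) (Sp m)}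

private theorem Vol_upd {x y : Sp m} {r : ℝ} (hr : 0 < r) (hy : y ∈ ball x r) (j : Fin m) :
    Function.update x j (y j) ∈ ball x r := by
  rw [ball_pi x hr] at hy ⊢
  intro k _
  by_cases h : k = j
  · subst h
    rw [Function.update_self]
    exact hy k (mem_univ k)
  · rw [Function.update_of_ne h]
    exact mem_ball_self hr

private theorem Vol_fk {x : Sp m} {r : ℝ} (hr : 0 < r) (hs : Spl ψ x r m) {y : Sp m} (hy : y ∈ ball x r)
    (j : Fin m) : ψ y j = fk ψ x j (y j) :=
  hs.own j j.2 y hy _ (Vol_upd hr hy j) (by rw [Function.update_self])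

private theorem Vol_img {x : Sp m} {r : ℝ} (hr : 0 < r) (hs : Spl ψ x r m) (s : Fin m → Set (ℝ × ℝ)) :
    ψ '' (Set.pi univ s ∩ ball x r) = Set.pi univ fun j => fk ψ x j '' (s j ∩ ball (x j) r) := by
  ext z
  constructor
  · rintro ⟨y, ⟨hy, hyb⟩, rfl⟩ j _
    refine ⟨y j, ⟨hy j (mem_univ j), ?_⟩, (Vol_fk hr hs hyb j).symm⟩
    have h := hyb
    rw [ball_pi x hr] at h
    exact h j (mem_univ j)
  · intro hz
    choose w hw hwz using fun j => hz j (mem_univ j)
    have hwb : (w : Sp m) ∈ ball x r := by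
      rw [ball_pi x hr]
      exact fun j _ => (hw j).2
    refine ⟨w, ⟨fun j _ => (hw j).1, hwb⟩, ?_⟩
    funext j
    rw [Vol_fk hr hs hwb j]
    exact hwz j

theorem vol_of_spl {x : Sp m} {r : ℝ} (hr : 0 < r) (hs : Spl ψ x r m) :
    ∀ A ⊆ ball x r, MeasurableSet A → volume (ψ '' A) = volume A := by
  have hB : MeasurableSet (ψ '' ball x r) :=
    (ψ.isOpen_image_of_subset_source isOpen_ball hs.src).measurableSet
  have hsub : ψ '' ball x r ⊆ ψ.target := by
    rintro z ⟨y, hy, rfl⟩
    exact ψ.map_source (hs.src hy)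
  have hae : AEMeasurable ψ.symm (volume.restrict (ψ '' ball x r)) :=
    (ψ.continuousOn_symm.mono hsub).aemeasurable hB
  have hval : ∀ A : Set (Sp m), MeasurableSet A →
      Measure.map ψ.symm (volume.restrict (ψ '' ball x r)) A = volume (ψ '' (A ∩ ball x r)) := by
    intro A hA
    rw [Measure.map_apply_of_aemeasurable hae hA, Measure.restrict_apply' hB]
    congr 1
    ext z
    constructor
    · rintro ⟨h1, y, hy, rfl⟩
      have h2 : ψ.symm (ψ y) ∈ A := h1
      rw [ψ.left_inv (hs.src hy)] at h2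
      exact ⟨y, ⟨h2, hy⟩, rfl⟩
    · rintro ⟨y, ⟨hyA, hy⟩, rfl⟩
      refine ⟨?_, y, hy, rfl⟩
      change ψ.symm (ψ y) ∈ A
      rw [ψ.left_inv (hs.src hy)]
      exact hyA
  have hpi : Measure.pi (fun j : Fin m => (volume : Measure (ℝ × ℝ)).restrict (ball (x j) r)) =
      Measure.map ψ.symm (volume.restrict (ψ '' ball x r)) := by
    refine Measure.pi_eq fun s hms => ?_
    rw [hval _ (MeasurableSet.univ_pi hms), Vol_img hr hs]
    change Measure.pi (fun _ : Fin m => (volume : Measure (ℝ × ℝ))) _ = _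
    rw [Measure.pi_pi]
    refine Finset.prod_congr rfl fun j _ => ?_
    rw [hs.area j j.2 _ inter_subset_right ((hms j).inter measurableSet_ball),
      Measure.restrict_apply (hms j)]
  intro A hA hmA
  have h1 := hval A hmA
  rw [← hpi, inter_eq_self_of_subset_left hA] at h1
  rw [← h1, ← Measure.restrict_pi_pi, ← ball_pi x hr, Measure.restrict_apply hmA,
    inter_eq_self_of_subset_left hA]
  rfl

end Pool.Agent.H65.FL
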