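import Pool.Agent.H65.FL.Ind
import Pool.Agent.H65.FL.Vol

set_option autoImplicit false

/-!
# Module Fin: the theorem

`flag_stab`: as `lagrangian_stab` in `Pool/Agent/H36/CSymp/Stab.lean` with the charts `stC σ`, `stC τ`: for `k ≤ n` the first `k` coordinate pairs of `stC σ y` are those of `σ (initL n y)`; for `k ≥ n + 1` both sides say that the points are equal
(`stC σ`, `stC τ` and `stab φ` are injective on the sets).
`local_vol`: as `local_volume` in `Pool/Agent/H36/CSymp/Core.lean`: `ψ = (chart hU hσ).symm.trans (φ.toOpenPartialHomeomorph.trans (chart _ hτ))` is `CM` (`chart_cap` twice), `spl_all`, `vol_of_spl`, `chart_vol`.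
`core`: as `core` in `Pool/Agent/H36/CSymp/Core.lean`.
-/

namespace Pool.Agent.H65.FL

open Set Metric MeasureTheory
open scoped ENNReal ContDiff
open Pool.Agent.H72.Symp (Sp omega ball1 cyl1 IsSympEmbedding Capacity CapacityChoice
  LocallyPreserves stab)
open Pool.Agent.H36.CSymp (initL stC chart chart_source chart_target chart_cap chart_vol
  IsSympEmbedding.mono' stC_embedding initL_stab stab_last ext_last snocL_castSucc snocL_last
  initL_apply)

private theorem Fin_ag_stC {n : ℕ} {σ : Sp n → Sp n} {k : ℕ} (x y : Sp (n + 1)) :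
    Ag k (stC σ x) (stC σ y) ↔ Ag k (σ (initL n x)) (σ (initL n y)) ∧
      (n < k → x (Fin.last n) = y (Fin.last n)) := by
  constructor
  · intro h
    refine ⟨fun j hj => ?_, fun hk => ?_⟩
    · have := h j.castSucc hj
      simpa only [stC, snocL_castSucc] using this
    · have := h (Fin.last n) (by simpa using hk)
      simpa only [stC, snocL_last] using this
  · rintro ⟨h1, h2⟩ i
    induction i using Fin.lastCases with
    | last =>
      intro hi
      simpa only [stC, snocL_last] using h2 (by simpa using hi)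
    | cast j =>
      intro hj
      simpa only [stC, snocL_castSucc] using h1 j hj

theorem flag_stab {n : ℕ} {φ : Sp n ≃ₜ Sp n} {x : Sp (n + 1)} (h : FlagAt φ (initL n x)) :
    FlagAt (stab φ) x := by
  obtain ⟨U, hU, hx, σ, τ, hσ, hτ, hL⟩ := h
  have himg : stab φ '' (initL n ⁻¹' U) = initL n ⁻¹' (φ '' U) := by
    ext y
    constructor
    · rintro ⟨z, hz, rfl⟩
      rw [mem_preimage, initL_stab]
      exact ⟨_, hz, rfl⟩
    · rintro ⟨z, hz, hzy⟩
      refine ⟨(stab φ).symm y, ?_, (stab φ).apply_symm_apply y⟩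
      rw [mem_preimage]
      have h1 := initL_stab φ ((stab φ).symm y)
      rw [(stab φ).apply_symm_apply, ← hzy] at h1
      rw [← φ.injective h1]
      exact hz
  refine ⟨initL n ⁻¹' U, hU.preimage (initL n).continuous, hx, stC σ, stC τ,
    stC_embedding hU hσ, ?_, fun k y hy z hz => ?_⟩
  · rw [himg]
    exact stC_embedding (φ.isOpenMap U hU) hτ
  · rw [Fin_ag_stC, Fin_ag_stC, initL_stab, initL_stab, stab_last, stab_last,
      hL _ _ hy _ hz]

theorem local_vol {m : ℕ} [NeZero m] {c : Capacity m} {φ : Sp m ≃ₜ Sp m}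
    (hφ : LocallyPreserves c φ) {x : Sp m} (hx : FlagAt φ x) :
    ∃ O, IsOpen O ∧ x ∈ O ∧ ∀ A ⊆ O, MeasurableSet A → volume (φ '' A) = volume A := by
  obtain ⟨U1, hU1, hx1, h1⟩ := hφ x
  obtain ⟨U2, hU2, hx2, σ, τ, hσ₀, hτ₀, hL⟩ := hx
  set U := U1 ∩ U2 with hUd
  have hU : IsOpen U := hU1.inter hU2
  have hxU : x ∈ U := ⟨hx1, hx2⟩
  have hσ : IsSympEmbedding σ U univ := IsSympEmbedding.mono' hσ₀ inter_subset_right
  have hτ : IsSympEmbedding τ (φ '' U) univ :=
    IsSympEmbedding.mono' hτ₀ (image_mono inter_subset_right)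
  have hφU : IsOpen (φ '' U) := φ.isOpenMap U hU
  set ψ : OpenPartialHomeomorph (Sp m) (Sp m) :=
    (chart hU hσ).symm.trans (φ.toOpenPartialHomeomorph.trans (chart hφU hτ)) with hψ
  have happ : ∀ y ∈ U, ψ (σ y) = τ (φ y) := by
    intro y hy
    have e1 : (chart hU hσ).symm (σ y) = y := (chart hU hσ).left_inv hy
    show τ (φ ((chart hU hσ).symm (σ y))) = τ (φ y)
    rw [e1]
  have hsrc : ∀ y, y ∈ ψ.source ↔ ∃ z ∈ U, σ z = y := by
    intro y
    constructor
    · intro hy
      simp only [hψ, OpenPartialHomeomorph.trans_source, OpenPartialHomeomorph.symm_source,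
        chart_target, mem_inter_iff] at hy
      obtain ⟨⟨z, hz, hzy⟩, -⟩ := hy
      exact ⟨z, hz, hzy⟩
    · rintro ⟨z, hz, rfl⟩
      have e1 : (chart hU hσ).symm (σ z) = z := (chart hU hσ).left_inv hz
      simp only [hψ, OpenPartialHomeomorph.trans_source, OpenPartialHomeomorph.symm_source,
        chart_target, chart_source, mem_inter_iff, mem_preimage,
        Homeomorph.toOpenPartialHomeomorph_source, mem_univ, true_and]
      refine ⟨⟨z, hz, rfl⟩, ?_⟩
      show φ ((chart hU hσ).symm (σ z)) ∈ φ '' U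
      rw [e1]
      exact ⟨z, hz, rfl⟩
  have hCM : CM c ψ := by
    refine ⟨fun W hW ho => ?_, fun k y hy z hz => ?_⟩
    · set W0 : Set (Sp m) := U ∩ σ ⁻¹' W with hW0
      have hW0o : IsOpen W0 := hσ.smooth.continuousOn.isOpen_inter_preimage hU ho
      have h3 : σ '' W0 = W := by
        ext y
        constructor
        · rintro ⟨z, hz, rfl⟩
          exact hz.2
        · intro hy
          obtain ⟨z, hz, rfl⟩ := (hsrc y).1 (hW hy)
          exact ⟨z, ⟨hz, hy⟩, rfl⟩
      have h4 : τ '' (φ '' W0) = ψ '' W := by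
        rw [← h3]
        simp only [image_image]
        exact image_congr fun y hy => (happ y hy.1).symm
      rw [← h4, chart_cap c hφU hτ (image_mono inter_subset_left) (φ.isOpenMap _ hW0o),
        h1 W0 hW0o (inter_subset_left.trans inter_subset_left),
        ← chart_cap c hU hσ inter_subset_left hW0o, h3]
    · obtain ⟨y', hy', rfl⟩ := (hsrc y).1 hy
      obtain ⟨z', hz', rfl⟩ := (hsrc z).1 hz
      rw [happ _ hy', happ _ hz']
      exact hL k y' hy'.2 z' hz'.2
  obtain ⟨r, hr, hs⟩ := spl_all hCM ((hsrc _).2 ⟨x, hxU, rfl⟩)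
  have hvol := vol_of_spl hr hs
  refine ⟨U ∩ σ ⁻¹' ball (σ x) r,
    hσ.smooth.continuousOn.isOpen_inter_preimage hU isOpen_ball,
    ⟨hxU, mem_ball_self hr⟩, fun A hA hAm => ?_⟩
  have hAU : A ⊆ U := hA.trans inter_subset_left
  have hσA : MeasurableSet (σ '' A) := hAm.image_of_continuousOn_injOn
    (hσ.smooth.continuousOn.mono hAU) (hσ.inj.mono hAU)
  have hφA : MeasurableSet (φ '' A) := φ.toMeasurableEquiv.measurableEmbedding.measurableSet_image.2
    hAm
  have h2 := hvol (σ '' A) (by
    rintro _ ⟨y, hy, rfl⟩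
    exact (hA hy).2) hσA
  have h3 : ψ '' (σ '' A) = τ '' (φ '' A) := by
    simp only [image_image]
    exact image_congr fun y hy => happ y (hAU hy)
  rw [h3, chart_vol hU hσ hAU hAm, chart_vol hφU hτ (image_mono hAU) hφA] at h2
  exact h2

theorem core {m : ℕ} [NeZero m] {c : Capacity m} {φ : Sp m ≃ₜ Sp m}
    (hφ : LocallyPreserves c φ) {A : Set (Sp m)} (hA : MeasurableSet A)
    (hL : ∀ x ∈ A, FlagAt φ x) : volume (φ '' A) = volume A := by
  have h1 : ∀ x : Sp m, x ∈ A → ∃ O, IsOpen O ∧ x ∈ O ∧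
      ∀ A ⊆ O, MeasurableSet A → volume (φ '' A) = volume A := fun x hx =>
    local_vol hφ (hL x hx)
  choose! O hO hxO hvol using h1
  obtain ⟨t, htA, htc, ht⟩ := TopologicalSpace.countable_cover_nhdsWithin (s := A) (f := O)
    (fun x hx => mem_nhdsWithin_of_mem_nhds ((hO x hx).mem_nhds (hxO x hx)))
  set μ : Measure (Sp m) := volume.map φ.symm with hμ
  have hμA : ∀ B, MeasurableSet B → μ B = volume (φ '' B) := fun B hB => by
    rw [hμ, Measure.map_apply φ.symm.continuous.measurable hB]
    congr 1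
    exact (φ.image_eq_preimage_symm B).symm
  have h2 : μ.restrict (⋃ x ∈ t, O x) = volume.restrict (⋃ x ∈ t, O x) := by
    rw [Measure.restrict_biUnion_congr htc]
    intro x hx
    ext B hB
    rw [Measure.restrict_apply hB, Measure.restrict_apply hB,
      hμA _ (hB.inter (hO x (htA hx)).measurableSet)]
    exact hvol x (htA hx) _ inter_subset_right (hB.inter (hO x (htA hx)).measurableSet)
  have h3 := congrArg (fun ν : Measure (Sp m) => ν A) h2
  simp only [Measure.restrict_apply hA] at h3
  rw [inter_eq_left.2 ht, hμA A hA] at h3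
  exact h3

theorem main (c : CapacityChoice) (n : ℕ) [NeZero n] (φ : Sp n ≃ₜ Sp n)
    (hφ : (Odd n → LocallyPreserves (c n) φ) ∧
      (Even n → LocallyPreserves (c (n + 1)) (stab φ)))
    (A : Set (Sp n)) (hA : MeasurableSet A) (hL : ∀ x ∈ A, FlagAt φ x) :
    volume (φ '' A) = volume A := by
  rcases Nat.even_or_odd n with h | h
  · refine Pool.Agent.H36.CSymp.descend φ hA fun B hB hBA => ?_
    exact core (hφ.2 h) hB fun x hx => flag_stab (hBA x hx |> hL _)
  · exact core (hφ.1 h) hA hL

end Pool.Agent.H65.FL
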