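import Pool.Agent.H65.FL.Rig

set_option autoImplicit false

/-!
# Module Rih: rigidity

PROOF. `B = ball (x k) r`, `q = f (x k)`. Choose `s₀ > 0` with `closedBall q (2 s₀) ⊆ f '' B` (open set, sup norm: closed balls are products of closed intervals) and `r' ≤ r` with `f '' ball (x k) r' ⊆ ball q s₀` (continuity). Let
`y ∈ ball x r'`, `w ∈ ball (x k) r'`, `f (y k) = (a, p)`, `f w = (b, p')`, all within `s₀` of the coordinates of `q`. Let `w₁ ∈ B` with `f w₁ = (b, p)`. (1) `ψ (update y k (y k)) j = ψ (update y k w₁) j`: trivial if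
`a = b` (then `w₁ = y k`), and otherwise `rig_h` with the rectangle between `a` and `b` (in the right order) and `[p, p + s₀]`. `update y k (y k) = y`. (2) `ψ (update y k w₁) j = ψ (update y k w) j`: trivial if `p = p'`; otherwise apply `rig_h` to
`ψ' z = update (ψ z) k (-(ψ z k).2, (ψ z k).1)` and `f' w = (-(f w).2, (f w).1)`: `hv` by `cap_rot` (images of images), `hfa` because `(u, v) ↦ (-v, u)` preserves the area (`Measure.map`/linear map of determinant one:
`MeasureTheory.Measure.addHaar_image_linearMap` or `volume_preserving` facts), `ψ' z j = ψ z j` as `j ≠ k`; `f' w₁ = (-p, b)`, `f' w = (-p', b)`, rectangle between `-p` and `-p'`, and `[b, b + s₀]`: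
its points are `(-v, u)` with `(u, v)` within `2 s₀` of `q`.
-/

namespace Pool.Agent.H65.FL

open Set Metric MeasureTheory
open scoped ENNReal ContDiff
open Pool.Agent.H72.Symp (Sp omega ball1 cyl1 IsSympEmbedding Capacity CapacityChoice
  LocallyPreserves stab)

variable {m : ℕ} [NeZero m]

omit [NeZero m] in
private lemma rih_rot_image (S : Set (ℝ × ℝ)) :
    (fun p : ℝ × ℝ => (-p.2, p.1)) '' S = (fun p : ℝ × ℝ => (p.2, -p.1)) ⁻¹' S := by
  ext ⟨u, v⟩
  simp only [mem_image, mem_preimage, Prod.mk.injEq, Prod.exists]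
  constructor
  · rintro ⟨a, b, h, rfl, rfl⟩
    simpa using h
  · intro h
    exact ⟨v, -u, h, by simp, rfl⟩

omit [NeZero m] in
private lemma rih_rot_cont : Continuous (fun p : ℝ × ℝ => (p.2, -p.1)) := by fun_prop

omit [NeZero m] in
private lemma rih_rot_mp : MeasurePreserving (fun p : ℝ × ℝ => (p.2, -p.1)) volume volume := by
  have h1 : MeasurePreserving (Prod.swap : ℝ × ℝ → ℝ × ℝ) volume volume :=
    Measure.measurePreserving_swap
  have h2 : MeasurePreserving (Prod.map (id : ℝ → ℝ) (fun t : ℝ => -t)) (volume : Measure (ℝ × ℝ))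
      volume :=
    (MeasurePreserving.id (volume : Measure ℝ)).prod (Measure.measurePreserving_neg (volume : Measure ℝ))
  exact h2.comp h1

private lemma rih_h (c : Capacity m) {ψ : Sp m → Sp m} {x : Sp m} {r : ℝ} (hr : 0 < r)
    (hc : ContinuousOn ψ (ball x r))
    (hv : ∀ W ⊆ ball x r, IsOpen W → IsOpen (ψ '' W) ∧ c.val (ψ '' W) = c.val W)
    {k j : Fin m} (hkj : k ≠ j) {f : ℝ × ℝ → ℝ × ℝ} (hf : OE f (ball (x k) r))
    (hfa : ∀ E ⊆ ball (x k) r, MeasurableSet E → volume (f '' E) = volume E)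
    (hk : ∀ y ∈ ball x r, ψ y k = f (y k))
    (ht : ∀ y ∈ ball x r, ∀ z ∈ ball x r, (∀ i : Fin m, k.1 ≤ i.1 → y i = z i) → ψ y j = ψ z j)
    {q : ℝ × ℝ} {s₀ : ℝ} (hs₀ : 0 < s₀)
    (hbox : ∀ u v, |u - q.1| ≤ 2 * s₀ → |v - q.2| ≤ 2 * s₀ → (u, v) ∈ f '' ball (x k) r)
    {y : Sp m} (hy : y ∈ ball x r) {w w' : ℝ × ℝ} (hw : w ∈ ball (x k) r)
    (hw' : w' ∈ ball (x k) r) (h1 : |(f w).1 - q.1| ≤ s₀) (h2 : |(f w').1 - q.1| ≤ s₀)
    (h3 : |(f w).2 - q.2| ≤ s₀) (h4 : (f w).2 = (f w').2) :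
    ψ (Function.update y k w) j = ψ (Function.update y k w') j := by
  rw [abs_le] at h1 h2 h3
  rcases lt_trichotomy (f w).1 (f w').1 with h | h | h
  · refine rig_h c hr hc hv hkj hf hfa hk ht hy h (s := (f w).2) (t := (f w).2 + s₀)
      (by linarith) ?_ hw hw' rfl (Prod.ext rfl h4.symm)
    rintro ⟨u, v⟩ ⟨hu, hv'⟩
    simp only [mem_Icc] at hu hv'
    apply hbox
    · rw [abs_le]; constructor <;> linarith [hu.1, hu.2]
    · rw [abs_le]; constructor <;> linarith [hv'.1, hv'.2]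
  · rw [hf.inj hw hw' (Prod.ext h h4)]
  · refine (rig_h c hr hc hv hkj hf hfa hk ht hy h (s := (f w).2) (t := (f w).2 + s₀)
      (by linarith) ?_ hw' hw (Prod.ext rfl h4.symm) rfl).symm
    rintro ⟨u, v⟩ ⟨hu, hv'⟩
    simp only [mem_Icc] at hu hv'
    apply hbox
    · rw [abs_le]; constructor <;> linarith [hu.1, hu.2]
    · rw [abs_le]; constructor <;> linarith [hv'.1, hv'.2]

private lemma rih_v (c : Capacity m) {ψ : Sp m → Sp m} {x : Sp m} {r : ℝ} (hr : 0 < r)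
    (hc : ContinuousOn ψ (ball x r))
    (hv : ∀ W ⊆ ball x r, IsOpen W → IsOpen (ψ '' W) ∧ c.val (ψ '' W) = c.val W)
    {k j : Fin m} (hkj : k ≠ j) {f : ℝ × ℝ → ℝ × ℝ} (hf : OE f (ball (x k) r))
    (hfa : ∀ E ⊆ ball (x k) r, MeasurableSet E → volume (f '' E) = volume E)
    (hk : ∀ y ∈ ball x r, ψ y k = f (y k))
    (ht : ∀ y ∈ ball x r, ∀ z ∈ ball x r, (∀ i : Fin m, k.1 ≤ i.1 → y i = z i) → ψ y j = ψ z j)
    {q : ℝ × ℝ} {s₀ : ℝ} (hs₀ : 0 < s₀)
    (hbox : ∀ u v, |u - q.1| ≤ 2 * s₀ → |v - q.2| ≤ 2 * s₀ → (u, v) ∈ f '' ball (x k) r)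
    {y : Sp m} (hy : y ∈ ball x r) {w w' : ℝ × ℝ} (hw : w ∈ ball (x k) r)
    (hw' : w' ∈ ball (x k) r) (h1 : |(f w).2 - q.2| ≤ s₀) (h2 : |(f w').2 - q.2| ≤ s₀)
    (h3 : |(f w).1 - q.1| ≤ s₀) (h4 : (f w).1 = (f w').1) :
    ψ (Function.update y k w) j = ψ (Function.update y k w') j := by
  set ψ' : Sp m → Sp m := fun z => Function.update (ψ z) k (-(ψ z k).2, (ψ z k).1) with hψ'
  set f' : ℝ × ℝ → ℝ × ℝ := fun w => (-(f w).2, (f w).1) with hf'
  have im : ∀ W : Set (ℝ × ℝ), f' '' W = (fun p : ℝ × ℝ => (-p.2, p.1)) '' (f '' W) := by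
    intro W
    rw [image_image]
  have hj : ∀ z, ψ' z j = ψ z j := fun z => Function.update_of_ne (Ne.symm hkj) _ _
  have hR : Continuous (fun z : Sp m => Function.update z k (-(z k).2, (z k).1)) := by
    apply Continuous.update continuous_id
    fun_prop
  have hc' : ContinuousOn ψ' (ball x r) := hR.comp_continuousOn hc
  have hv' : ∀ W ⊆ ball x r, IsOpen W → IsOpen (ψ' '' W) ∧ c.val (ψ' '' W) = c.val W := by
    intro W hW hWo
    obtain ⟨a1, a2⟩ := hv W hW hWo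
    obtain ⟨b1, b2⟩ := cap_rot c k a1
    have e : ψ' '' W = (fun z : Sp m => Function.update z k (-(z k).2, (z k).1)) '' (ψ '' W) := by
      rw [image_image]
    rw [e]
    exact ⟨b1, b2.trans a2⟩
  have hfo : OE f' (ball (x k) r) := by
    refine ⟨hf.isOpen, ?_, ?_, ?_⟩
    · have : Continuous (fun p : ℝ × ℝ => (-p.2, p.1)) := by fun_prop
      exact this.comp_continuousOn hf.cont
    · intro a ha b hb hab
      apply hf.inj ha hb
      have e1 := congrArg Prod.fst hab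
      have e2 := congrArg Prod.snd hab
      simp only [hf', neg_inj] at e1 e2
      exact Prod.ext e2 e1
    · intro W hW hWo
      rw [im, rih_rot_image]
      exact (hf.opn W hW hWo).preimage rih_rot_cont
  have hfa' : ∀ E ⊆ ball (x k) r, MeasurableSet E → volume (f' '' E) = volume E := by
    intro E hE hEm
    rw [im, rih_rot_image, rih_rot_mp.measure_preimage, hfa E hE hEm]
    exact (hEm.image_of_continuousOn_injOn (hf.cont.mono hE) (hf.inj.mono hE)).nullMeasurableSet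
  have hk' : ∀ y ∈ ball x r, ψ' y k = f' (y k) := by
    intro y hy
    simp only [hψ', hf', Function.update_self, hk y hy]
  have ht' : ∀ y ∈ ball x r, ∀ z ∈ ball x r, (∀ i : Fin m, k.1 ≤ i.1 → y i = z i) →
      ψ' y j = ψ' z j := by
    intro y hy z hz h
    rw [hj, hj]
    exact ht y hy z hz h
  have hbox' : ∀ u v, |u - (-q.2, q.1).1| ≤ 2 * s₀ → |v - (-q.2, q.1).2| ≤ 2 * s₀ →
      (u, v) ∈ f' '' ball (x k) r := by
    intro u v hu hv
    simp only [sub_neg_eq_add] at hu hv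
    obtain ⟨w, hw, e⟩ := hbox v (-u) hv (by rw [← abs_neg]; simpa [add_comm] using hu)
    exact ⟨w, hw, by simp [hf', e]⟩
  have key := rih_h c hr hc' hv' hkj hfo hfa' hk' ht' hs₀ hbox' hy hw hw'
    (by simp only [hf', sub_neg_eq_add]; rw [← abs_neg]; simpa [sub_eq_add_neg, add_comm] using h1)
    (by simp only [hf', sub_neg_eq_add]; rw [← abs_neg]; simpa [sub_eq_add_neg, add_comm] using h2)
    (by simpa only [hf'] using h3) (by simpa only [hf'] using h4)
  rw [hj, hj] at key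
  exact key

theorem rig (c : Capacity m) {ψ : Sp m → Sp m} {x : Sp m} {r : ℝ} (hr : 0 < r)
    (hc : ContinuousOn ψ (ball x r))
    (hv : ∀ W ⊆ ball x r, IsOpen W → IsOpen (ψ '' W) ∧ c.val (ψ '' W) = c.val W)
    {k j : Fin m} (hkj : k ≠ j) {f : ℝ × ℝ → ℝ × ℝ} (hf : OE f (ball (x k) r))
    (hfa : ∀ E ⊆ ball (x k) r, MeasurableSet E → volume (f '' E) = volume E)
    (hk : ∀ y ∈ ball x r, ψ y k = f (y k))
    (ht : ∀ y ∈ ball x r, ∀ z ∈ ball x r, (∀ i : Fin m, k.1 ≤ i.1 → y i = z i) →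
      ψ y j = ψ z j) :
    ∃ r' > 0, r' ≤ r ∧ ∀ y ∈ ball x r', ∀ w ∈ ball (x k) r',
      ψ (Function.update y k w) j = ψ y j := by
  set q : ℝ × ℝ := f (x k) with hq
  have hx : x k ∈ ball (x k) r := mem_ball_self hr
  have ho : IsOpen (f '' ball (x k) r) := hf.opn _ Subset.rfl hf.isOpen
  obtain ⟨s₁, hs₁, hsub⟩ := Metric.isOpen_iff.1 ho q (mem_image_of_mem f hx)
  set s₀ : ℝ := s₁ / 4 with hs
  have hs₀ : 0 < s₀ := by positivity
  have hbox : ∀ u v, |u - q.1| ≤ 2 * s₀ → |v - q.2| ≤ 2 * s₀ → (u, v) ∈ f '' ball (x k) r := by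
    intro u v hu hv
    apply hsub
    rw [mem_ball, Prod.dist_eq, max_lt_iff, Real.dist_eq, Real.dist_eq]
    constructor <;> simp only <;> linarith
  have hca : ContinuousAt f (x k) := hf.cont.continuousAt (hf.isOpen.mem_nhds hx)
  obtain ⟨δ, hδ, hd⟩ := Metric.continuousAt_iff.1 hca s₀ hs₀
  have nb : ∀ w ∈ ball (x k) (min δ r), |(f w).1 - q.1| ≤ s₀ ∧ |(f w).2 - q.2| ≤ s₀ := by
    intro w hw
    have h := hd (lt_of_lt_of_le (mem_ball.1 hw) (min_le_left _ _))
    rw [Prod.dist_eq, max_lt_iff, Real.dist_eq, Real.dist_eq] at h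
    exact ⟨h.1.le, h.2.le⟩
  refine ⟨min δ r, lt_min hδ hr, min_le_right _ _, ?_⟩
  intro y hy w hw
  have hyk : y k ∈ ball (x k) (min δ r) :=
    lt_of_le_of_lt (dist_le_pi_dist y x k) (mem_ball.1 hy)
  have hy' : y ∈ ball x r := ball_subset_ball (min_le_right _ _) hy
  have hyk' : y k ∈ ball (x k) r := ball_subset_ball (min_le_right _ _) hyk
  have hw' : w ∈ ball (x k) r := ball_subset_ball (min_le_right _ _) hw
  obtain ⟨n1, n2⟩ := nb _ hyk
  obtain ⟨n3, n4⟩ := nb _ hw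
  obtain ⟨w₁, hw₁, e₁⟩ := hbox (f w).1 (f (y k)).2 (by linarith) (by linarith)
  have st1 := rih_h c hr hc hv hkj hf hfa hk ht hs₀ hbox hy' hyk' hw₁ n1 (by rw [e₁]; exact n3) n2
    (by rw [e₁])
  have st2 := rih_v c hr hc hv hkj hf hfa hk ht hs₀ hbox hy' hw₁ hw' (by rw [e₁]; exact n2) n4
    (by rw [e₁]; exact n3) (by rw [e₁])
  rw [Function.update_eq_self] at st1
  rw [← st2, ← st1]

end Pool.Agent.H65.FL
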