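import Pool.Agent.H65.FL.Are
import Pool.Agent.H65.FL.Rih

set_option autoImplicit false

/-!
# Module Ind: complete splitting and volume

`spl_succ`. PROOF. Let `r₀` be the radius of `area_eq` (`r₀ ≤ r`) for `k`, and for every `j > k` let `r_j` be the radius of `rig` for the cube `ball x r₀` (`f = fk ψ x k`, `fk_oe`, `fk_eq`, `ht` from `tail`; `hv`: `CM.cap` and
`ψ.isOpen_image_of_subset_source`); let `r₁ > 0` be the minimum of `r₀` and all `r_j`. `Spl ψ x r₁ (k + 1)`: `own` for `j < k` from `Spl.own`, for `j = k` from `fk_eq`. `tail`: let `y`, `z` agree at all `i ≥ k + 1`, and `j ≥ k + 1`. Let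
`y' = fun i => if i < k then z i else y i`; `ψ y j = ψ y' j` (`tail` for `k`); `z = update y' k (z k)`, so `ψ z j = ψ y' j` by `rig`. `area` for `j < k` from `Spl.area`, for `j = k` from `area_eq` (`mono`).
`spl_all`: induction on `k ≤ m`, for all `ψ` and `x` (with `CM.symm`, `ψ.symm (ψ x)`: the induction hypothesis is used for `ψ, x` and for `ψ.symm, ψ x`).
-/

namespace Pool.Agent.H65.FL

open Set Metric MeasureTheory
open scoped ENNReal ContDiff
open Pool.Agent.H72.Symp (Sp omega ball1 cyl1 IsSympEmbedding Capacity CapacityChoice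
  LocallyPreserves stab)

variable {m : ℕ} [NeZero m] {c : Capacity m} {ψ : OpenPartialHomeomorph (Sp m) (Sp m)}

theorem spl_succ (h : CM c ψ) {x : Sp m} (hx : x ∈ ψ.source) {k : ℕ} (hk : k < m)
    (hs : ∃ r > 0, Spl ψ x r k) (hs' : ∃ r > 0, Spl ψ.symm (ψ x) r k) :
    ∃ r > 0, Spl ψ x r (k + 1) := by
  obtain ⟨r, hr, hS⟩ := hs
  obtain ⟨r', hr', hS'⟩ := hs'
  set K : Fin m := ⟨k, hk⟩ with hK
  obtain ⟨r₀, hr₀, hr₀r, hA⟩ := area_eq h hx hr hr' (k := K) hS hS'
  have hS₀ : Spl ψ x r₀ k := hS.mono hr₀r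
  have hkey : ∀ j : Fin m, ∃ ρ > 0, ρ ≤ r₀ ∧ (k < j.1 → ∀ y ∈ ball x ρ, ∀ w ∈ ball (x K) ρ,
      ψ (Function.update y K w) j = ψ y j) := by
    intro j
    by_cases hj : k < j.1
    · have hne : K ≠ j := by
        intro e
        rw [← e] at hj
        exact lt_irrefl _ hj
      obtain ⟨ρ, hρ, hρr, hρ'⟩ := rig c hr₀ (ψ.continuousOn.mono hS₀.src)
        (fun W hW hWo => ⟨ψ.isOpen_image_of_subset_source hWo (hW.trans hS₀.src),
          h.cap W (hW.trans hS₀.src) hWo⟩) hne (fk_oe h hr₀ (k := K) hS₀) hA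
        (fun y hy => fk_eq h hr₀ (k := K) hS₀ hy)
        (fun y hy z hz hyz => hS₀.tail y hy z hz hyz j hj.le)
      exact ⟨ρ, hρ, hρr, fun _ => hρ'⟩
    · exact ⟨r₀, hr₀, le_rfl, fun h' => absurd h' hj⟩
  choose ρ hρ hρr hρ' using hkey
  set r₁ : ℝ := (Finset.univ : Finset (Fin m)).inf' ⟨K, Finset.mem_univ K⟩ ρ with hr₁
  have hpos : 0 < r₁ := by
    rw [hr₁, Finset.lt_inf'_iff]
    exact fun j _ => hρ j
  have hle : ∀ j, r₁ ≤ ρ j := fun j => Finset.inf'_le ρ (Finset.mem_univ j)
  have hle₀ : r₁ ≤ r₀ := (hle K).trans (hρr K)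
  refine ⟨r₁, hpos, ?_⟩
  have hb : ball x r₁ ⊆ ball x r₀ := ball_subset_ball hle₀
  refine ⟨hb.trans hS₀.src, ?_, ?_, ?_⟩
  · intro j hj y hy z hz hyz
    rcases Nat.lt_succ_iff_lt_or_eq.1 hj with h1 | h1
    · exact hS₀.own j h1 y (hb hy) z (hb hz) hyz
    · have h2 : j = K := Fin.ext h1
      subst h2
      rw [fk_eq h hr₀ (k := K) hS₀ (hb hy), fk_eq h hr₀ (k := K) hS₀ (hb hz), hyz]
  · intro y hy z hz hyz j hj
    set y' : Sp m := fun i => if i.1 < k then z i else y i with hy'
    have hy'b : y' ∈ ball x r₁ := by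
      rw [mem_ball, dist_pi_lt_iff hpos] at hy hz ⊢
      intro i
      rw [hy']
      by_cases hi : i.1 < k
      · simp only [hi, if_true]
        exact hz i
      · simp only [hi, if_false]
        exact hy i
    have e1 : ψ y j = ψ y' j := by
      refine hS₀.tail y (hb hy) y' (hb hy'b) (fun i hi => ?_) j (by omega)
      rw [hy']
      simp only [not_lt.2 hi, if_false]
    have e2 : z = Function.update y' K (z K) := by
      funext i
      by_cases hi : i = K
      · subst hi
        rw [Function.update_self]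
      · rw [Function.update_of_ne hi, hy']
        by_cases hi2 : i.1 < k
        · simp only [hi2, if_true]
        · simp only [hi2, if_false]
          refine (hyz i ?_).symm
          have h3 : i.1 ≠ k := fun h3 => hi (Fin.ext h3)
          omega
    have e3 : ψ (Function.update y' K (z K)) j = ψ y' j := by
      refine hρ' j (by omega) y' (ball_subset_ball (hle j) hy'b) (z K) ?_
      rw [mem_ball] at hz ⊢
      exact (dist_le_pi_dist z x K).trans_lt (hz.trans_le (hle j))
    rw [e1, ← e3, ← e2]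
  · intro j hj E hE hEm
    rcases Nat.lt_succ_iff_lt_or_eq.1 hj with h1 | h1
    · exact hS₀.area j h1 E (hE.trans (ball_subset_ball hle₀)) hEm
    · have h2 : j = K := Fin.ext h1
      subst h2
      exact hA E (hE.trans (ball_subset_ball hle₀)) hEm

theorem spl_all (h : CM c ψ) {x : Sp m} (hx : x ∈ ψ.source) : ∃ r > 0, Spl ψ x r m := by
  have key : ∀ k : ℕ, k ≤ m → ∀ (φ : OpenPartialHomeomorph (Sp m) (Sp m)), CM c φ →
      ∀ y ∈ φ.source, ∃ r > 0, Spl φ y r k := by
    intro k
    induction k with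
    | zero =>
      intro _ φ _ y hy
      exact spl_zero hy
    | succ k ih =>
      intro hk φ hφ y hy
      refine spl_succ hφ hy (Nat.lt_of_succ_le hk) (ih (by omega) φ hφ y hy) ?_
      exact ih (by omega) φ.symm hφ.symm (φ y) (φ.map_source hy)
  exact key m le_rfl ψ h x hx

end Pool.Agent.H65.FL
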