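import Pool.Agent.H65.FL.PDefs

set_option autoImplicit false

/-!
# Module Inv: inverses of smooth planar embeddings

PROOF. As in `Pool/Agent/H36/CSymp/Chart.lean` (`dE`, `chart_open`, `chart`, `chart_symm`): the derivative at `p ∈ D` is an isomorphism (`ContinuousLinearMap.det` nonzero, `LinearMap.equivOfDetNeZero` or
`ContinuousLinearEquiv` from an injective endomorphism of a finite dimensional space), so `K` is open on `D` (`HasStrictFDerivAt.map_nhds_eq_of_equiv`), the `OpenPartialHomeomorph` built with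
`OpenPartialHomeomorph.ofContinuousOpenRestrict` has a smooth inverse (`OpenPartialHomeomorph.contDiffAt_symm`) with the inverse derivative (`hasFDerivAt_symm`), the determinant of which is the inverse.
`emb_comp`: chain rule, `ContinuousLinearMap.det` is multiplicative. `emb_lin`: `(x, y) ↦ (a x, a⁻¹ y)`.
-/

namespace Pool.Agent.H65.FL

open Set Metric MeasureTheory Filter Topology
open scoped ENNReal ContDiff

theorem inv_smooth {K : ℝ × ℝ → ℝ × ℝ} {D : Set (ℝ × ℝ)} (hD : IsOpen D)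
    (hK : ContDiffOn ℝ ∞ K D) (hi : InjOn K D) (hd : ∀ p ∈ D, (fderiv ℝ K p).det ≠ 0) :
    ∃ L : ℝ × ℝ → ℝ × ℝ, (∀ W ⊆ D, IsOpen W → IsOpen (K '' W)) ∧ ContDiffOn ℝ ∞ L (K '' D) ∧
      (∀ p ∈ D, L (K p) = p) ∧
      ∀ p ∈ D, (fderiv ℝ L (K p)).det = ((fderiv ℝ K p).det)⁻¹ := by
  have hcd : ∀ x ∈ D, ContDiffAt ℝ ∞ K x := fun x hx => hK.contDiffAt (hD.mem_nhds hx)
  have hcoe : ∀ x, ∀ hx : x ∈ D,
      (((fderiv ℝ K x).toContinuousLinearEquivOfDetNeZero (hd x hx) :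
        (ℝ × ℝ) ≃L[ℝ] (ℝ × ℝ)) : (ℝ × ℝ) →L[ℝ] (ℝ × ℝ)) = fderiv ℝ K x := fun x hx =>
    ContinuousLinearMap.coe_toContinuousLinearEquivOfDetNeZero _ _
  have hfd : ∀ x, ∀ hx : x ∈ D, HasFDerivAt K
      (((fderiv ℝ K x).toContinuousLinearEquivOfDetNeZero (hd x hx) :
        (ℝ × ℝ) ≃L[ℝ] (ℝ × ℝ)) : (ℝ × ℝ) →L[ℝ] (ℝ × ℝ)) x := fun x hx => by
    rw [hcoe x hx]
    exact ((hcd x hx).differentiableAt (by simp)).hasFDerivAt
  have hop : IsOpenMap (D.domRestrict K) := by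
    rw [isOpenMap_iff_nhds_le]
    intro x
    have h1 : HasStrictFDerivAt K
        (((fderiv ℝ K x.1).toContinuousLinearEquivOfDetNeZero (hd x.1 x.2) :
          (ℝ × ℝ) ≃L[ℝ] (ℝ × ℝ)) : (ℝ × ℝ) →L[ℝ] (ℝ × ℝ)) x.1 := by
      rw [hcoe x.1 x.2]
      exact (hcd x.1 x.2).hasStrictFDerivAt (by simp)
    have h2 := h1.map_nhds_eq_of_equiv
    have h3 : map (D.domRestrict K) (𝓝 x) = map K (𝓝 x.1) := by
      rw [← hD.isOpenEmbedding_subtypeVal.map_nhds_eq x, Filter.map_map]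
      rfl
    rw [h3, h2]
    exact le_rfl
  let C : OpenPartialHomeomorph (ℝ × ℝ) (ℝ × ℝ) :=
    OpenPartialHomeomorph.ofContinuousOpenRestrict (hi.toPartialEquiv K D)
      hK.continuousOn hop hD
  have hC : ∀ x, C x = K x := fun _ => rfl
  have hs : C.source = D := rfl
  have ht : C.target = K '' D := rfl
  have hinv : ∀ p ∈ D, C.symm (K p) = p := fun p hp => by
    rw [← hC p]
    exact C.left_inv (by rw [hs]; exact hp)
  refine ⟨C.symm, fun W hW hWo => ?_, ?_, hinv, ?_⟩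
  · exact C.isOpen_image_of_subset_source hWo hW
  · rintro _ ⟨p, hp, rfl⟩
    have hm : K p ∈ C.target := by rw [ht]; exact mem_image_of_mem _ hp
    have h2 := C.contDiffAt_symm (n := ∞) (f₀' := (fderiv ℝ K p).toContinuousLinearEquivOfDetNeZero (hd p hp))
      hm (by rw [hinv p hp]; exact hfd p hp) (by rw [hinv p hp]; exact hcd p hp)
    exact h2.contDiffWithinAt
  · intro p hp
    have hm : K p ∈ C.target := by rw [ht]; exact mem_image_of_mem _ hp
    have h2 := C.hasFDerivAt_symm hm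
      (f' := (fderiv ℝ K p).toContinuousLinearEquivOfDetNeZero (hd p hp))
      (by rw [hinv p hp]; exact hfd p hp)
    rw [h2.fderiv, ContinuousLinearEquiv.det_coe_symm, hcoe p hp]

/-- chain rule for determinants -/
theorem det_comp {K L : ℝ × ℝ → ℝ × ℝ} {p : ℝ × ℝ} (hK : DifferentiableAt ℝ K p)
    (hL : DifferentiableAt ℝ L (K p)) : (fderiv ℝ (fun q => L (K q)) p).det =
      (fderiv ℝ L (K p)).det * (fderiv ℝ K p).det := by
  have h := fderiv_comp p hL hK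
  have h1 : fderiv ℝ (fun q => L (K q)) p = (fderiv ℝ L (K p)).comp (fderiv ℝ K p) := h
  rw [h1]
  exact LinearMap.det_comp _ _

theorem emb_comp {e e' : ℝ × ℝ → ℝ × ℝ} {D D' U : Set (ℝ × ℝ)} (hD : IsOpen D) (hD' : IsOpen D')
    (he : Emb e D D') (he' : Emb e' D' U) : Emb (fun p => e' (e p)) D U := by
  refine ⟨?_, ?_, ?_, ?_⟩
  · exact he'.smooth.comp he.smooth he.maps
  · intro p hp q hq h
    exact he.inj hp hq (he'.inj (he.maps hp) (he.maps hq) h)
  · intro p hp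
    exact he'.maps (he.maps hp)
  · intro p hp
    rw [det_comp ((he.smooth.contDiffAt (hD.mem_nhds hp)).differentiableAt (by simp))
      ((he'.smooth.contDiffAt (hD'.mem_nhds (he.maps hp))).differentiableAt (by simp)),
      he.det p hp, he'.det _ (he.maps hp), mul_one]

theorem emb_lin {a b : ℝ} (ha : 0 < a) (hb : 0 < b) :
    Emb (fun p => (b * p.1, b⁻¹ * p.2)) (Ioo 0 a ×ˢ Ioo 0 b) (Ioo 0 (a * b) ×ˢ Ioo 0 1) := by
  have hb0 : b ≠ 0 := hb.ne'
  set F : (ℝ × ℝ) →L[ℝ] (ℝ × ℝ) :=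
    (b • ContinuousLinearMap.fst ℝ ℝ ℝ).prod (b⁻¹ • ContinuousLinearMap.snd ℝ ℝ ℝ) with hF
  have hFe : (fun p : ℝ × ℝ => (b * p.1, b⁻¹ * p.2)) = F := by
    funext p
    simp [hF]
  have hdet : F.det = 1 := by
    have h1 : F.det = LinearMap.det
        ((LinearMap.prodMap (b • (LinearMap.id : ℝ →ₗ[ℝ] ℝ)) (b⁻¹ • (LinearMap.id : ℝ →ₗ[ℝ] ℝ)))) := by
      rw [ContinuousLinearMap.det]
      congr 1
    rw [h1, LinearMap.det_prodMap]
    simp [hb0]
  refine ⟨?_, ?_, ?_, ?_⟩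
  · rw [hFe]
    exact F.contDiff.contDiffOn
  · intro p _ q _ h
    simp only [Prod.mk.injEq] at h
    refine Prod.ext (mul_left_cancel₀ hb0 h.1) (mul_left_cancel₀ (inv_ne_zero hb0) h.2)
  · rintro p ⟨hp1, hp2⟩
    refine ⟨⟨mul_pos hb hp1.1, ?_⟩, ⟨mul_pos (inv_pos.2 hb) hp2.1, ?_⟩⟩
    · rw [mul_comm a b]
      exact mul_lt_mul_of_pos_left hp1.2 hb
    · have := mul_lt_mul_of_pos_left hp2.2 (inv_pos.2 hb)
      rwa [inv_mul_cancel₀ hb0] at this
  · intro p _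
    rw [hFe, F.fderiv, hdet]

end Pool.Agent.H65.FL
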