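import Mathlib

set_option autoImplicit false

/-!
# Module Osc: oscillation of `t - l * u t`

PROOF. Let `d = |u b - u a| > 0` and `l = η * sign (u b - u a)`, `η > 0` small; replacing `u` by `-u` assume `u b > u a`, `l = η`. `M > 0` is a bound for `|u t - u s|` on `[a, b]` (compactness). By continuity at `a` and `b` there is
`θ > 0` such that `s ∈ [a, b]`, `s - a < θ` imply `|u s - u a| < d / 4` and `t ∈ [a, b]`, `b - t < θ` imply `|u t - u b| < d / 4`. Choose `η` with `2 η M < θ`, and `κ = min (η M) (η d / 2)`. Let `s, t ∈ [a, b]`. If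
`t - s ≤ b - a - 2 η M` then `(t - s) - η (u t - u s) ≤ b - a - 2 η M + η M`. Otherwise `s - a < 2 η M < θ`, `b - t < θ` and `u t - u s > d / 2`, so `(t - s) - η (u t - u s) ≤ b - a - η d / 2`.
-/

namespace Pool.Agent.H65.FL

open Set

private theorem osc_pos {a b : ℝ} (hab : a < b) {u : ℝ → ℝ} (hu : ContinuousOn u (Icc a b))
    (hlt : u a < u b) : ∃ l κ : ℝ, 0 < κ ∧ ∀ s ∈ Icc a b, ∀ t ∈ Icc a b,
      (t - l * u t) - (s - l * u s) ≤ (b - a) - κ := by
  obtain ⟨C, hC⟩ := isCompact_Icc.exists_bound_of_continuousOn hu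
  have hd : 0 < u b - u a := sub_pos.2 hlt
  have hd4 : 0 < (u b - u a) / 4 := by linarith
  obtain ⟨δ1, hδ1, h1⟩ := Metric.continuousWithinAt_iff.1 (hu a (left_mem_Icc.2 hab.le)) _ hd4
  obtain ⟨δ2, hδ2, h2⟩ := Metric.continuousWithinAt_iff.1 (hu b (right_mem_Icc.2 hab.le)) _ hd4
  have hM : 0 < 2 * |C| + 1 := by positivity
  obtain ⟨M, hMe⟩ : ∃ M, M = 2 * |C| + 1 := ⟨_, rfl⟩
  rw [← hMe] at hM
  have hθ : 0 < min δ1 δ2 := lt_min hδ1 hδ2
  obtain ⟨η, hη⟩ : ∃ η, η = min δ1 δ2 / (4 * M) := ⟨_, rfl⟩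
  have hη0 : 0 < η := by
    rw [hη]
    exact div_pos hθ (by linarith)
  have hηM : 2 * (η * M) = min δ1 δ2 / 2 := by
    rw [hη]
    field_simp
    ring
  have hηM0 : 0 < η * M := mul_pos hη0 hM
  have hηd : 0 < η * (u b - u a) / 2 := by
    have := mul_pos hη0 hd
    linarith
  refine ⟨η, min (η * M) (η * (u b - u a) / 2), lt_min hηM0 hηd, ?_⟩
  intro s hs t ht
  have hκ1 : min (η * M) (η * (u b - u a) / 2) ≤ η * M := min_le_left _ _
  have hκ2 : min (η * M) (η * (u b - u a) / 2) ≤ η * (u b - u a) / 2 := min_le_right _ _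
  by_cases hts : t - s ≤ b - a - 2 * (η * M)
  · have h3 := hC s hs
    have h4 := hC t ht
    rw [Real.norm_eq_abs] at h3 h4
    have h5 := le_abs_self C
    have h6 : u s - u t ≤ M := by
      rw [hMe]
      have h7 := (abs_le.1 h3).2
      have h8 := (abs_le.1 h4).1
      linarith
    have h9 : η * (u s - u t) ≤ η * M := mul_le_mul_of_nonneg_left h6 hη0.le
    have h10 : η * (u s - u t) = η * u s - η * u t := by ring
    linarith
  · have h3 : dist s a < δ1 := by
      rw [Real.dist_eq, abs_of_nonneg (by linarith [hs.1])]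
      have := min_le_left δ1 δ2
      linarith [ht.2, hs.1]
    have h4 : dist t b < δ2 := by
      rw [Real.dist_eq, abs_sub_comm, abs_of_nonneg (by linarith [ht.2])]
      have := min_le_right δ1 δ2
      linarith [ht.2, hs.1]
    have h5 := h1 hs h3
    have h6 := h2 ht h4
    rw [Real.dist_eq, abs_lt] at h5 h6
    have h7 : (u b - u a) / 2 ≤ u t - u s := by linarith [h5.2, h6.1]
    have h8 : η * ((u b - u a) / 2) ≤ η * (u t - u s) := mul_le_mul_of_nonneg_left h7 hη0.le
    have h9 : η * (u t - u s) = η * u t - η * u s := by ring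
    have h10 : η * ((u b - u a) / 2) = η * (u b - u a) / 2 := by ring
    linarith [ht.2, hs.1]

theorem osc {a b : ℝ} (hab : a < b) {u : ℝ → ℝ} (hu : ContinuousOn u (Icc a b))
    (hne : u a ≠ u b) : ∃ l κ : ℝ, 0 < κ ∧ ∀ s ∈ Icc a b, ∀ t ∈ Icc a b,
      (t - l * u t) - (s - l * u s) ≤ (b - a) - κ := by
  rcases lt_or_gt_of_ne hne with h | h
  · exact osc_pos hab hu h
  · obtain ⟨l, κ, hκ, h1⟩ := osc_pos (u := fun t => -u t) hab hu.neg (neg_lt_neg h)
    refine ⟨-l, κ, hκ, fun s hs t ht => ?_⟩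
    have h2 := h1 s hs t ht
    have h3 : (t - l * -u t) - (s - l * -u s) = (t - -l * u t) - (s - -l * u s) := by ring
    rw [← h3]
    exact h2

end Pool.Agent.H65.FL
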