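import Mathlib

set_option autoImplicit false

/-!
# Planar definitions
-/

namespace Pool.Agent.H65.FL

open Set Metric MeasureTheory
open scoped ENNReal ContDiff

/-- the open Euclidean disc of radius `r` about the origin of the plane -/
def Dk (r : ℝ) : Set (ℝ × ℝ) := {p | p.1 ^ 2 + p.2 ^ 2 < r ^ 2}

/-- `e` is a smooth area preserving embedding of the open set `D` into `U` -/
structure Emb (e : ℝ × ℝ → ℝ × ℝ) (D U : Set (ℝ × ℝ)) : Prop where
  smooth : ContDiffOn ℝ ∞ e D
  inj : InjOn e D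
  maps : MapsTo e D U
  det : ∀ p ∈ D, (fderiv ℝ e p).det = 1

/-- `f` is an open embedding of the open set `B` -/
structure OE (f : ℝ × ℝ → ℝ × ℝ) (B : Set (ℝ × ℝ)) : Prop where
  isOpen : IsOpen B
  cont : ContinuousOn f B
  inj : InjOn f B
  opn : ∀ W ⊆ B, IsOpen W → IsOpen (f '' W)

end Pool.Agent.H65.FL
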