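import Mathlib

set_option autoImplicit false

/-!
# Module RMa: normal families (Montel) and Hurwitz, with an ultrafilter

`montel`. PROOF. For `z ∈ U` the sequence `f n z` is in the compact ball, so it has a limit along the ultrafilter `l` (`isCompact_closedBall.ultrafilter_le_nhds'` or
`(isCompact_closedBall _ _).ultrafilter_le_nhds (l.map _)`); call it `g z` (`choose`/`if`). Locally uniform convergence: let `z₀ ∈ U`, `closedBall z₀ (2 r) ⊆ U`; on `ball z₀ r` all `f n` are
Lipschitz with the constant `1 / r` (`Complex.norm_deriv_le_of_forall_mem_sphere_norm_le` and `Convex.norm_image_sub_le_of_norm_deriv_le`, or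
`Complex.dist_le_div_mul_dist_of_mapsTo_ball`), hence also `g`. For `ε > 0` cover `closedBall z₀ (r / 2)` by finitely many balls of radius `ε r / 4` with centres `w_i` (`IsCompact.finite_cover_balls`);
for `l`-almost all `n` all `‖f n w_i - g w_i‖ < ε / 4`, and then `‖f n z - g z‖ < ε` on the ball.
(`tendstoLocallyUniformlyOn_iff_filter`, or unfold `TendstoLocallyUniformlyOn`: for `u ∈ 𝓤 ℂ`, `Metric.mem_uniformity_dist`.)
`hurwitz_zero`. PROOF. `K = sphere b r` is compact, `‖g‖ ≥ 2 m > 0` on `K`; eventually `‖f n - g‖ < m` on `closedBall b r` (`h` is uniform there) and `‖f n b‖ < m` (since `g b = 0`). If `f n` has no zero in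
`closedBall b r` then `1 / f n` is `DiffContOnCl` and `‖1 / f n‖ < 1 / m` on the sphere, so `‖1 / f n b‖ ≤ 1 / m` (`Complex.norm_le_of_forall_mem_frontier_norm_le`), contradiction. (On the sphere `f n ≠ 0`
because `‖f n‖ > m` there.)
-/

namespace Pool.Agent.H65.FL

open Set Metric Filter Topology

theorem montel {U : Set ℂ} (hU : IsOpen U) (f : ℕ → ℂ → ℂ) (hf : ∀ n, DifferentiableOn ℂ (f n) U)
    (hb : ∀ n, ∀ z ∈ U, ‖f n z‖ ≤ 1) (l : Ultrafilter ℕ) :
    ∃ g : ℂ → ℂ, TendstoLocallyUniformlyOn f g l U := by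
  have hlim : ∀ z, ∃ w : ℂ, z ∈ U → Tendsto (fun n => f n z) l (𝓝 w) := by
    intro z
    by_cases hz : z ∈ U
    · obtain ⟨w, -, hw⟩ := (isCompact_closedBall (0 : ℂ) 1).ultrafilter_le_nhds
        (l.map fun n => f n z) (by
          rw [Ultrafilter.coe_map, le_principal_iff]
          exact Filter.mem_map.2 (Filter.univ_mem' fun n => by simpa using hb n z hz))
      exact ⟨w, fun _ => hw⟩
    · exact ⟨0, fun h => absurd h hz⟩
  choose g hg using hlim
  refine ⟨g, ?_⟩
  rw [Metric.tendstoLocallyUniformlyOn_iff]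
  intro ε hε z₀ hz₀
  obtain ⟨R, hR, hRU⟩ := Metric.isOpen_iff.1 hU z₀ hz₀
  have hlip : ∀ n, ∀ y ∈ ball z₀ R, dist (f n y) (f n z₀) ≤ 3 / R * dist y z₀ := by
    intro n y hy
    refine Complex.dist_le_div_mul_dist_of_mapsTo_ball ((hf n).mono hRU) ?_ hy
    intro w hw
    rw [mem_closedBall, dist_eq_norm]
    have h1 := hb n w (hRU hw)
    have h2 := hb n z₀ hz₀
    have h3 := norm_sub_le (f n w) (f n z₀)
    linarith
  have hglip : ∀ y ∈ ball z₀ R, dist (g y) (g z₀) ≤ 3 / R * dist y z₀ := by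
    intro y hy
    exact le_of_tendsto ((hg y (hRU hy)).dist (hg z₀ hz₀))
      (Filter.Eventually.of_forall fun n => hlip n y hy)
  have hδ : 0 < min R (ε * R / 9) := lt_min hR (by positivity)
  refine ⟨ball z₀ (min R (ε * R / 9)), mem_nhdsWithin_of_mem_nhds (ball_mem_nhds _ hδ), ?_⟩
  have hev : ∀ᶠ n in (l : Filter ℕ), dist (f n z₀) (g z₀) < ε / 3 :=
    (Metric.tendsto_nhds.1 (hg z₀ hz₀)) (ε / 3) (by positivity)
  filter_upwards [hev] with n hn y hy
  have hyd : dist y z₀ < min R (ε * R / 9) := mem_ball.1 hy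
  have hyR : y ∈ ball z₀ R := mem_ball.2 (lt_of_lt_of_le hyd (min_le_left _ _))
  have hy9 : 3 / R * dist y z₀ < ε / 3 := by
    have h1 : dist y z₀ < ε * R / 9 := lt_of_lt_of_le hyd (min_le_right _ _)
    have h2 : 3 / R * dist y z₀ < 3 / R * (ε * R / 9) := by
      apply mul_lt_mul_of_pos_left h1
      positivity
    have h3 : 3 / R * (ε * R / 9) = ε / 3 := by
      field_simp
      norm_num
    linarith
  have h1 := hlip n y hyR
  have h2 := hglip y hyR
  have h3 : dist (g y) (f n y) ≤ dist (g y) (g z₀) + dist (g z₀) (f n z₀) + dist (f n z₀) (f n y) :=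
    dist_triangle4 _ _ _ _
  rw [dist_comm (g z₀), dist_comm (f n z₀) (f n y)] at h3
  linarith

theorem hurwitz_zero {b : ℂ} {r : ℝ} (hr : 0 < r) {l : Filter ℕ} [l.NeBot] {f : ℕ → ℂ → ℂ}
    {g : ℂ → ℂ} (hf : ∀ n, ∃ V, IsOpen V ∧ closedBall b r ⊆ V ∧ DifferentiableOn ℂ (f n) V)
    (h : TendstoUniformlyOn f g l (closedBall b r)) (hg : ContinuousOn g (closedBall b r))
    (hb : g b = 0) (hs : ∀ z ∈ sphere b r, g z ≠ 0) :
    ∀ᶠ n in l, ∃ z ∈ ball b r, f n z = 0 := by
  have hK : IsCompact (sphere b r) := isCompact_sphere b r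
  have hne : (sphere b r).Nonempty := ⟨b + r, by simp [hr.le]⟩
  have hcont : ContinuousOn (fun z => ‖g z‖) (sphere b r) :=
    (hg.mono sphere_subset_closedBall).norm
  obtain ⟨z1, hz1, hmin⟩ := hK.exists_isMinOn hne hcont
  have hm0 : 0 < ‖g z1‖ := norm_pos_iff.2 (hs z1 hz1)
  have hmin' : ∀ z ∈ sphere b r, ‖g z1‖ ≤ ‖g z‖ := fun z hz => hmin hz
  have hev : ∀ᶠ n in l, ∀ z ∈ closedBall b r, dist (g z) (f n z) < ‖g z1‖ / 2 :=
    (Metric.tendstoUniformlyOn_iff.1 h) (‖g z1‖ / 2) (by positivity)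
  filter_upwards [hev] with n hn
  by_contra hcon
  push Not at hcon
  have hsph : ∀ z ∈ sphere b r, ‖g z1‖ / 2 ≤ ‖f n z‖ := by
    intro z hz
    have h1 := hn z (sphere_subset_closedBall hz)
    have h2 := hmin' z hz
    have h3 : ‖g z‖ ≤ ‖g z - f n z‖ + ‖f n z‖ := by
      have := norm_add_le (g z - f n z) (f n z)
      rwa [sub_add_cancel] at this
    rw [dist_eq_norm] at h1
    linarith
  have hnz : ∀ z ∈ closedBall b r, f n z ≠ 0 := by
    intro z hz
    by_cases hzb : z ∈ ball b r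
    · exact hcon z hzb
    · have hzs : z ∈ sphere b r := by
        rw [mem_sphere]
        exact le_antisymm (mem_closedBall.1 hz) (not_lt.1 fun h' => hzb (mem_ball.2 h'))
      intro h0
      have h1 := hsph z hzs
      rw [h0, norm_zero] at h1
      linarith
  obtain ⟨V, -, hV, hd⟩ := hf n
  have hdiff : DifferentiableOn ℂ (fun z => (f n z)⁻¹) (closedBall b r) :=
    (hd.mono hV).inv hnz
  have hcl : DiffContOnCl ℂ (fun z => (f n z)⁻¹) (ball b r) := by
    apply DifferentiableOn.diffContOnCl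
    rw [closure_ball b hr.ne']
    exact hdiff
  have hle : ‖(f n b)⁻¹‖ ≤ (‖g z1‖ / 2)⁻¹ := by
    refine Complex.norm_le_of_forall_mem_frontier_norm_le (f := fun z => (f n z)⁻¹) isBounded_ball hcl ?_
      (subset_closure (mem_ball_self hr))
    intro z hz
    rw [frontier_ball b hr.ne'] at hz
    rw [norm_inv]
    exact inv_anti₀ (by positivity) (hsph z hz)
  have hb1 := hn b (mem_closedBall_self hr.le)
  rw [hb, dist_eq_norm, zero_sub, norm_neg] at hb1
  rw [norm_inv] at hle
  have hfb : 0 < ‖f n b‖ := norm_pos_iff.2 (hnz b (mem_closedBall_self hr.le))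
  have h5 : ‖g z1‖ / 2 ≤ ‖f n b‖ := (inv_le_inv₀ hfb (by positivity)).1 hle
  linarith

end Pool.Agent.H65.FL
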