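import Pool.Agent.H65.FL.RMa

set_option autoImplicit false

/-!
# Module RMb: limits of injective functions, the extremal function

`Good U f`: `f` is holomorphic and injective on `U` with nonvanishing derivative and values in the open unit disc.

`lim_good`. PROOF. `g` is holomorphic (`TendstoLocallyUniformlyOn.differentiableOn`), `‖g‖ ≤ 1` on `U`. `g` is not constant near any point, as `deriv g a ≠ 0` (identity theorem
`AnalyticOnNhd.eqOn_of_preconnected_of_eventuallyEq`; if `g` is equal to a constant near some point then on `U`, so `deriv g a = 0`). Values in the open disc: if `‖g z‖ = 1` for some `z ∈ U` then `g` is constant on `U`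
(`Complex.eqOn_of_isPreconnected_of_isMaxOn_norm`). Injective: let `g p = g q`, `p ≠ q`. The function `g - g p` is not identically zero near `q`, so `q` is an isolated zero
(`AnalyticAt.eventually_eq_zero_or_eventually_ne_zero`); choose `r > 0` with `closedBall q r ⊆ U`, `p ∉ closedBall q r`, `g z ≠ g p` on the sphere. `hurwitz_zero` for `f n - f n p → g - g p`
(uniformly on the compact ball: `tendstoLocallyUniformlyOn_iff_forall_isCompact`): for some `n` there is `z ∈ ball q r` with `f n z = f n p`, `z ≠ p`, contradiction. Derivative: `deriv (f n) → deriv g` locally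
uniformly (`TendstoLocallyUniformlyOn.deriv`); if `deriv g q = 0`, then as `deriv g` is not identically zero near `q` (else `deriv g = 0` on `U` by the identity theorem, contradiction to `deriv g a ≠ 0`), `hurwitz_zero` gives a
zero of `deriv (f n)` in `U`, contradiction.
`extremal`. PROOF. The numbers `‖deriv f a‖`, `Good U f`, are bounded by `1 / r` if `closedBall a r ⊆ U` (Cauchy) and positive; let `s` be their supremum and `f n` a sequence with `‖deriv (f n) a‖ → s`
(`exists_seq_tendsto_sSup`). `montel` with `l = hyperfilter ℕ` (an ultrafilter below `atTop`: `Filter.hyperfilter_le_atTop`) gives `g`; `‖deriv g a‖ = s > 0` (`TendstoLocallyUniformlyOn.deriv` and `tendsto_at`), so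
`Good U g` by `lim_good`.
-/

namespace Pool.Agent.H65.FL

open Set Metric Filter Topology

/-- holomorphic, injective, nonvanishing derivative, values in the open unit disc -/
structure Good (U : Set ℂ) (f : ℂ → ℂ) : Prop where
  diff : DifferentiableOn ℂ f U
  inj : InjOn f U
  maps : MapsTo f U (ball 0 1)
  deriv_ne : ∀ z ∈ U, deriv f z ≠ 0

/-- a function with an isolated zero which is a locally uniform limit -/
private theorem rmb_zero {U : Set ℂ} (hU : IsOpen U) {l : Filter ℕ} [l.NeBot]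
    {F : ℕ → ℂ → ℂ} {G : ℂ → ℂ} (hF : ∀ n, DifferentiableOn ℂ (F n) U)
    (h : TendstoLocallyUniformlyOn F G l U) (hG : AnalyticOnNhd ℂ G U) {q : ℂ} (hq : q ∈ U)
    (h0 : G q = 0) (hn : ¬ ∀ᶠ z in 𝓝 q, G z = 0) {V : Set ℂ} (hV : V ∈ 𝓝 q) :
    ∃ n, ∃ z ∈ V ∩ U, F n z = 0 := by
  have h1 : ∀ᶠ z in 𝓝[≠] q, G z ≠ 0 :=
    ((hG q hq).eventually_eq_zero_or_eventually_ne_zero).resolve_left hn
  rw [eventually_nhdsWithin_iff] at h1
  have h2 : ∀ᶠ z in 𝓝 q, (z ∈ ({q}ᶜ : Set ℂ) → G z ≠ 0) ∧ z ∈ V ∧ z ∈ U :=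
    h1.and (Filter.Eventually.and hV (hU.mem_nhds hq))
  obtain ⟨e, he, h3⟩ := Metric.eventually_nhds_iff_ball.1 h2
  have hsub : closedBall q (e / 2) ⊆ ball q e := closedBall_subset_ball (by linarith)
  have hsubU : closedBall q (e / 2) ⊆ U := fun z hz => (h3 z (hsub hz)).2.2
  have hunif : TendstoUniformlyOn F G l (closedBall q (e / 2)) :=
    (tendstoLocallyUniformlyOn_iff_forall_isCompact hU).1 h _ hsubU (isCompact_closedBall _ _)
  have h4 := hurwitz_zero (b := q) (r := e / 2) (by linarith) (f := F) (g := G) (l := l)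
    (fun n => ⟨U, hU, hsubU, hF n⟩) hunif (hG.continuousOn.mono hsubU) h0 (fun z hz => by
      refine (h3 z (hsub (sphere_subset_closedBall hz))).1 ?_
      intro hzq
      have h5 : z = q := hzq
      rw [h5, mem_sphere, dist_self] at hz
      linarith)
  obtain ⟨n, z, hz, hz0⟩ := h4.exists
  have hz' := h3 z (hsub (ball_subset_closedBall hz))
  exact ⟨n, z, ⟨hz'.2.1, hz'.2.2⟩, hz0⟩

theorem lim_good {U : Set ℂ} (hU : IsOpen U) (hc : IsPreconnected U) {l : Filter ℕ} [l.NeBot]
    {f : ℕ → ℂ → ℂ} {g : ℂ → ℂ} (hf : ∀ n, Good U (f n)) (h : TendstoLocallyUniformlyOn f g l U)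
    {a : ℂ} (ha : a ∈ U) (hd : deriv g a ≠ 0) : Good U g := by
  have hg : DifferentiableOn ℂ g U :=
    h.differentiableOn (Eventually.of_forall fun n => (hf n).diff) hU
  have hga : AnalyticOnNhd ℂ g U := hg.analyticOnNhd hU
  have hle : ∀ z ∈ U, ‖g z‖ ≤ 1 := by
    intro z hz
    refine le_of_tendsto (h.tendsto_at hz).norm (Eventually.of_forall fun n => ?_)
    exact (mem_ball_zero_iff.1 ((hf n).maps hz)).le
  have hconst : ∀ c : ℂ, ¬ EqOn g (fun _ => c) U := by
    intro c he
    apply hd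
    have h1 : g =ᶠ[𝓝 a] fun _ => c := by
      filter_upwards [hU.mem_nhds ha] with z hz using he hz
    rw [h1.deriv_eq]
    exact deriv_const _ _
  have hnl : ∀ q ∈ U, ∀ c : ℂ, ¬ ∀ᶠ z in 𝓝 q, g z = c := by
    intro q hq c hev
    exact hconst c (hga.eqOn_of_preconnected_of_eventuallyEq analyticOnNhd_const hc hq hev)
  have hlt : ∀ z ∈ U, ‖g z‖ < 1 := by
    intro z hz
    refine lt_of_le_of_ne (hle z hz) fun h1 => ?_
    have hm : IsMaxOn (norm ∘ g) U z := by
      intro w hw
      change ‖g w‖ ≤ ‖g z‖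
      rw [h1]
      exact hle w hw
    exact hconst (g z) (Complex.eqOn_of_isPreconnected_of_isMaxOn_norm hc hU hg hz hm)
  refine ⟨hg, ?_, fun z hz => mem_ball_zero_iff.2 (hlt z hz), ?_⟩
  · intro p hp q hq hpq
    by_contra hne
    have h1 : TendstoLocallyUniformlyOn (fun n z => f n z - f n p) (fun z => g z - g p) l U := by
      refine h.sub ?_
      exact ((h.tendsto_at hp).tendstoUniformlyOn_const U).tendstoLocallyUniformlyOn
    obtain ⟨n, z, ⟨hzV, hzU⟩, hz0⟩ := rmb_zero hU (fun n => (hf n).diff.sub_const (f n p)) h1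
      (hga.sub analyticOnNhd_const) hq (by
        change g q - g p = 0
        rw [hpq, sub_self]) (fun hev => hnl q hq (g p) (by
        filter_upwards [hev] with z hz using sub_eq_zero.1 hz))
      (V := {p}ᶜ) (isOpen_compl_singleton.mem_nhds (fun h2 => hne (Eq.symm h2)))
    exact hzV ((hf n).inj hzU hp (sub_eq_zero.1 hz0))
  · intro q hq h0
    have hda : AnalyticOnNhd ℂ (deriv g) U := hga.deriv
    have h1 : TendstoLocallyUniformlyOn (fun n => deriv (f n)) (deriv g) l U :=
      h.deriv (Eventually.of_forall fun n => (hf n).diff) hU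
    obtain ⟨n, z, ⟨-, hzU⟩, hz0⟩ := rmb_zero hU
      (fun n => ((hf n).diff.analyticOnNhd hU).deriv.differentiableOn) h1 hda hq h0 (fun hev => by
        exact hd (hda.eqOn_of_preconnected_of_eventuallyEq
          (analyticOnNhd_const (v := (0 : ℂ))) hc hq hev ha)) (V := univ) univ_mem
    exact (hf n).deriv_ne z hzU hz0

theorem extremal {U : Set ℂ} (hU : IsOpen U) (hc : IsPreconnected U) {a : ℂ} (ha : a ∈ U)
    (hne : ∃ f, Good U f) : ∃ f, Good U f ∧ ∀ g, Good U g → ‖deriv g a‖ ≤ ‖deriv f a‖ := by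
  obtain ⟨r, hr, hrU⟩ := Metric.isOpen_iff.1 hU a ha
  have hsub : closedBall a (r / 2) ⊆ U := (closedBall_subset_ball (by linarith)).trans hrU
  set S : Set ℝ := {x | ∃ f, Good U f ∧ x = ‖deriv f a‖} with hS
  have hbd : ∀ f, Good U f → ‖deriv f a‖ ≤ 1 / (r / 2) := by
    intro f hf
    refine Complex.norm_deriv_le_of_forall_mem_sphere_norm_le (by linarith) ?_ ?_
    · refine DifferentiableOn.diffContOnCl (hf.diff.mono ?_)
      exact closure_ball_subset_closedBall.trans hsub
    · intro z hz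
      exact (mem_ball_zero_iff.1 (hf.maps (hsub (sphere_subset_closedBall hz)))).le
  have hbdd : BddAbove S := by
    refine ⟨1 / (r / 2), ?_⟩
    rintro x ⟨f, hf, rfl⟩
    exact hbd f hf
  obtain ⟨f₀, hf₀⟩ := hne
  have hSne : S.Nonempty := ⟨_, f₀, hf₀, rfl⟩
  obtain ⟨u, -, hu, huS⟩ := exists_seq_tendsto_sSup hSne hbdd
  choose f hf hfu using huS
  obtain ⟨g, hg⟩ := montel hU f (fun n => (hf n).diff)
    (fun n z hz => (mem_ball_zero_iff.1 ((hf n).maps hz)).le) (hyperfilter ℕ)
  have h1 : Tendsto (fun n => ‖deriv (f n) a‖) ((hyperfilter ℕ : Ultrafilter ℕ) : Filter ℕ)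
      (𝓝 ‖deriv g a‖) :=
    ((hg.deriv (Eventually.of_forall fun n => (hf n).diff) hU).tendsto_at ha).norm
  have h2 : Tendsto (fun n => ‖deriv (f n) a‖) ((hyperfilter ℕ : Ultrafilter ℕ) : Filter ℕ)
      (𝓝 (sSup S)) := by
    have h3 : Tendsto u ((hyperfilter ℕ : Ultrafilter ℕ) : Filter ℕ) (𝓝 (sSup S)) :=
      hu.mono_left Nat.hyperfilter_le_atTop
    exact h3.congr hfu
  have h4 : ‖deriv g a‖ = sSup S := tendsto_nhds_unique h1 h2
  have h5 : 0 < ‖deriv g a‖ := by
    rw [h4]
    exact (norm_pos_iff.2 (hf₀.deriv_ne a ha)).trans_le (le_csSup hbdd ⟨f₀, hf₀, rfl⟩)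
  refine ⟨g, lim_good hU hc hf hg ha (norm_pos_iff.1 h5), fun k hk => ?_⟩
  rw [h4]
  exact le_csSup hbdd ⟨k, hk, rfl⟩

end Pool.Agent.H65.FL
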