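import Pool.Agent.H65.FL.Cap
import Pool.Agent.H65.FL.Pla
import Pool.Agent.H65.FL.Osc

set_option autoImplicit false

/-!
# Module Rig: rigidity along horizontal segments

`B = ball (x k) r`; `g` is the inverse of `f` on `f '' B` (`OE.inv`), continuous.
PROOF. Let `γ τ = ψ (update y k (g (τ, s))) j` for `τ ∈ [a, b]`, continuous, and suppose `γ a ≠ γ b`, that is, for one of the two coordinates `u` of `γ` (first or second) `u a ≠ u b`. `osc` gives `l`, `κ`. Let `v = (l, 0)` resp. `(0, l)`, so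
`v.1 (γ τ).1 + v.2 (γ τ).2 = l * u τ`. (1) CONTINUITY: there are `δ > 0`, `ε₀ ∈ (0, t - s)` such that for `z ∈ ball x r` with `‖z i - y i‖ < δ` for all `i > k` and `f (z k) = (τ, σ)`, `τ ∈ [a, b]`, `s ≤ σ ≤ s + ε₀`:
`|l * (ψ z j).i - l * u τ| < κ / 4` (`.i` the chosen coordinate). For this let `Θ (q, p) = ψ (update p k (g q)) j` on the compact set `([a, b] × [s, t]) × closedBall y δ₀`, `δ₀` so small that `closedBall y δ₀ ⊆ ball x r`: it is continuous, so
uniformly continuous (`IsCompact.uniformContinuousOn_of_continuous`), and by `ht` `ψ z j = Θ (f (z k), z')` where `z' i = z i` for `i > k` and `z' i = y i` for `i ≤ k` (`z` and `update z' k (g (f (z k)))` agree at all `i ≥ k`), while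
`γ τ = Θ ((τ, s), y)`. Let also `ball y δ ⊆ ball x r` (so `‖w - y i‖ < δ` implies `w ∈ ball (x i) r`). (2) For `0 < ε < ε₀` let `R = Ioo a b ×ˢ Ioo s (s + ε)`, `U = B ∩ f ⁻¹' R`,
`V = {z ∈ ball x r | z k ∈ U and ‖z i - y i‖ < δ for i > k}`, open. `f '' U = R`, so `volume U = volume R = (b - a) ε`. For `z ∈ V`, `f (z k) = (τ, σ) = ψ z k`: `(ψ z k).1 - (v.1 (ψ z j).1 + v.2 (ψ z j).2)` differs from
`τ - l * u τ` by less than `κ / 4`, and these numbers are in an interval `[c₁, c₁ + b - a - κ]` (`osc`; `c₁` the infimum, or use the value at a maximum and a minimum point), so it is in an open interval of length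
`L = b - a - κ / 2` (`L > 0` may be assumed, if `L ≤ 0` the set `V` is empty, contradiction, or take the maximum with a small positive number). `cap_sh` for `ψ '' V` and the intervals of length `L` and `ε`: `c.val (ψ '' V) ≤ L ε`. (3) Take
`ε` so small that also `(b - a) ε < π δ²`, `α` with `L ε < α < (b - a) ε` (and `0 < α`), `ρ = √(α / π) < δ`. `fill'` for `U` gives `e`; `cap_low` with the centre `y`: if `z k ∈ U` and `z i - y i ∈ Dk ρ` for `i ≠ k` then `z ∈ V`; so
`α ≤ c.val V = c.val (ψ '' V) ≤ L ε < α`.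
-/

namespace Pool.Agent.H65.FL

open Set Metric MeasureTheory
open scoped ENNReal ContDiff
open Pool.Agent.H72.Symp (Sp omega ball1 cyl1 IsSympEmbedding Capacity CapacityChoice
  LocallyPreserves stab)

variable {m : ℕ} [NeZero m]

omit [NeZero m] in
private theorem Rig_upd {x y : Sp m} {r : ℝ} (hy : y ∈ ball x r) {j : Fin m} {w : ℝ × ℝ}
    (hw : w ∈ ball (x j) r) : Function.update y j w ∈ ball x r := by
  have hr : 0 < r := pos_of_mem_ball hy
  rw [mem_ball, dist_pi_lt_iff hr] at hy ⊢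
  intro i
  by_cases hi : i = j
  · subst hi
    simpa using hw
  · rw [Function.update_of_ne hi]
    exact hy i

private theorem Rig_inv {f : ℝ × ℝ → ℝ × ℝ} {B : Set (ℝ × ℝ)} (hf : OE f B) :
    ContinuousOn (Function.invFunOn f B) (f '' B) := by
  rintro _ ⟨w, hw, rfl⟩
  apply ContinuousAt.continuousWithinAt
  have hl : ∀ v ∈ B, Function.invFunOn f B (f v) = v := fun v hv => hf.inj.leftInvOn_invFunOn hv
  rw [ContinuousAt, hl w hw]
  intro N hN
  obtain ⟨W, hWN, hWo, hwW⟩ := _root_.mem_nhds_iff.1 (Filter.inter_mem hN (hf.isOpen.mem_nhds hw))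
  have h1 : f '' W ∈ nhds (f w) :=
    (hf.opn W (hWN.trans inter_subset_right) hWo).mem_nhds ⟨w, hwW, rfl⟩
  refine Filter.mem_map.2 (Filter.mem_of_superset h1 ?_)
  rintro _ ⟨v, hv, rfl⟩
  rw [mem_preimage, hl v (hWN hv).2]
  exact (hWN hv).1

private theorem Rig_Dk {ρ : ℝ} {p : ℝ × ℝ} (hρ : 0 < ρ) (h : p ∈ Dk ρ) : ‖p‖ < ρ := by
  have h' : p.1 ^ 2 + p.2 ^ 2 < ρ ^ 2 := h
  rw [Prod.norm_def, max_lt_iff, Real.norm_eq_abs, Real.norm_eq_abs]
  constructor
  · exact abs_lt_of_sq_lt_sq (by nlinarith [sq_nonneg p.2]) hρ.le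
  · exact abs_lt_of_sq_lt_sq (by nlinarith [sq_nonneg p.1]) hρ.le

private theorem Rig_ball_ne (q : ℝ × ℝ) (r : ℝ) : ball q r ≠ univ := by
  intro h
  have h1 : (q.1 + (|r| + 1), q.2) ∈ ball q r := by rw [h]; trivial
  rw [mem_ball, Prod.dist_eq, max_lt_iff, Real.dist_eq] at h1
  have h2 := h1.1
  simp only [add_sub_cancel_left] at h2
  have h3 := le_abs_self (|r| + 1)
  have h4 := le_abs_self r
  linarith

omit [NeZero m] in
private theorem Rig_cont {ψ : Sp m → Sp m} {x : Sp m} {r : ℝ}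
    (hc : ContinuousOn ψ (ball x r)) {k j : Fin m} {f : ℝ × ℝ → ℝ × ℝ} (hf : OE f (ball (x k) r))
    (ht : ∀ y ∈ ball x r, ∀ z ∈ ball x r, (∀ i : Fin m, k.1 ≤ i.1 → y i = z i) → ψ y j = ψ z j)
    {y : Sp m} (hy : y ∈ ball x r) {a b s t : ℝ} (hst : s < t)
    (hR : Icc a b ×ˢ Icc s t ⊆ f '' ball (x k) r) {P : ℝ × ℝ → ℝ} (hP : Continuous P)
    {κ : ℝ} (hκ : 0 < κ) :
    ∃ δ > 0, ball y δ ⊆ ball x r ∧ ∃ ε₀ > 0, ε₀ < t - s ∧
      ∀ z ∈ ball x r, (∀ i : Fin m, k < i → ‖z i - y i‖ < δ) →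
        (f (z k)).1 ∈ Icc a b → (f (z k)).2 ∈ Icc s (s + ε₀) →
        |P (ψ z j) - P (ψ (Function.update y k
          (Function.invFunOn f (ball (x k) r) ((f (z k)).1, s))) j)| < κ := by
  obtain ⟨δ₀, hδ₀, hδ₁⟩ := Metric.nhds_basis_closedBall.mem_iff.1 (isOpen_ball.mem_nhds hy)
  set g := Function.invFunOn f (ball (x k) r) with hg
  have hgc : ContinuousOn g (f '' ball (x k) r) := Rig_inv hf
  have hgm : ∀ q ∈ f '' ball (x k) r, g q ∈ ball (x k) r := fun q hq =>
    Function.invFunOn_mem hq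
  have hgl : ∀ v ∈ ball (x k) r, g (f v) = v := fun v hv => hf.inj.leftInvOn_invFunOn hv
  set K : Set ((ℝ × ℝ) × Sp m) := (Icc a b ×ˢ Icc s t) ×ˢ closedBall y δ₀ with hK
  have hKc : IsCompact K := (isCompact_Icc.prod isCompact_Icc).prod (isCompact_closedBall y δ₀)
  have hcont : ContinuousOn (fun q : (ℝ × ℝ) × Sp m => P (ψ (Function.update q.2 k (g q.1)) j)) K := by
    apply hP.comp_continuousOn
    apply (continuous_apply j).comp_continuousOn
    apply hc.comp
    · have h1 : ContinuousOn (fun q : (ℝ × ℝ) × Sp m => g q.1) K :=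
        hgc.comp continuousOn_fst (fun q hq => hR hq.1)
      have h2 : Continuous (fun q : Sp m × (ℝ × ℝ) => Function.update q.1 k q.2) :=
        continuous_fst.update k continuous_snd
      exact h2.comp_continuousOn (continuousOn_snd.prodMk h1)
    · intro q hq
      exact Rig_upd (hδ₁ hq.2) (hgm _ (hR hq.1))
  have huc := hKc.uniformContinuousOn_of_continuous hcont
  rw [Metric.uniformContinuousOn_iff] at huc
  obtain ⟨δ₁, hδ₁p, hδ₁'⟩ := huc κ hκ
  refine ⟨min δ₀ δ₁, lt_min hδ₀ hδ₁p, ?_, min (δ₁ / 2) ((t - s) / 2),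
    lt_min (by linarith) (by linarith), ?_, ?_⟩
  · exact (ball_subset_closedBall.trans (closedBall_subset_closedBall (min_le_left _ _))).trans hδ₁
  · exact (min_le_right _ _).trans_lt (by linarith)
  intro z hz hzi h1 h2
  have hr : 0 < r := pos_of_mem_ball hz
  have hzk : z k ∈ ball (x k) r := by
    rw [mem_ball, dist_pi_lt_iff hr] at hz
    exact hz k
  set z' : Sp m := fun i => if k < i then z i else y i with hz'
  have hd : dist z' y < min δ₀ δ₁ := by
    rw [dist_pi_lt_iff (lt_min hδ₀ hδ₁p)]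
    intro i
    by_cases hi : k < i
    · simp only [hz', if_pos hi]
      rw [dist_eq_norm]
      exact hzi i hi
    · simp only [hz', if_neg hi, dist_self]
      exact lt_min hδ₀ hδ₁p
  have hz'm : z' ∈ closedBall y δ₀ := (hd.trans_le (min_le_left _ _)).le
  have hfz : f (z k) ∈ f '' ball (x k) r := ⟨z k, hzk, rfl⟩
  have e1 : ψ z j = ψ (Function.update z' k (g (f (z k)))) j := by
    apply ht z hz _ (Rig_upd (hδ₁ hz'm) (hgm _ hfz))
    intro i hi
    by_cases hik : i = k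
    · subst hik
      rw [Function.update_self, hgl _ hzk]
    · rw [Function.update_of_ne hik]
      have : k < i := lt_of_le_of_ne hi (fun h => hik h.symm)
      simp only [hz', if_pos this]
  rw [e1]
  have h3 : (f (z k)).2 - s ≤ δ₁ / 2 := by
    have := h2.2
    have := min_le_left (δ₁ / 2) ((t - s) / 2)
    linarith
  have h4 : (f (z k)).2 ≤ t := by
    have := h2.2
    have := min_le_right (δ₁ / 2) ((t - s) / 2)
    linarith
  have h5 := hδ₁' (f (z k), z') ⟨⟨h1, h2.1, h4⟩, hz'm⟩ (((f (z k)).1, s), y)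
    ⟨⟨h1, le_rfl, hst.le⟩, mem_closedBall_self hδ₀.le⟩ (by
      rw [Prod.dist_eq, max_lt_iff]
      refine ⟨?_, hd.trans_le (min_le_right _ _)⟩
      rw [Prod.dist_eq, max_lt_iff]
      simp only [dist_self]
      refine ⟨hδ₁p, ?_⟩
      rw [Real.dist_eq, abs_of_nonneg (by linarith [h2.1])]
      linarith)
  rw [Real.dist_eq] at h5
  exact h5

private theorem Rig_aux (c : Capacity m) {ψ : Sp m → Sp m} {x : Sp m} {r : ℝ}
    (hc : ContinuousOn ψ (ball x r))
    (hv : ∀ W ⊆ ball x r, IsOpen W → IsOpen (ψ '' W) ∧ c.val (ψ '' W) = c.val W)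
    {k j : Fin m} (hkj : k ≠ j) {f : ℝ × ℝ → ℝ × ℝ} (hf : OE f (ball (x k) r))
    (hfa : ∀ E ⊆ ball (x k) r, MeasurableSet E → volume (f '' E) = volume E)
    (hk : ∀ y ∈ ball x r, ψ y k = f (y k))
    (ht : ∀ y ∈ ball x r, ∀ z ∈ ball x r, (∀ i : Fin m, k.1 ≤ i.1 → y i = z i) → ψ y j = ψ z j)
    {y : Sp m} (hy : y ∈ ball x r) {a b s t : ℝ} (hab : a < b) (hst : s < t)
    (hR : Icc a b ×ˢ Icc s t ⊆ f '' ball (x k) r) {w w' : ℝ × ℝ} (hw : w ∈ ball (x k) r)
    (hw' : w' ∈ ball (x k) r) (e : f w = (a, s)) (e' : f w' = (b, s)) (v₀ : ℝ × ℝ) :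
    v₀.1 * (ψ (Function.update y k w) j).1 + v₀.2 * (ψ (Function.update y k w) j).2 =
      v₀.1 * (ψ (Function.update y k w') j).1 + v₀.2 * (ψ (Function.update y k w') j).2 := by
  by_contra hne
  set g := Function.invFunOn f (ball (x k) r) with hg
  have hgc : ContinuousOn g (f '' ball (x k) r) := Rig_inv hf
  have hgm : ∀ q ∈ f '' ball (x k) r, g q ∈ ball (x k) r := fun q hq =>
    Function.invFunOn_mem hq
  have hgl : ∀ v ∈ ball (x k) r, g (f v) = v := fun v hv => hf.inj.leftInvOn_invFunOn hv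
  set P₀ : ℝ × ℝ → ℝ := fun p => v₀.1 * p.1 + v₀.2 * p.2 with hP₀
  have hP₀c : Continuous P₀ := by fun_prop
  set u : ℝ → ℝ := fun τ => P₀ (ψ (Function.update y k (g (τ, s))) j) with hu
  have hwg : g (a, s) = w := by rw [← e, hgl w hw]
  have hwg' : g (b, s) = w' := by rw [← e', hgl w' hw']
  have hucont : ContinuousOn u (Icc a b) := by
    apply hP₀c.comp_continuousOn
    apply (continuous_apply j).comp_continuousOn
    apply hc.comp
    · have h1 : ContinuousOn (fun τ : ℝ => g (τ, s)) (Icc a b) :=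
        hgc.comp (by fun_prop) (fun τ hτ => hR ⟨hτ, le_rfl, hst.le⟩)
      have h2 : Continuous (fun q : ℝ × ℝ => Function.update y k q) := by fun_prop
      exact h2.comp_continuousOn h1
    · intro τ hτ
      exact Rig_upd hy (hgm _ (hR ⟨hτ, le_rfl, hst.le⟩))
  obtain ⟨l, κ, hκ, hosc⟩ := osc hab hucont (by
    simp only [hu, hwg, hwg']
    exact hne)
  obtain ⟨δ, hδ, hδs, ε₀, hε₀, hε₀', hcl⟩ := Rig_cont hc hf ht hy hst hR
    (P := fun p => l * P₀ p) (by fun_prop) (κ := κ / 4) (by positivity)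
  have hL : κ ≤ b - a := by
    have := hosc a (left_mem_Icc.2 hab.le) a (left_mem_Icc.2 hab.le)
    linarith
  obtain ⟨τ₀, hτ₀, hmin⟩ := isCompact_Icc.exists_isMinOn (nonempty_Icc.2 hab.le)
    (continuousOn_id.sub (continuousOn_const.mul hucont) :
      ContinuousOn (fun τ => τ - l * u τ) (Icc a b))
  set c₁ := τ₀ - l * u τ₀ with hc₁
  have hlow : ∀ τ ∈ Icc a b, c₁ ≤ τ - l * u τ := fun τ hτ => isMinOn_iff.1 hmin τ hτ
  have hupp : ∀ τ ∈ Icc a b, τ - l * u τ ≤ c₁ + (b - a) - κ := by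
    intro τ hτ
    have := hosc τ₀ hτ₀ τ hτ
    linarith
  -- the choice of `ε`
  have hba : 0 < b - a := by linarith
  have hπ := Real.pi_pos
  obtain ⟨ε, hε, hεε₀, hεδ⟩ : ∃ ε > 0, ε < ε₀ ∧ (b - a) * ε < Real.pi * δ ^ 2 := by
    refine ⟨min (ε₀ / 2) (Real.pi * δ ^ 2 / (2 * (b - a))), lt_min (by linarith) (by positivity),
      (min_le_left _ _).trans_lt (by linarith), ?_⟩
    have h1 : (b - a) * min (ε₀ / 2) (Real.pi * δ ^ 2 / (2 * (b - a))) ≤
        (b - a) * (Real.pi * δ ^ 2 / (2 * (b - a))) :=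
      mul_le_mul_of_nonneg_left (min_le_right _ _) hba.le
    have h2 : (b - a) * (Real.pi * δ ^ 2 / (2 * (b - a))) = Real.pi * δ ^ 2 / 2 := by
      field_simp
    have h3 : 0 < Real.pi * δ ^ 2 := by positivity
    linarith
  set α := (b - a - κ / 4) * ε with hα
  have hα0 : 0 < α := mul_pos (by linarith) hε
  have hα1 : α < (b - a) * ε := by
    rw [hα]
    nlinarith
  have hα2 : (b - a - κ / 2) * ε < α := by
    rw [hα]
    nlinarith
  set ρ := Real.sqrt (α / Real.pi) with hρ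
  have hρ0 : 0 < ρ := Real.sqrt_pos.2 (by positivity)
  have hρ2 : Real.pi * ρ ^ 2 = α := by
    rw [hρ, Real.sq_sqrt (by positivity)]
    field_simp
  have hρδ : ρ < δ := by
    have h1 : Real.pi * ρ ^ 2 < Real.pi * δ ^ 2 := by linarith
    have h2 : ρ ^ 2 < δ ^ 2 := lt_of_mul_lt_mul_left h1 hπ.le
    exact lt_of_pow_lt_pow_left₀ 2 hδ.le h2
  set R : Set (ℝ × ℝ) := Ioo a b ×ˢ Ioo s (s + ε) with hRd
  have hRs : R ⊆ f '' ball (x k) r := by
    refine Subset.trans ?_ hR
    exact Set.prod_mono Ioo_subset_Icc_self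
      (fun q hq => ⟨hq.1.le, by linarith [hq.2]⟩)
  have hRo : IsOpen R := isOpen_Ioo.prod isOpen_Ioo
  set U : Set (ℝ × ℝ) := ball (x k) r ∩ f ⁻¹' R with hU
  have hUo : IsOpen U := hf.cont.isOpen_inter_preimage hf.isOpen hRo
  have hUR : f '' U = R := by
    rw [hU, image_inter_preimage, inter_eq_right.2 hRs]
  have hUv : volume U = ENNReal.ofReal ((b - a) * ε) := by
    rw [← hfa U inter_subset_left hUo.measurableSet, hUR, hRd, Measure.volume_eq_prod,
      Measure.prod_prod, Real.volume_Ioo, Real.volume_Ioo, ENNReal.ofReal_mul hba.le]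
    congr 2
    ring
  set V : Set (Sp m) := {z | z ∈ ball x r ∧ z k ∈ U ∧ ∀ i, k < i → ‖z i - y i‖ < δ} with hV
  have hVo : IsOpen V := by
    have e1 : V = ball x r ∩ ((fun z : Sp m => z k) ⁻¹' U ∩
        ⋂ i : Fin m, {z : Sp m | k < i → ‖z i - y i‖ < δ}) := by
      ext z
      simp [hV, mem_iInter]
    rw [e1]
    refine isOpen_ball.inter ((hUo.preimage (continuous_apply k)).inter
      (isOpen_iInter_of_finite fun i => ?_))
    by_cases hi : k < i
    · have : {z : Sp m | k < i → ‖z i - y i‖ < δ} = {z : Sp m | ‖z i - y i‖ < δ} := by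
        ext z
        simp [hi]
      rw [this]
      exact isOpen_lt (by fun_prop) continuous_const
    · have : {z : Sp m | k < i → ‖z i - y i‖ < δ} = univ := by
        ext z
        simp [hi]
      rw [this]
      exact isOpen_univ
  have hVs : V ⊆ ball x r := fun z hz => hz.1
  obtain ⟨hψo, hψv⟩ := hv V hVs hVo
  -- the upper bound
  have hup : c.val (ψ '' V) ≤ ENNReal.ofReal ((b - a - κ / 2) * ε) := by
    have h1 := cap_sh c hkj (l • v₀) hψo (a := c₁ - κ / 4) (b := c₁ + (b - a) - κ + κ / 4)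
      (s := s) (t := s + ε) (by linarith) (by linarith) (by
        rintro _ ⟨z, hz, rfl⟩
        rw [hk z hz.1]
        have h2 : f (z k) ∈ R := hz.2.1.2
        have h3 := hcl z hz.1 hz.2.2 ⟨h2.1.1.le, h2.1.2.le⟩ ⟨h2.2.1.le, by linarith [h2.2.2]⟩
        have h4 := hlow _ (⟨h2.1.1.le, h2.1.2.le⟩ : (f (z k)).1 ∈ Icc a b)
        have h5 := hupp _ (⟨h2.1.1.le, h2.1.2.le⟩ : (f (z k)).1 ∈ Icc a b)
        rw [abs_lt] at h3
        have h6 : (l • v₀).1 * (ψ z j).1 + (l • v₀).2 * (ψ z j).2 = l * P₀ (ψ z j) := by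
          simp only [hP₀, Prod.smul_fst, Prod.smul_snd, smul_eq_mul]
          ring
        rw [h6]
        have h7 : l * P₀ (ψ (Function.update y k (g ((f (z k)).1, s))) j) = l * u (f (z k)).1 := rfl
        rw [h7] at h3
        exact ⟨⟨by linarith, by linarith⟩, h2.2⟩)
    refine h1.trans (le_of_eq ?_)
    congr 1
    ring
  -- the lower bound
  obtain ⟨e₁, he₁⟩ := fill' hf (Rig_ball_ne _ _) hab (by linarith : s < s + ε) hRs hρ0 (by
    rw [hρ2]
    change ENNReal.ofReal α < volume U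
    rw [hUv]
    exact (ENNReal.ofReal_lt_ofReal_iff (by positivity)).2 hα1)
  have hlo := cap_low c k hVo y hρ0 he₁ (by
    intro y' hy' hi
    have hi' : ∀ i, i ≠ k → ‖y' i - y i‖ < δ := fun i hik => (Rig_Dk hρ0 (hi i hik)).trans hρδ
    refine ⟨?_, hy', fun i hki => hi' i hki.ne'⟩
    have h1 : Function.update y' k (y k) ∈ ball y δ := by
      rw [mem_ball, dist_pi_lt_iff hδ]
      intro i
      by_cases hik : i = k
      · subst hik
        simpa using hδ
      · rw [Function.update_of_ne hik, dist_eq_norm]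
        exact hi' i hik
    have h2 := Rig_upd (hδs h1) (hy'.1 : y' k ∈ ball (x k) r)
    simpa using h2)
  rw [hρ2, ← hψv] at hlo
  have h1 := hlo.trans hup
  have h2 := (ENNReal.ofReal_le_ofReal_iff (mul_pos (by linarith) hε).le).1 h1
  linarith

theorem rig_h (c : Capacity m) {ψ : Sp m → Sp m} {x : Sp m} {r : ℝ} (hr : 0 < r)
    (hc : ContinuousOn ψ (ball x r))
    (hv : ∀ W ⊆ ball x r, IsOpen W → IsOpen (ψ '' W) ∧ c.val (ψ '' W) = c.val W)
    {k j : Fin m} (hkj : k ≠ j) {f : ℝ × ℝ → ℝ × ℝ} (hf : OE f (ball (x k) r))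
    (hfa : ∀ E ⊆ ball (x k) r, MeasurableSet E → volume (f '' E) = volume E)
    (hk : ∀ y ∈ ball x r, ψ y k = f (y k))
    (ht : ∀ y ∈ ball x r, ∀ z ∈ ball x r, (∀ i : Fin m, k.1 ≤ i.1 → y i = z i) → ψ y j = ψ z j)
    {y : Sp m} (hy : y ∈ ball x r) {a b s t : ℝ} (hab : a < b) (hst : s < t)
    (hR : Icc a b ×ˢ Icc s t ⊆ f '' ball (x k) r) {w w' : ℝ × ℝ} (hw : w ∈ ball (x k) r)
    (hw' : w' ∈ ball (x k) r) (e : f w = (a, s)) (e' : f w' = (b, s)) :
    ψ (Function.update y k w) j = ψ (Function.update y k w') j := by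
  have _ := hr
  have h1 := Rig_aux c hc hv hkj hf hfa hk ht hy hab hst hR hw hw' e e' (1, 0)
  have h2 := Rig_aux c hc hv hkj hf hfa hk ht hy hab hst hR hw hw' e e' (0, 1)
  simp only [one_mul, zero_mul, add_zero, zero_add] at h1 h2
  exact Prod.ext h1 h2

end Pool.Agent.H65.FL
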