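import Pool.Agent.H65.FL.Fin

set_option autoImplicit false

/-!
# Module Str: the local structure: a product of area preserving planar maps
-/

namespace Pool.Agent.H65.FL

open Set Metric MeasureTheory
open scoped ENNReal ContDiff
open Pool.Agent.H72.Symp (Sp omega ball1 cyl1 IsSympEmbedding Capacity CapacityChoice
  LocallyPreserves stab)
open Pool.Agent.H36.CSymp (initL stC snocL chart chart_source chart_target chart_cap
  IsSympEmbedding.mono' stC_embedding initL_stab stab_last ext_last snocL_castSucc snocL_last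
  initL_apply)

/-- Near the point `σ x` the map `φ`, written in the charts `σ` and `τ`, is a product of injective
continuous area preserving maps of the plane. -/
def ProdAt {m : ℕ} (φ σ τ : Sp m → Sp m) (U : Set (Sp m)) (x : Sp m) : Prop :=
  ∃ r > 0, ball (σ x) r ⊆ σ '' U ∧ ∃ f : Fin m → ℝ × ℝ → ℝ × ℝ,
    (∀ j, ContinuousOn (f j) (ball (σ x j) r) ∧ InjOn (f j) (ball (σ x j) r) ∧
      ∀ E ⊆ ball (σ x j) r, MeasurableSet E → volume (f j '' E) = volume E) ∧
    ∀ y ∈ U, σ y ∈ ball (σ x) r → ∀ j, τ (φ y) j = f j (σ y j)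

private theorem Str_spl {m : ℕ} {ψ : OpenPartialHomeomorph (Sp m) (Sp m)} {x : Sp m} {r : ℝ}
    (h : Spl ψ x r m) (k : Fin m) : Spl ψ x r k.1 where
  src := h.src
  own j _ y hy z hz e := h.own j j.2 y hy z hz e
  tail y hy z hz e j hj := h.own j j.2 y hy z hz (e j hj)
  area j _ E hE hm := h.area j j.2 E hE hm

theorem str_cap {m : ℕ} [NeZero m] {c : Capacity m} {φ : Sp m ≃ₜ Sp m}
    (hφ : LocallyPreserves c φ) {U₀ : Set (Sp m)} (hU₀ : IsOpen U₀) {σ τ : Sp m → Sp m}
    (hσ₀ : IsSympEmbedding σ U₀ univ) (hτ₀ : IsSympEmbedding τ (φ '' U₀) univ)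
    (hL : ∀ k, ∀ y ∈ U₀, ∀ z ∈ U₀, (Ag k (σ y) (σ z) ↔ Ag k (τ (φ y)) (τ (φ z))))
    {x : Sp m} (hx : x ∈ U₀) : ProdAt φ σ τ U₀ x := by
  obtain ⟨U1, hU1, hx1, h1⟩ := hφ x
  set U := U1 ∩ U₀ with hUd
  have hU : IsOpen U := hU1.inter hU₀
  have hxU : x ∈ U := ⟨hx1, hx⟩
  have hσ : IsSympEmbedding σ U univ := IsSympEmbedding.mono' hσ₀ inter_subset_right
  have hτ : IsSympEmbedding τ (φ '' U) univ :=
    IsSympEmbedding.mono' hτ₀ (image_mono inter_subset_right)
  have hφU : IsOpen (φ '' U) := φ.isOpenMap U hU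
  set ψ : OpenPartialHomeomorph (Sp m) (Sp m) :=
    (chart hU hσ).symm.trans (φ.toOpenPartialHomeomorph.trans (chart hφU hτ)) with hψ
  have happ : ∀ y ∈ U, ψ (σ y) = τ (φ y) := by
    intro y hy
    have e1 : (chart hU hσ).symm (σ y) = y := (chart hU hσ).left_inv hy
    show τ (φ ((chart hU hσ).symm (σ y))) = τ (φ y)
    rw [e1]
  have hsrc : ∀ y, y ∈ ψ.source ↔ ∃ z ∈ U, σ z = y := by
    intro y
    constructor
    · intro hy
      simp only [hψ, OpenPartialHomeomorph.trans_source, OpenPartialHomeomorph.symm_source,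
        chart_target, mem_inter_iff] at hy
      obtain ⟨⟨z, hz, hzy⟩, -⟩ := hy
      exact ⟨z, hz, hzy⟩
    · rintro ⟨z, hz, rfl⟩
      have e1 : (chart hU hσ).symm (σ z) = z := (chart hU hσ).left_inv hz
      simp only [hψ, OpenPartialHomeomorph.trans_source, OpenPartialHomeomorph.symm_source,
        chart_target, chart_source, mem_inter_iff, mem_preimage,
        Homeomorph.toOpenPartialHomeomorph_source, mem_univ, true_and]
      refine ⟨⟨z, hz, rfl⟩, ?_⟩
      show φ ((chart hU hσ).symm (σ z)) ∈ φ '' U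
      rw [e1]
      exact ⟨z, hz, rfl⟩
  have hCM : CM c ψ := by
    refine ⟨fun W hW ho => ?_, fun k y hy z hz => ?_⟩
    · set W0 : Set (Sp m) := U ∩ σ ⁻¹' W with hW0
      have hW0o : IsOpen W0 := hσ.smooth.continuousOn.isOpen_inter_preimage hU ho
      have h3 : σ '' W0 = W := by
        ext y
        constructor
        · rintro ⟨z, hz, rfl⟩
          exact hz.2
        · intro hy
          obtain ⟨z, hz, rfl⟩ := (hsrc y).1 (hW hy)
          exact ⟨z, ⟨hz, hy⟩, rfl⟩
      have h4 : τ '' (φ '' W0) = ψ '' W := by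
        rw [← h3]
        simp only [image_image]
        exact image_congr fun y hy => (happ y hy.1).symm
      rw [← h4, chart_cap c hφU hτ (image_mono inter_subset_left) (φ.isOpenMap _ hW0o),
        h1 W0 hW0o (inter_subset_left.trans inter_subset_left),
        ← chart_cap c hU hσ inter_subset_left hW0o, h3]
    · obtain ⟨y', hy', rfl⟩ := (hsrc y).1 hy
      obtain ⟨z', hz', rfl⟩ := (hsrc z).1 hz
      rw [happ _ hy', happ _ hz']
      exact hL k y' hy'.2 z' hz'.2
  obtain ⟨r, hr, hs⟩ := spl_all hCM ((hsrc _).2 ⟨x, hxU, rfl⟩)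
  have hrU : ∀ y ∈ ball (σ x) r, ∃ z ∈ U, σ z = y := fun y hy => (hsrc y).1 (hs.src hy)
  refine ⟨r, hr, fun y hy => ?_, fun j => fk ψ (σ x) j, fun j => ⟨?_, ?_, ?_⟩,
    fun y hy hyr j => ?_⟩
  · obtain ⟨z, hz, hzy⟩ := hrU y hy
    exact ⟨z, hz.2, hzy⟩
  · exact (fk_oe hCM hr (Str_spl hs j)).cont
  · exact (fk_oe hCM hr (Str_spl hs j)).inj
  · exact hs.area j j.2
  · obtain ⟨z, hz, hzy⟩ := hrU _ hyr
    have e1 : z = y := hσ₀.inj hz.2 hy hzy
    subst e1
    rw [← happ _ hz]
    exact fk_eq hCM hr (Str_spl hs j) hyr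

theorem str_main (c : CapacityChoice) (n : ℕ) [NeZero n] (φ : Sp n ≃ₜ Sp n)
    (hφ : (Odd n → LocallyPreserves (c n) φ) ∧
      (Even n → LocallyPreserves (c (n + 1)) (stab φ)))
    {U : Set (Sp n)} (hU : IsOpen U) {σ τ : Sp n → Sp n}
    (hσ : IsSympEmbedding σ U univ) (hτ : IsSympEmbedding τ (φ '' U) univ)
    (hL : ∀ k, ∀ y ∈ U, ∀ z ∈ U, (Ag k (σ y) (σ z) ↔ Ag k (τ (φ y)) (τ (φ z))))
    {x : Sp n} (hx : x ∈ U) : ProdAt φ σ τ U x := by
  rcases Nat.even_or_odd n with h | h
  · have himg : stab φ '' (initL n ⁻¹' U) = initL n ⁻¹' (φ '' U) := by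
      ext y
      constructor
      · rintro ⟨z, hz, rfl⟩
        rw [mem_preimage, initL_stab]
        exact ⟨_, hz, rfl⟩
      · rintro ⟨z, hz, hzy⟩
        refine ⟨(stab φ).symm y, ?_, (stab φ).apply_symm_apply y⟩
        rw [mem_preimage]
        have h1 := initL_stab φ ((stab φ).symm y)
        rw [(stab φ).apply_symm_apply, ← hzy] at h1
        rw [← φ.injective h1]
        exact hz
    have hag : ∀ (ρ : Sp n → Sp n) (k : ℕ) (x y : Sp (n + 1)), Ag k (stC ρ x) (stC ρ y) ↔
        Ag k (ρ (initL n x)) (ρ (initL n y)) ∧ (n < k → x (Fin.last n) = y (Fin.last n)) := by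
      intro ρ k x y
      constructor
      · intro h
        refine ⟨fun j hj => ?_, fun hk => ?_⟩
        · have := h j.castSucc hj
          simpa only [stC, snocL_castSucc] using this
        · have := h (Fin.last n) (by simpa using hk)
          simpa only [stC, snocL_last] using this
      · rintro ⟨h1, h2⟩ i
        induction i using Fin.lastCases with
        | last =>
          intro hi
          simpa only [stC, snocL_last] using h2 (by simpa using hi)
        | cast j =>
          intro hj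
          simpa only [stC, snocL_castSucc] using h1 j hj
    have hin : ∀ p : Sp n, initL n (snocL n (p, 0)) = p := by
      intro p
      funext j
      rw [initL_apply]
      exact snocL_castSucc (p, 0) j
    have hx' : snocL n (x, 0) ∈ initL n ⁻¹' U := by
      rw [mem_preimage, hin]
      exact hx
    have hst : ∀ (ρ : Sp n → Sp n) (p : Sp n), stC ρ (snocL n (p, 0)) = snocL n (ρ p, 0) := by
      intro ρ p
      refine ext_last ?_ ?_
      · funext j
        rw [initL_apply, initL_apply]
        show stC ρ (snocL n (p, 0)) j.castSucc = snocL n (ρ p, 0) j.castSucc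
        rw [stC, snocL_castSucc, snocL_castSucc, hin]
      · rw [stC, snocL_last, snocL_last, snocL_last]
    obtain ⟨r, hr, hrs, f, hf, hfe⟩ := str_cap (hφ.2 h) (hU.preimage (initL n).continuous)
      (stC_embedding hU hσ) (by
        rw [himg]
        exact stC_embedding (φ.isOpenMap U hU) hτ) (fun k y hy z hz => by
        rw [hag, hag, initL_stab, initL_stab, stab_last, stab_last, hL _ _ hy _ hz]) hx'
    rw [hst] at hrs hfe hf
    have hball : ∀ p ∈ ball (σ x) r, snocL n (p, (0 : ℝ × ℝ)) ∈ ball (snocL n (σ x, 0)) r := by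
      intro p hp
      rw [mem_ball, dist_pi_lt_iff hr] at hp ⊢
      intro i
      induction i using Fin.lastCases with
      | last => simpa only [snocL_last, dist_self] using hr
      | cast j => simpa only [snocL_castSucc] using hp j
    refine ⟨r, hr, fun p hp => ?_, fun j => f j.castSucc, fun j => ?_, fun y hy hyr j => ?_⟩
    · obtain ⟨z, hz, hzp⟩ := hrs (hball p hp)
      refine ⟨initL n z, hz, ?_⟩
      have := congrArg (initL n) hzp
      rw [hin] at this
      rw [← this]
      funext j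
      show σ (initL n z) j = stC σ z j.castSucc
      rw [stC, snocL_castSucc]
    · have := hf j.castSucc
      rw [snocL_castSucc] at this
      exact this
    · have h1 := hfe (snocL n (y, 0)) (by
        rw [mem_preimage, hin]
        exact hy) (by
        rw [hst]
        exact hball _ hyr) j.castSucc
      rw [hst, snocL_castSucc, stC, snocL_castSucc, initL_stab, hin] at h1
      exact h1
  · exact str_cap (hφ.1 h) hU hσ hτ hL hx

end Pool.Agent.H65.FL
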